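import Pool.Agent.Helper35.MP.W
set_option autoImplicit false

/-! The final estimates. -/

namespace Pool.Agent.Helper35.MP

open MeasureTheory Set Filter Topology Complex Matrix
open scoped ENNReal NNReal
open Pool.Agent.Y183.LS (BA FT ec dt ec_norm ec_add ec_zero dt_comm FT_meas sq2)
open Pool.Agent.Y183.PP (Poly ev ev_cont)

variable {m n : ℕ}

/-- the exponential of the phase -/
noncomputable def osc (φ : (Fin n → ℝ) → ℝ) (v : Fin n → ℝ) : ℂ := cexp ((φ v : ℂ) * I)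

lemma osc_norm (φ : (Fin n → ℝ) → ℝ) (v : Fin n → ℝ) : ‖osc φ v‖ = 1 :=
  Complex.norm_exp_ofReal_mul_I _

lemma sq2_nonneg (v : Fin n → ℝ) : 0 ≤ sq2 v := Finset.sum_nonneg fun i _ => sq_nonneg _

lemma sq_le_sq2 (v : Fin n → ℝ) (i : Fin n) : v i ^ 2 ≤ sq2 v :=
  Finset.single_le_sum (f := fun i => v i ^ 2) (fun i _ => sq_nonneg _) (Finset.mem_univ i)

lemma sq2_le_BA (ρ : ℝ) (v : Fin n → ℝ) (hv : v ∈ BA ρ n) : sq2 v ≤ n * ρ ^ 2 := by
  unfold sq2
  calc ∑ i, v i ^ 2 ≤ ∑ _i : Fin n, ρ ^ 2 := by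
        apply Finset.sum_le_sum
        intro i _
        exact sq_le_sq' (hv.1 i) (hv.2 i)
    _ = _ := by simp

/-- functions that are equal to `e^{iφ}` on a large ball -/
theorem core (hm : 1 ≤ m) (D : ℕ) (q : ℝ) (hq : 2 + 2 / (m + 2 : ℝ) < q) :
    ∃ C : ℝ≥0, ∀ (V : Matrix (Fin (m + 2)) (Fin (m + 2)) ℝ), Vᵀ * V = 1 →
      ∀ (p : Poly) (r : Fin m → Poly) (c : Fin m → ℝ), p.totalDegree ≤ D →
      (∀ j, (r j).totalDegree ≤ D) → ∃ f : (Fin (m + 2) → ℝ) → ℂ, Bd f ∧ JJ q f ≤ C ∧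
        ∀ v ∈ BA 1 (m + 2), f v = osc (fun v => phs p r c (spl m (V *ᵥ v))) v := by
  have hq2 : 1 < q := by
    have : 0 < 2 / (m + 2 : ℝ) := by positivity
    linarith
  set R : ℝ := m + 2 with hR
  have hR0 : 0 < R := by positivity
  have hR1 : 1 ≤ R := by
    rw [hR]
    have : (0 : ℝ) ≤ m := Nat.cast_nonneg m
    linarith
  obtain ⟨C, hC⟩ := JJ_f0 hm D q hq R hR1
  obtain ⟨k, hk, hkt, θ, hθk, hθm, ⟨B, hB⟩, hθ, ⟨ρ', hρ'⟩⟩ := smooth_mult (n := m + 2) R hR0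
    (fun v => ∑ j : Fin m, v j.succ.succ ^ 2) (by fun_prop)
  refine ⟨((∫⁻ y, ‖k y‖ₑ) ^ q * C).toNNReal, ?_⟩
  intro V hV p r c hp hr
  have hf0 := f0_meas R p r c
  set f1 : (Fin (m + 2) → ℝ) → ℂ := fun v => θ v * f0 R p r c v with hf1
  have hf1m : Measurable f1 := hθm.mul hf0
  have hf0b : ∀ v, ‖f0 R p r c v‖ ≤ 1 := by
    intro v
    unfold f0
    by_cases h : spl m v ∈ {w : (ℝ × ℝ) × (Fin m → ℝ) | w.1 ∈ BR R}
    · rw [indicator_of_mem h, F0_norm, Real.exp_le_one_iff]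
      have : 0 ≤ ∑ j, (spl m v).2 j ^ 2 := Finset.sum_nonneg fun j _ => sq_nonneg _
      linarith
    · rw [indicator_of_notMem h, norm_zero]
      exact zero_le_one
  have hJ1 : JJ q f1 ≤ (∫⁻ y, ‖k y‖ₑ) ^ q * C := by
    have h1 := JJ_mult q hq2 k hk hkt (f0 R p r c) hf0 (f0_int R p r c)
    simp only [← hθk] at h1
    refine h1.trans ?_
    gcongr
    exact hC p r c hp hr
  have hf1v : ∀ v, sq2 v ≤ R ^ 2 → f1 v = osc (fun v => phs p r c (spl m v)) v := by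
    intro v hv
    have h1 : ∀ i, |v i| ≤ R := fun i => abs_le_of_sq_le_sq ((sq_le_sq2 v i).trans hv) hR0.le
    simp only [hf1]
    rw [hθ v hv]
    unfold f0
    rw [indicator_of_mem (show spl m v ∈ {w : (ℝ × ℝ) × (Fin m → ℝ) | w.1 ∈ BR R} from
      ⟨h1 0, h1 1⟩)]
    unfold F0 osc
    rw [Complex.ofReal_exp, ← Complex.exp_add]
    congr 1
    have h2 : ((∑ j : Fin m, v j.succ.succ ^ 2 : ℝ) : ℂ) + ((-∑ j, (spl m v).2 j ^ 2 : ℝ) : ℂ) = 0 := by
      rw [spl_apply, ← Complex.ofReal_add]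
      simp
    rw [← add_assoc, h2, zero_add]
  refine ⟨fun v => f1 (V *ᵥ v), ?_, ?_, ?_⟩
  · refine ⟨hf1m.comp (mat_meas V), ⟨B * 1, fun v => ?_⟩, ⟨(1 + (m + 2 : ℕ)) * (1 + ρ' ^ 2), fun v hv => ?_⟩⟩
    · simp only [hf1]
      rw [norm_mul]
      exact mul_le_mul (hB _) (hf0b _) (norm_nonneg _) ((norm_nonneg _).trans (hB 0))
    · by_contra hc
      have h1 : V *ᵥ v ∈ BA ρ' (m + 2) := by
        by_contra h2
        apply hc
        simp only [hf1]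
        rw [hρ' _ h2, zero_mul]
      have h2 := sq2_le_BA ρ' _ h1
      rw [sq2_orth V hV] at h2
      apply hv
      have hn : (1 : ℝ) ≤ (1 + (m + 2 : ℕ)) := by
        have : (0 : ℝ) ≤ ((m + 2 : ℕ) : ℝ) := Nat.cast_nonneg _
        linarith
      have h3 : ∀ i, |v i| ≤ (1 + (m + 2 : ℕ)) * (1 + ρ' ^ 2) := by
        intro i
        apply abs_le_of_sq_le_sq _ (by positivity)
        refine ((sq_le_sq2 v i).trans h2).trans ?_
        have h4 : (0 : ℝ) ≤ ((m + 2 : ℕ) : ℝ) := Nat.cast_nonneg _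
        have h5 : 0 ≤ ρ' ^ 2 := sq_nonneg _
        have h6 : ((m + 2 : ℕ) : ℝ) * ρ' ^ 2 ≤ (1 + (m + 2 : ℕ)) * (1 + ρ' ^ 2) := by nlinarith
        refine h6.trans ?_
        apply le_self_pow₀ _ (by norm_num)
        nlinarith
      exact ⟨fun i => (abs_le.mp (h3 i)).1, fun i => (abs_le.mp (h3 i)).2⟩
  · rw [JJ_rot q f1 hf1m V hV]
    rw [ENNReal.coe_toNNReal]
    · exact hJ1
    · exact ENNReal.mul_ne_top (ENNReal.rpow_ne_top_of_nonneg (by linarith) hkt) ENNReal.coe_ne_top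
  · intro v hv
    have h1 := sq2_le_BA 1 v hv
    have h2 : sq2 (V *ᵥ v) ≤ R ^ 2 := by
      rw [sq2_orth V hV]
      refine h1.trans ?_
      rw [hR]
      push_cast
      have : (0 : ℝ) ≤ m := Nat.cast_nonneg m
      nlinarith
    simp only
    rw [hf1v _ h2]
    rfl

/-- the intersection of the cube with half spaces -/
def cubeP {N : ℕ} (A : Fin N → Fin n → ℝ) (b : Fin N → ℝ) : Set (Fin n → ℝ) :=
  BA 1 n ∩ {v | ∀ l, ∑ k, A l k * v k ≤ b l}

lemma cubeP_eq {N : ℕ} (A : Fin N → Fin n → ℝ) (b : Fin N → ℝ) : cubeP A b =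
    Pg (Finset.univ : Finset (Fin N ⊕ (Fin n ⊕ Fin n)))
      (Sum.elim A (Sum.elim (fun i => Pi.single i 1) (fun i => Pi.single i (-1))))
      (Sum.elim b (Sum.elim (fun _ => 1) (fun _ => 1))) := by
  ext v
  have h1 : ∀ i, ∑ k, (Pi.single i (1 : ℝ) : Fin n → ℝ) k * v k = v i := by
    intro i
    rw [Finset.sum_eq_single i]
    · simp
    · intro k _ hk
      simp [hk]
    · simp
  have h2 : ∀ i, ∑ k, (Pi.single i (-1 : ℝ) : Fin n → ℝ) k * v k = -v i := by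
    intro i
    rw [Finset.sum_eq_single i]
    · simp
    · intro k _ hk
      simp [hk]
    · simp
  simp only [cubeP, Pg, mem_inter_iff, mem_ofPred_eq, Finset.mem_univ, true_implies, hs,
    Sum.forall, Sum.elim_inl, Sum.elim_inr, h1, h2]
  constructor
  · rintro ⟨h3, h4⟩
    exact ⟨h4, fun i => h3.2 i, fun i => by have := h3.1 i; simp only at this; linarith⟩
  · rintro ⟨h3, h4, h5⟩
    exact ⟨⟨fun i => by have := h5 i; show -1 ≤ v i; linarith, fun i => h4 i⟩, h3⟩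

/-- **the estimate for one phase and one polyhedron** -/
theorem single (hm : 1 ≤ m) (D N : ℕ) (q : ℝ) (hq : 2 + 2 / (m + 2 : ℝ) < q) :
    ∃ C : ℝ≥0, ∀ (V : Matrix (Fin (m + 2)) (Fin (m + 2)) ℝ), Vᵀ * V = 1 →
      ∀ (p : Poly) (r : Fin m → Poly) (c : Fin m → ℝ), p.totalDegree ≤ D →
      (∀ j, (r j).totalDegree ≤ D) → ∀ (A : Fin N → Fin (m + 2) → ℝ) (b : Fin N → ℝ),
      JJ q ((cubeP A b).indicator (osc fun v => phs p r c (spl m (V *ᵥ v)))) ≤ C := by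
  have hq2 : 1 < q := by
    have : 0 < 2 / (m + 2 : ℝ) := by positivity
    linarith
  obtain ⟨C, hC⟩ := core hm D q hq
  obtain ⟨C', -, hC'⟩ := JJ_poly q hq2
  refine ⟨C' ^ (Finset.univ : Finset (Fin N ⊕ (Fin (m + 2) ⊕ Fin (m + 2)))).card * C, ?_⟩
  intro V hV p r c hp hr A b
  obtain ⟨f, hf, hJ, hfv⟩ := hC V hV p r c hp hr
  have h1 := hC' (m + 2) f hf _ (Finset.univ : Finset (Fin N ⊕ (Fin (m + 2) ⊕ Fin (m + 2))))
      (Sum.elim A (Sum.elim (fun i => Pi.single i 1) (fun i => Pi.single i (-1))))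
      (Sum.elim b (Sum.elim (fun _ => 1) (fun _ => 1)))
  rw [← cubeP_eq] at h1
  have h2 : (cubeP A b).indicator f =
      (cubeP A b).indicator (osc fun v => phs p r c (spl m (V *ᵥ v))) := by
    ext v
    by_cases h : v ∈ cubeP A b
    · rw [indicator_of_mem h, indicator_of_mem h]
      exact hfv v h.1
    · rw [indicator_of_notMem h, indicator_of_notMem h]
  rw [h2] at h1
  refine h1.trans ?_
  push_cast
  gcongr

end Pool.Agent.Helper35.MP
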