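import Pool.Graph.R_seed8.Y183.PP.H
set_option autoImplicit false

/-! Gaussian integration in the further variables. -/

namespace Pool.Agent.Helper35.MP

open MeasureTheory Set Filter Topology Complex
open scoped ENNReal NNReal
open Pool.Agent.Y183.PP

/-- `1 + τ²` -/
noncomputable def la (τ : ℝ) : ℝ := 1 + τ ^ 2

lemma la_one (τ : ℝ) : 1 ≤ la τ := by unfold la; nlinarith [sq_nonneg τ]

lemma la_pos (τ : ℝ) : 0 < la τ := lt_of_lt_of_le one_pos (la_one τ)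

/-- the factor in front of the Gaussian integral -/
noncomputable def kf (τ : ℝ) : ℂ := ((Real.pi : ℂ) / (1 - I * τ)) ^ (1 / 2 : ℂ)

lemma norm_one_sub (τ : ℝ) : ‖(1 : ℂ) - I * τ‖ = Real.sqrt (la τ) := by
  rw [Complex.norm_def, Complex.normSq_apply]
  congr 1
  simp [la]
  ring

lemma kf_norm (τ : ℝ) : ‖kf τ‖ = (Real.pi / Real.sqrt (la τ)) ^ (1 / 2 : ℝ) := by
  unfold kf
  have h := Complex.norm_cpow_real ((Real.pi : ℂ) / (1 - I * τ)) (1 / 2)
  have e : ((1 / 2 : ℝ) : ℂ) = (1 / 2 : ℂ) := by push_cast; rfl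
  rw [e] at h
  rw [h, norm_div, norm_one_sub, Complex.norm_real, Real.norm_eq_abs, abs_of_pos Real.pi_pos]

/-- the exponent after the Gaussian integration -/
lemma expo (y τ : ℝ) : (I * y) ^ 2 / (4 * (1 - I * τ)) =
    ((-(y ^ 2 / (4 * la τ)) : ℝ) : ℂ) + ((-(τ * y ^ 2 / (4 * la τ)) : ℝ) : ℂ) * I := by
  have h1 : (1 : ℂ) - I * τ ≠ 0 := by
    intro h
    have := congrArg Complex.re h
    simp at this
  have h2 : ((la τ : ℝ) : ℂ) ≠ 0 := by exact_mod_cast (la_pos τ).ne'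
  have h3 : ((la τ : ℝ) : ℂ) = (1 - I * τ) * (1 + I * τ) := by
    unfold la
    push_cast
    ring_nf
    rw [I_sq]
    ring
  have h4 : (1 : ℂ) + I * τ ≠ 0 := by
    intro h
    have := congrArg Complex.re h
    simp at this
  push_cast
  rw [h3]
  field_simp
  have h5 : (I : ℂ) ^ 3 = -I := by rw [pow_succ, I_sq]; ring
  ring_nf
  rw [I_sq, h5]
  ring

variable {m : ℕ}

/-- **the Gaussian integral** -/
lemma gauss (τ y : Fin m → ℝ) :
    ∫ v : Fin m → ℝ, cexp (((-∑ j, v j ^ 2 : ℝ) : ℂ) +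
      ((∑ j, (v j * y j + τ j * v j ^ 2) : ℝ) : ℂ) * I) =
    (∏ j, kf (τ j)) * cexp (((-∑ j, y j ^ 2 / (4 * la (τ j)) : ℝ) : ℂ) +
      ((-∑ j, τ j * y j ^ 2 / (4 * la (τ j)) : ℝ) : ℂ) * I) := by
  have h := GaussianFourier.integral_cexp_neg_sum_mul_add (b := fun j => 1 - I * (τ j : ℂ)) (fun j => by simp)
    (fun j => I * (y j : ℂ))
  have e1 : ∀ v : Fin m → ℝ, cexp (((-∑ j, v j ^ 2 : ℝ) : ℂ) +
      ((∑ j, (v j * y j + τ j * v j ^ 2) : ℝ) : ℂ) * I) =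
      cexp (-∑ j, (1 - I * (τ j : ℂ)) * (v j : ℂ) ^ 2 + ∑ j, I * (y j : ℂ) * (v j : ℂ)) := by
    intro v
    congr 1
    push_cast
    rw [Finset.sum_mul, ← Finset.sum_neg_distrib, ← Finset.sum_neg_distrib, ← Finset.sum_add_distrib,
      ← Finset.sum_add_distrib]
    apply Finset.sum_congr rfl
    intro j _
    ring
  simp only [e1]
  rw [h, Finset.prod_mul_distrib, ← Complex.exp_sum]
  congr 2
  have h2 : ∀ j, (I * (y j : ℂ)) ^ 2 / (4 * (1 - I * (τ j : ℂ))) =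
      ((-(y j ^ 2 / (4 * la (τ j))) : ℝ) : ℂ) + ((-(τ j * y j ^ 2 / (4 * la (τ j))) : ℝ) : ℂ) * I :=
    fun j => expo (y j) (τ j)
  simp only [h2]
  rw [Finset.sum_add_distrib, ← Finset.sum_mul, ← Complex.ofReal_sum, ← Complex.ofReal_sum,
    Finset.sum_neg_distrib, Finset.sum_neg_distrib]

end Pool.Agent.Helper35.MP
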