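import Pool.Agent.Helper35.MP.A
set_option autoImplicit false

/-! The variation of the Gaussian amplitude on lines. -/

namespace Pool.Agent.Helper35.MP

open MeasureTheory Set Filter Topology Complex
open scoped ENNReal NNReal
open Pool.Agent.Y183.PP

/-- variation of a monotone function with values in `[0,1]` -/
lemma var_mono (f : ℝ → ℝ) (u v : ℝ) (huv : u ≤ v) (h0 : ∀ x, 0 ≤ f x) (h1 : ∀ x, f x ≤ 1)
    (hm : MonotoneOn f (Icc u v) ∨ AntitoneOn f (Icc u v)) :
    eVariationOn (fun x => ((f x : ℝ) : ℂ)) (Icc u v) ≤ 1 := by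
  have hu : u ∈ Icc u v := left_mem_Icc.mpr huv
  have hv : v ∈ Icc u v := right_mem_Icc.mpr huv
  have key : ∀ g : ℝ → ℝ, MonotoneOn g (Icc u v) → g v - g u ≤ 1 →
      eVariationOn g (Icc u v) ≤ 1 := by
    intro g hg hgv
    have h := hg.eVariationOn_eq hu hv
    rw [inter_self] at h
    rw [h, ← ENNReal.ofReal_one]
    exact ENNReal.ofReal_le_ofReal hgv
  have hiso : ∀ g : ℝ → ℝ, (∀ x y, edist ((f x : ℝ) : ℂ) ((f y : ℝ) : ℂ) = edist (g x) (g y)) →
      eVariationOn (fun x => ((f x : ℝ) : ℂ)) (Icc u v) = eVariationOn g (Icc u v) := by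
    intro g hg
    unfold eVariationOn
    simp only [hg]
  rcases hm with hm | hm
  · rw [hiso f (fun x y => by rw [edist_dist, edist_dist, Complex.dist_eq, Real.dist_eq,
      ← Complex.ofReal_sub, Complex.norm_real, Real.norm_eq_abs])]
    exact key f hm (by linarith [h0 u, h1 v])
  · rw [hiso (fun x => -f x) (fun x y => by
      rw [edist_dist, edist_dist, Complex.dist_eq, Real.dist_eq,
        ← Complex.ofReal_sub, Complex.norm_real, Real.norm_eq_abs, ← abs_neg]
      congr 2
      ring)]
    exact key _ hm.neg (by linarith [h0 v, h1 u])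

/-- summing the variation over gaps -/
lemma gapsV (F : ℝ → ℂ) (K : ℝ≥0∞) : ∀ (n : ℕ) (Z : Finset ℝ), Z.card ≤ n → ∀ a b : ℝ,
    a ≤ b → (∀ u v : ℝ, a ≤ u → u ≤ v → v ≤ b → (∀ z ∈ Z, z ∉ Ioo u v) →
      eVariationOn F (Icc u v) ≤ K) →
    eVariationOn F (Icc a b) ≤ (n + 1) * K := by
  intro n
  induction n using Nat.strong_induction_on with
  | _ n ih =>
    intro Z hZ a b hab h
    by_cases hcase : ∀ z ∈ Z, z ∉ Ioo a b
    · refine (h a b le_rfl hab le_rfl hcase).trans ?_
      calc K = 1 * K := (one_mul K).symm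
        _ ≤ _ := by gcongr; exact le_add_self
    · push Not at hcase
      obtain ⟨z, hz, hzI⟩ := hcase
      set Z1 := Z.filter (· < z) with hZ1
      set Z2 := Z.filter (z < ·) with hZ2
      have hcard : Z1.card + Z2.card + 1 ≤ n := by
        have h1 : Disjoint Z1 Z2 := by
          rw [Finset.disjoint_left]
          intro w hw1 hw2
          have := (Finset.mem_filter.mp hw1).2
          have := (Finset.mem_filter.mp hw2).2
          linarith
        have h2 : Z1 ∪ Z2 ⊆ Z.erase z := by
          intro w hw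
          rcases Finset.mem_union.mp hw with h3 | h3
          · exact Finset.mem_erase.mpr ⟨(Finset.mem_filter.mp h3).2.ne, (Finset.mem_filter.mp h3).1⟩
          · exact Finset.mem_erase.mpr ⟨(Finset.mem_filter.mp h3).2.ne', (Finset.mem_filter.mp h3).1⟩
        have h3 := Finset.card_le_card h2
        rw [Finset.card_union_of_disjoint h1, Finset.card_erase_of_mem hz] at h3
        have h4 : 1 ≤ Z.card := Finset.card_pos.mpr ⟨z, hz⟩
        omega
      have i1 := ih Z1.card (by omega) Z1 le_rfl a z hzI.1.le (by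
        intro u v hu huv hv hZu
        apply h u v hu huv (hv.trans hzI.2.le)
        intro w hw hwI
        exact hZu w (Finset.mem_filter.mpr ⟨hw, lt_of_lt_of_le hwI.2 hv⟩) hwI)
      have i2 := ih Z2.card (by omega) Z2 le_rfl z b hzI.2.le (by
        intro u v hu huv hv hZu
        apply h u v (hzI.1.le.trans hu) huv hv
        intro w hw hwI
        exact hZu w (Finset.mem_filter.mpr ⟨hw, lt_of_le_of_lt hu hwI.1⟩) hwI)
      have h1 := eVariationOn.Icc_add_Icc F (s := univ) (a := a) (b := z) (c := b)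
        hzI.1.le hzI.2.le (mem_univ _)
      simp only [univ_inter] at h1
      rw [← h1]
      refine (add_le_add i1 i2).trans ?_
      rw [← add_mul]
      have h5 : ((Z1.card : ℝ≥0∞) + 1) + (Z2.card + 1) = ((Z1.card + Z2.card + 1 : ℕ) : ℝ≥0∞) + 1 := by
        push_cast
        ring
      rw [h5]
      have h6 : ((Z1.card + Z2.card + 1 : ℕ) : ℝ≥0∞) ≤ n := by exact_mod_cast hcard
      exact mul_le_mul' (add_le_add h6 le_rfl) le_rfl

/-- functions `e^{-ρ}`, `ρ` a polynomial -/
lemma var_exp (N : ℕ) (f : Polynomial ℝ) (hN : f.natDegree ≤ N) (hf : ∀ x, 0 ≤ f.eval x) (a b : ℝ)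
    (hab : a ≤ b) :
    eVariationOn (fun x => ((Real.exp (-f.eval x) : ℝ) : ℂ)) (Icc a b) ≤ N + 1 := by
  classical
  set F : ℝ → ℝ := fun x => Real.exp (-f.eval x) with hF
  have hF0 : ∀ x, 0 ≤ F x := fun x => (Real.exp_pos _).le
  have hF1 : ∀ x, F x ≤ 1 := fun x => Real.exp_le_one_iff.mpr (by linarith [hf x])
  have hder : ∀ x, HasDerivAt F (Real.exp (-f.eval x) * (-(f.derivative.eval x))) x := fun x =>
    ((f.hasDerivAt x).neg).exp
  have hFc : Continuous F := continuous_iff_continuousAt.mpr fun x => (hder x).continuousAt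
  have key := gapsV (fun x => ((F x : ℝ) : ℂ)) 1 N f.derivative.roots.toFinset
    ((Multiset.toFinset_card_le _).trans ((Polynomial.card_roots' _).trans
      ((Polynomial.natDegree_derivative_le f).trans ((Nat.sub_le _ _).trans hN)))) a b hab ?_
  · rw [mul_one] at key
    exact key
  intro u v _ huv _ hZ
  apply var_mono F u v huv hF0 hF1
  -- the sign of the derivative
  have hsign : (∀ x ∈ Ioo u v, 0 ≤ f.derivative.eval x) ∨ (∀ x ∈ Ioo u v, f.derivative.eval x ≤ 0) := by
    by_cases h0 : f.derivative = 0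
    · left
      intro x _
      rw [h0]; simp
    · have hne : ∀ x ∈ Ioo u v, f.derivative.eval x ≠ 0 := by
        intro x hx hx0
        exact hZ x (Multiset.mem_toFinset.mpr ((Polynomial.mem_roots h0).mpr hx0)) hx
      by_contra hcon
      push Not at hcon
      obtain ⟨⟨x1, hx1, h1⟩, ⟨x2, hx2, h2⟩⟩ := hcon
      have h3 : (0 : ℝ) ∈ (fun x => f.derivative.eval x) '' uIcc x1 x2 := by
        apply intermediate_value_uIcc f.derivative.continuous.continuousOn
        rw [mem_uIcc]
        left
        exact ⟨h1.le, h2.le⟩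
      obtain ⟨x, hx, hx0⟩ := h3
      refine hne x ?_ hx0
      rw [mem_uIcc] at hx
      rcases hx with hx | hx
      · exact ⟨lt_of_lt_of_le hx1.1 hx.1, lt_of_le_of_lt hx.2 hx2.2⟩
      · exact ⟨lt_of_lt_of_le hx2.1 hx.1, lt_of_le_of_lt hx.2 hx1.2⟩
  rcases hsign with hs | hs
  · right
    apply antitoneOn_of_deriv_nonpos (convex_Icc u v) hFc.continuousOn
      (fun x _ => (hder x).differentiableAt.differentiableWithinAt)
    intro x hx
    rw [interior_Icc] at hx
    rw [(hder x).deriv]
    have := hs x hx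
    have := Real.exp_pos (-f.eval x)
    nlinarith
  · left
    apply monotoneOn_of_deriv_nonneg (convex_Icc u v) hFc.continuousOn
      (fun x _ => (hder x).differentiableAt.differentiableWithinAt)
    intro x hx
    rw [interior_Icc] at hx
    rw [(hder x).deriv]
    have := hs x hx
    have := Real.exp_pos (-f.eval x)
    nlinarith

/-- restriction of a polynomial to a horizontal line, with a bound of the degree, and to a
vertical line -/
lemma lineV (p : Poly) (x : ℝ) : ∃ f : Polynomial ℝ, f.natDegree ≤ p.totalDegree ∧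
    ∀ y, f.eval y = ev p (x, y) := by
  obtain ⟨f, h1, h2⟩ := line (sw p) x
  refine ⟨f, h1.trans (deg_sw le_rfl), fun y => ?_⟩
  rw [h2, ev_sw]
  rfl

end Pool.Agent.Helper35.MP
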