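import Pool.Agent.Helper35.MP.B
set_option autoImplicit false

/-! The planar phase, the planar amplitude, the reduction to two variables. -/

namespace Pool.Agent.Helper35.MP

open MeasureTheory Set Filter Topology Complex
open scoped ENNReal NNReal
open Pool.Agent.Y183.PP

variable {m : ℕ}

/-- the coefficients of the squares of the further variables -/
noncomputable def ta (c : Fin m → ℝ) (t : ℝ) (j : Fin m) : ℝ := c j + 2 * Real.pi * t

/-- the planar phase -/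
noncomputable def Psi (p : Poly) (r : Fin m → Poly) (c x : Fin m → ℝ) (t : ℝ) : Poly :=
  p - ∑ j, MvPolynomial.C (ta c t j / (4 * la (ta c t j))) *
    (r j + MvPolynomial.C (2 * Real.pi * x j)) ^ 2

/-- the exponent of the amplitude -/
noncomputable def rho (r : Fin m → Poly) (c x : Fin m → ℝ) (t : ℝ) : Poly :=
  ∑ j, MvPolynomial.C (1 / (4 * la (ta c t j))) *
    (r j + MvPolynomial.C (2 * Real.pi * x j)) ^ 2

/-- the amplitude -/
noncomputable def am (r : Fin m → Poly) (c x : Fin m → ℝ) (t : ℝ) (z : ℝ × ℝ) : ℝ :=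
  Real.exp (-ev (rho r c x t) z)

lemma ev_sum {ι : Type*} (s : Finset ι) (p : ι → Poly) (z : ℝ × ℝ) :
    ev (∑ i ∈ s, p i) z = ∑ i ∈ s, ev (p i) z := by simp [ev]

lemma ev_Psi (p : Poly) (r : Fin m → Poly) (c x : Fin m → ℝ) (t : ℝ) (z : ℝ × ℝ) :
    ev (Psi p r c x t) z = ev p z -
      ∑ j, ta c t j * (ev (r j) z + 2 * Real.pi * x j) ^ 2 / (4 * la (ta c t j)) := by
  unfold Psi
  rw [ev_sub, ev_sum]
  congr 1
  apply Finset.sum_congr rfl
  intro j _
  rw [ev_mul, ev_C, ev_pow, ev_add, ev_C]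
  ring

lemma ev_rho (r : Fin m → Poly) (c x : Fin m → ℝ) (t : ℝ) (z : ℝ × ℝ) :
    ev (rho r c x t) z = ∑ j, (ev (r j) z + 2 * Real.pi * x j) ^ 2 / (4 * la (ta c t j)) := by
  unfold rho
  rw [ev_sum]
  apply Finset.sum_congr rfl
  intro j _
  rw [ev_mul, ev_C, ev_pow, ev_add, ev_C]
  ring

lemma rho_nonneg (r : Fin m → Poly) (c x : Fin m → ℝ) (t : ℝ) (z : ℝ × ℝ) :
    0 ≤ ev (rho r c x t) z := by
  rw [ev_rho]
  apply Finset.sum_nonneg
  intro j _
  have := la_pos (ta c t j)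
  positivity

lemma deg_sum {ι : Type*} (s : Finset ι) (p : ι → Poly) {n : ℕ}
    (h : ∀ i ∈ s, (p i).totalDegree ≤ n) : (∑ i ∈ s, p i).totalDegree ≤ n := by
  refine (MvPolynomial.totalDegree_finsetSum s p).trans ?_
  exact Finset.sup_le h

lemma deg_sqs {D : ℕ} {r : Poly} (hr : r.totalDegree ≤ D) (a b : ℝ) :
    (MvPolynomial.C a * (r + MvPolynomial.C b) ^ 2 : Poly).totalDegree ≤ 2 * D :=
  (deg_mul (deg_C a 0) (deg_sq (deg_add hr (deg_C b D)))).trans (by omega)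

lemma deg_Psi {D : ℕ} {p : Poly} {r : Fin m → Poly} (hp : p.totalDegree ≤ D)
    (hr : ∀ j, (r j).totalDegree ≤ D) (c x : Fin m → ℝ) (t : ℝ) :
    (Psi p r c x t).totalDegree ≤ 2 * D := by
  unfold Psi
  apply deg_sub (hp.trans (by omega))
  exact deg_sum _ _ fun j _ => deg_sqs (hr j) _ _

lemma deg_rho {D : ℕ} {r : Fin m → Poly} (hr : ∀ j, (r j).totalDegree ≤ D) (c x : Fin m → ℝ)
    (t : ℝ) : (rho r c x t).totalDegree ≤ 2 * D := by
  unfold rho
  exact deg_sum _ _ fun j _ => deg_sqs (hr j) _ _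

lemma am_pos (r : Fin m → Poly) (c x : Fin m → ℝ) (t : ℝ) (z : ℝ × ℝ) : 0 < am r c x t z :=
  Real.exp_pos _

lemma am_one (r : Fin m → Poly) (c x : Fin m → ℝ) (t : ℝ) (z : ℝ × ℝ) : am r c x t z ≤ 1 := by
  unfold am
  rw [Real.exp_le_one_iff]
  linarith [rho_nonneg r c x t z]

lemma am_cont (r : Fin m → Poly) (c x : Fin m → ℝ) (t : ℝ) : Continuous (am r c x t) :=
  Real.continuous_exp.comp (ev_cont _).neg

/-- the amplitude on horizontal lines -/
lemma am_var {D : ℕ} {r : Fin m → Poly} (hr : ∀ j, (r j).totalDegree ≤ D) (c x : Fin m → ℝ)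
    (t : ℝ) (y : ℝ) :
    eVariationOn (fun u => ((am r c x t (u, y) : ℝ) : ℂ)) (Icc (-1) 1) ≤
      ENNReal.ofReal (2 * D + 1) := by
  obtain ⟨f, h1, h2⟩ := line (rho r c x t) y
  have h3 := var_exp (2 * D) f (h1.trans (deg_rho hr c x t))
    (fun u => by rw [h2]; exact rho_nonneg r c x t _) (-1) 1 (by norm_num)
  simp only [h2] at h3
  refine h3.trans (le_of_eq ?_)
  rw [ENNReal.ofReal_add (by positivity) (by norm_num), ENNReal.ofReal_one]
  congr 1
  rw [← ENNReal.ofReal_natCast]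
  push_cast
  rfl

/-- the amplitude on vertical lines -/
lemma am_var' {D : ℕ} {r : Fin m → Poly} (hr : ∀ j, (r j).totalDegree ≤ D) (c x : Fin m → ℝ)
    (t : ℝ) (y : ℝ) :
    eVariationOn (fun u => ((am r c x t (y, u) : ℝ) : ℂ)) (Icc (-1) 1) ≤
      ENNReal.ofReal (2 * D + 1) := by
  obtain ⟨f, h1, h2⟩ := lineV (rho r c x t) y
  have h3 := var_exp (2 * D) f (h1.trans (deg_rho hr c x t))
    (fun u => by rw [h2]; exact rho_nonneg r c x t _) (-1) 1 (by norm_num)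
  simp only [h2] at h3
  refine h3.trans (le_of_eq ?_)
  rw [ENNReal.ofReal_add (by positivity) (by norm_num), ENNReal.ofReal_one]
  congr 1
  rw [← ENNReal.ofReal_natCast]
  push_cast
  rfl

/-- second derivatives of the planar phase -/
lemma pd_Psi (i k : Fin 2) (p : Poly) (r : Fin m → Poly) (c x : Fin m → ℝ) (t : ℝ) (z : ℝ × ℝ) :
    ev (MvPolynomial.pderiv i (MvPolynomial.pderiv k (Psi p r c x t))) z =
      ev (MvPolynomial.pderiv i (MvPolynomial.pderiv k p)) z -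
      ∑ j, ta c t j / (2 * la (ta c t j)) *
        (ev (MvPolynomial.pderiv i (r j)) z * ev (MvPolynomial.pderiv k (r j)) z +
          (ev (r j) z + 2 * Real.pi * x j) *
            ev (MvPolynomial.pderiv i (MvPolynomial.pderiv k (r j))) z) := by
  unfold Psi
  rw [map_sub, map_sub, map_sum, map_sum, ev_sub, ev_sum]
  congr 1
  apply Finset.sum_congr rfl
  intro j _
  have h1 : MvPolynomial.pderiv k (MvPolynomial.C (ta c t j / (4 * la (ta c t j))) *
      (r j + MvPolynomial.C (2 * Real.pi * x j)) ^ 2) =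
      MvPolynomial.C (ta c t j / (4 * la (ta c t j))) * (MvPolynomial.C 2 *
        (r j + MvPolynomial.C (2 * Real.pi * x j)) * MvPolynomial.pderiv k (r j)) := by
    rw [MvPolynomial.pderiv_C_mul, sq, MvPolynomial.pderiv_mul, map_add, MvPolynomial.pderiv_C,
      show (MvPolynomial.C 2 : Poly) = 2 by rfl]
    ring
  rw [h1, MvPolynomial.pderiv_C_mul, MvPolynomial.pderiv_mul, MvPolynomial.pderiv_C_mul, map_add,
    MvPolynomial.pderiv_C]
  simp only [ev_mul, ev_add, ev_C, add_zero]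
  have := (la_pos (ta c t j)).ne'
  field_simp
  ring

/-- the full integral -/
noncomputable def FB (p : Poly) (r : Fin m → Poly) (c : Fin m → ℝ) (α : ℝ) (y : ℝ × ℝ)
    (x : Fin m → ℝ) (t : ℝ) : ℂ :=
  ∫ z in SQ, ∫ v : Fin m → ℝ, cexp (((-∑ j, v j ^ 2 : ℝ) : ℂ) +
    ((ev p z + ∑ j, v j * ev (r j) z + ∑ j, c j * v j ^ 2 +
      2 * Real.pi * (z.1 * y.1 + z.2 * y.2 + α * (z.1 ^ 2 + z.2 ^ 2) * t +
        ∑ j, v j * x j + (∑ j, v j ^ 2) * t) : ℝ) : ℂ) * I)

/-- **reduction to two variables** -/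
lemma FB_eq (p : Poly) (r : Fin m → Poly) (c : Fin m → ℝ) (α : ℝ) (y : ℝ × ℝ)
    (x : Fin m → ℝ) (t : ℝ) : FB p r c α y x t = (∏ j, kf (ta c t j)) *
      ∫ z in SQ, ((am r c x t z : ℝ) : ℂ) * ex (Ph (Psi p r c x t) y (α * t)) z := by
  unfold FB
  rw [← integral_const_mul]
  congr 1
  ext z
  have h1 : ∀ v : Fin m → ℝ, cexp (((-∑ j, v j ^ 2 : ℝ) : ℂ) +
    ((ev p z + ∑ j, v j * ev (r j) z + ∑ j, c j * v j ^ 2 +
      2 * Real.pi * (z.1 * y.1 + z.2 * y.2 + α * (z.1 ^ 2 + z.2 ^ 2) * t +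
        ∑ j, v j * x j + (∑ j, v j ^ 2) * t) : ℝ) : ℂ) * I) =
      cexp (((ev p z + 2 * Real.pi * (z.1 * y.1 + z.2 * y.2 + (z.1 ^ 2 + z.2 ^ 2) * (α * t)) : ℝ) :
        ℂ) * I) * cexp (((-∑ j, v j ^ 2 : ℝ) : ℂ) +
      ((∑ j, (v j * (ev (r j) z + 2 * Real.pi * x j) + ta c t j * v j ^ 2) : ℝ) : ℂ) * I) := by
    intro v
    rw [← Complex.exp_add]
    congr 1
    have e : (ev p z + ∑ j, v j * ev (r j) z + ∑ j, c j * v j ^ 2 +
      2 * Real.pi * (z.1 * y.1 + z.2 * y.2 + α * (z.1 ^ 2 + z.2 ^ 2) * t +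
        ∑ j, v j * x j + (∑ j, v j ^ 2) * t) : ℝ) =
        (ev p z + 2 * Real.pi * (z.1 * y.1 + z.2 * y.2 + (z.1 ^ 2 + z.2 ^ 2) * (α * t))) +
        ∑ j, (v j * (ev (r j) z + 2 * Real.pi * x j) + ta c t j * v j ^ 2) := by
      have e1 : ∑ j, (v j * (ev (r j) z + 2 * Real.pi * x j) + ta c t j * v j ^ 2) =
          ∑ j, v j * ev (r j) z + ∑ j, c j * v j ^ 2 + (2 * Real.pi * (∑ j, v j * x j) +
            2 * Real.pi * ((∑ j, v j ^ 2) * t)) := by
        rw [Finset.sum_mul, Finset.mul_sum, Finset.mul_sum, ← Finset.sum_add_distrib,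
          ← Finset.sum_add_distrib, ← Finset.sum_add_distrib]
        apply Finset.sum_congr rfl
        intro j _
        unfold ta
        ring
      rw [e1]
      ring
    rw [e]
    push_cast
    ring
  simp only [h1]
  rw [integral_const_mul, gauss]
  unfold ex am
  rw [ev_Ph, ev_Psi, ev_rho, Complex.ofReal_exp, ← Complex.exp_add, mul_left_comm,
    ← Complex.exp_add]
  congr 2
  push_cast
  ring

end Pool.Agent.Helper35.MP
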