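import Pool.Agent.Helper35.MP.C
set_option autoImplicit false

/-! The decomposition for fixed time, with the amplitude kept in the `L²` norm. -/

namespace Pool.Agent.Helper35.MP

open MeasureTheory Set Filter Topology Complex
open scoped ENNReal NNReal
open Pool.Agent.Y183.PP

section fixed

variable (φ : Poly) (g : ℝ × ℝ → ℂ) (hg : Measurable g) (V : ℝ) (hV : 0 ≤ V)
  (hgB : ∀ z, ‖g z‖ ≤ V)
include hg hV hgB

/-- the `L²` norm of a part -/
lemma part_sqA (A : Set (ℝ × ℝ)) (hA : MeasurableSet A) (t : ℝ) :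
    ∫⁻ y, ‖Fp φ g A y t‖ₑ ^ 2 ≤ ∫⁻ z in SQ ∩ A, ‖g z‖ₑ ^ 2 := by
  set H : ℝ × ℝ → ℂ := (SQ ∩ A).indicator (fun z => g z * ex (Ph φ 0 t) z) with hH
  have hm : Measurable H := (hg.mul (ex_cont _).measurable).indicator (SQ_meas.inter hA)
  have hHb : ∀ z, ‖H z‖ ≤ V := by
    intro z
    by_cases h : z ∈ SQ ∩ A
    · simp only [hH]
      rw [indicator_of_mem h, norm_mul, ex_norm, mul_one]
      exact hgB _
    · simp only [hH]
      rw [indicator_of_notMem h, norm_zero]
      exact hV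
  have hfin : IsFiniteMeasure ((volume : Measure (ℝ × ℝ)).restrict SQ) := ⟨by
    rw [Measure.restrict_apply_univ, SQ_vol]
    norm_num⟩
  have hsupp : ∀ z, z ∉ SQ → H z = 0 := fun z hz => indicator_of_notMem (fun h => hz h.1) _
  have hHi : SQ.indicator H = H := by
    ext z
    by_cases h : z ∈ SQ
    · rw [indicator_of_mem h]
    · rw [indicator_of_notMem h, hsupp z h]
  have hp : ∀ p : ℝ≥0∞, MemLp H p volume := by
    intro p
    rw [← hHi, memLp_indicator_iff_restrict SQ_meas]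
    exact MemLp.of_bound hm.aestronglyMeasurable V (ae_of_all _ hHb)
  have hpl := planc H (memLp_one_iff_integrable.mp (hp 1)) (hp 2)
  have e1 : ∀ y, Fp φ g A y t = ∫ z, H z * ch y z := by
    intro y
    unfold Fp
    rw [← integral_indicator SQ_meas]
    congr 1
    ext z
    by_cases h : z ∈ SQ
    · rw [indicator_of_mem h]
      by_cases h2 : z ∈ A
      · simp only [hH]
        rw [indicator_of_mem h2, indicator_of_mem (show z ∈ SQ ∩ A from ⟨h, h2⟩), ex_Ph]
        ring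
      · simp only [hH]
        rw [indicator_of_notMem h2, indicator_of_notMem (fun h3 => h2 h3.2), zero_mul]
    · rw [indicator_of_notMem h, hsupp z h, zero_mul]
  simp only [e1]
  rw [hpl, ← lintegral_indicator (SQ_meas.inter hA)]
  apply lintegral_mono
  intro z
  show ‖H z‖ₑ ^ 2 ≤ _
  by_cases h : z ∈ SQ ∩ A
  · rw [indicator_of_mem h]
    simp only [hH]
    rw [indicator_of_mem h, enorm_mul]
    have : ‖ex (Ph φ 0 t) z‖ₑ = 1 := by
      rw [← ofReal_norm, ex_norm, ENNReal.ofReal_one]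
    rw [this, mul_one]
  · rw [indicator_of_notMem h]
    simp only [hH]
    rw [indicator_of_notMem h]
    simp

/-- the `L^q` norm of a part -/
lemma part_qA (A : Set (ℝ × ℝ)) (hA : MeasurableSet A) (t : ℝ) (q : ℝ) (hq : 2 ≤ q) (S : ℝ≥0∞)
    (hS : S ≠ ∞) (hsup : ∀ y, ‖Fp φ g A y t‖ₑ ≤ S) :
    ∫⁻ y, ‖Fp φ g A y t‖ₑ ^ q ≤ S ^ (q - 2) * ∫⁻ z in SQ ∩ A, ‖g z‖ₑ ^ 2 := by
  have hq0 : 0 ≤ q - 2 := by linarith
  have h1 : ∀ y, ‖Fp φ g A y t‖ₑ ^ q ≤ S ^ (q - 2) * ‖Fp φ g A y t‖ₑ ^ 2 := by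
    intro y
    have e : ‖Fp φ g A y t‖ₑ ^ q = ‖Fp φ g A y t‖ₑ ^ (q - 2) * ‖Fp φ g A y t‖ₑ ^ 2 := by
      rw [← ENNReal.rpow_natCast, ← ENNReal.rpow_add_of_nonneg _ _ hq0 (by positivity)]
      congr 1
      push_cast
      ring
    rw [e]
    gcongr
    exact hsup y
  refine (lintegral_mono h1).trans ?_
  rw [lintegral_const_mul' _ _ (ENNReal.rpow_ne_top_of_nonneg hq0 hS)]
  exact mul_le_mul_right (part_sqA φ g hg V hV hgB A hA t) _

end fixed

/-- **the estimate for fixed time** -/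
lemma fixedA {D : ℕ} {φ : Poly} (hφ : φ.totalDegree ≤ D) (g : ℝ × ℝ → ℂ) (hg : Measurable g)
    (V : ℝ) (hV : 0 ≤ V) (hgB : ∀ z, ‖g z‖ ≤ V)
    (hvar : ∀ y, eVariationOn (fun x => g (x, y)) (Icc (-1) 1) ≤ ENNReal.ofReal V)
    (hvar' : ∀ x, eVariationOn (fun y => g (x, y)) (Icc (-1) 1) ≤ ENNReal.ofReal V)
    (q : ℝ) (hq : 2 ≤ q) (a : ℕ → ℝ≥0∞) (ha0 : ∀ k, a k ≠ 0) (ha : ∀ k, a k ≠ ∞)
    (t : ℝ) :
    ∫⁻ y, ‖∫ z in SQ, g z * ex (Ph φ y t) z‖ₑ ^ q ≤
      (∑' k, a k) ^ (q - 1) * ∑' k, a k ^ (1 - q) * (ENNReal.ofReal (SS D V k) ^ (q - 2) *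
          ∫⁻ z in SQ ∩ AA φ t k, ‖g z‖ₑ ^ 2) := by
  obtain ⟨J, hJ⟩ := BB_empty φ t
  set F := Finset.range (J + 1) with hF
  -- decomposition
  have hdec : ∀ y, ∫ z in SQ, g z * ex (Ph φ y t) z = ∑ k ∈ F, Fp φ g (AA φ t k) y t := by
    intro y
    unfold Fp
    rw [← integral_finsetSum _ (fun k _ => part_int φ g hg V hV hgB _ (AA_meas φ t k) y t)]
    apply setIntegral_congr_fun SQ_meas
    intro z hz
    simp only
    rw [← AA_sum φ t (fun z => g z * ex (Ph φ y t) z) J z, indicator_of_mem (hJ z hz)]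
  have hsup : ∀ k y, ‖Fp φ g (AA φ t k) y t‖ₑ ≤ ENNReal.ofReal (SS D V k) := by
    intro k y
    cases k with
    | zero =>
      have hb : ∀ z, ‖(AA φ t 0).indicator (fun z => g z * ex (Ph φ y t) z) z‖ ≤ V := by
        intro z
        by_cases h : z ∈ AA φ t 0
        · rw [indicator_of_mem h, norm_mul, ex_norm, mul_one]
          exact hgB _
        · rw [indicator_of_notMem h, norm_zero]
          exact hV
      have hfin : IsFiniteMeasure ((volume : Measure (ℝ × ℝ)).restrict SQ) := ⟨by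
        rw [Measure.restrict_apply_univ, SQ_vol]
        norm_num⟩
      have h1 : ‖Fp φ g (AA φ t 0) y t‖ ≤ V * (volume.restrict SQ).real univ :=
        norm_integral_le_of_norm_le_const (ae_of_all _ hb)
      rw [← ofReal_norm]
      apply ENNReal.ofReal_le_ofReal
      refine h1.trans (le_of_eq ?_)
      rw [Measure.real, Measure.restrict_apply_univ, SQ_vol]
      simp [SS]
      ring
    | succ j =>
      have h1 := supb (deg_Ph hφ y t) j (2 ^ (j + 1)) g hg V hV hgB hvar hvar'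
      rw [Reg_Ph] at h1
      exact h1
  have hpart : ∀ k, ∫⁻ y, ‖Fp φ g (AA φ t k) y t‖ₑ ^ q ≤
      ENNReal.ofReal (SS D V k) ^ (q - 2) * ∫⁻ z in SQ ∩ AA φ t k, ‖g z‖ₑ ^ 2 :=
    fun k => part_qA φ g hg V hV hgB _ (AA_meas φ t k) t q hq _ ENNReal.ofReal_ne_top (hsup k)
  have hsumF : ∑ k ∈ F, a k ≤ ∑' k, a k := ENNReal.sum_le_tsum F
  -- first convexity
  have hmeas : ∀ k, Measurable fun y => ‖Fp φ g (AA φ t k) y t‖ₑ ^ q := by
    intro k
    apply Measurable.pow_const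
    apply Measurable.enorm
    unfold Fp
    apply StronglyMeasurable.measurable
    apply StronglyMeasurable.integral_prod_right'
      (f := fun w : (ℝ × ℝ) × (ℝ × ℝ) => (AA φ t k).indicator (fun z => g z * ex (Ph φ w.1 t) z) w.2)
    apply Measurable.stronglyMeasurable
    have e : (fun w : (ℝ × ℝ) × (ℝ × ℝ) =>
        (AA φ t k).indicator (fun z => g z * ex (Ph φ w.1 t) z) w.2) =
        fun w => ((AA φ t k).indicator (fun z => g z * ex (Ph φ 0 t) z) w.2) * ch w.1 w.2 := by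
      ext w
      by_cases h : w.2 ∈ AA φ t k
      · rw [indicator_of_mem h, indicator_of_mem h, ex_Ph]
        ring
      · rw [indicator_of_notMem h, indicator_of_notMem h, zero_mul]
    rw [e]
    apply Measurable.mul
    · exact ((hg.mul (ex_cont _).measurable).indicator (AA_meas φ t k)).comp measurable_snd
    · unfold ch
      fun_prop
  calc ∫⁻ y, ‖∫ z in SQ, g z * ex (Ph φ y t) z‖ₑ ^ q ≤
        ∫⁻ y, (∑ k ∈ F, a k) ^ (q - 1) * ∑ k ∈ F, a k ^ (1 - q) * ‖Fp φ g (AA φ t k) y t‖ₑ ^ q := by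
          apply lintegral_mono
          intro y
          simp only
          rw [hdec]
          refine le_trans ?_ (wsum F a (fun k => ‖Fp φ g (AA φ t k) y t‖ₑ) q (by linarith) ha0 ha)
          gcongr
          exact enorm_sum_le _ _
      _ = (∑ k ∈ F, a k) ^ (q - 1) * ∑ k ∈ F, a k ^ (1 - q) *
          ∫⁻ y, ‖Fp φ g (AA φ t k) y t‖ₑ ^ q := by
          rw [lintegral_const_mul', lintegral_finsetSum]
          · congr 1
            apply Finset.sum_congr rfl
            intro k _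
            rw [lintegral_const_mul _ (hmeas k)]
          · intro k _
            exact (hmeas k).const_mul _
          · apply ENNReal.rpow_ne_top_of_nonneg (by linarith)
            exact (ENNReal.sum_lt_top.mpr fun k _ => (ha k).lt_top).ne
      _ ≤ (∑' k, a k) ^ (q - 1) * ∑ k ∈ F, a k ^ (1 - q) * (ENNReal.ofReal (SS D V k) ^ (q - 2) *
          ∫⁻ z in SQ ∩ AA φ t k, ‖g z‖ₑ ^ 2) := by
          exact mul_le_mul' (ENNReal.rpow_le_rpow hsumF (by linarith))
            (Finset.sum_le_sum fun k _ => mul_le_mul_right (hpart k) _)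
      _ ≤ _ := by
          gcongr
          exact ENNReal.sum_le_tsum F

end Pool.Agent.Helper35.MP
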