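import Pool.Agent.Helper35.MP.D
set_option autoImplicit false

/-! Eigenvalues of a family of forms increasing in time. -/

namespace Pool.Agent.Helper35.MP

open MeasureTheory Set Filter Topology Complex
open scoped ENNReal NNReal
open Pool.Agent.Y183.PP

/-- triangle inequality -/
lemma tri (x y u v s : ℝ) (hs : 0 ≤ s) (h : u ^ 2 + v ^ 2 ≤ s ^ 2) :
    Real.sqrt ((x + u) ^ 2 + (y + v) ^ 2) ≤ Real.sqrt (x ^ 2 + y ^ 2) + s := by
  set R := Real.sqrt (x ^ 2 + y ^ 2) with hR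
  have hR0 : 0 ≤ R := Real.sqrt_nonneg _
  have hR2 : R ^ 2 = x ^ 2 + y ^ 2 := Real.sq_sqrt (by positivity)
  apply Real.sqrt_le_iff.mpr
  refine ⟨by positivity, ?_⟩
  have h1 : x * u + y * v ≤ R * s := by
    apply abs_le_of_sq_le_sq' _ (by positivity) |>.2
    have : (x * u + y * v) ^ 2 + (x * v - y * u) ^ 2 = R ^ 2 * (u ^ 2 + v ^ 2) := by
      rw [hR2]; ring
    nlinarith [sq_nonneg (x * v - y * u), sq_nonneg R]
  nlinarith

/-- the eigenvalues -/
noncomputable def mu (e a b c : ℝ) : ℝ := (a + c) / 2 + e * Real.sqrt (((a - c) / 2) ^ 2 + b ^ 2)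

/-- the eigenvalues grow with the form -/
lemma mu_mono (e a b c a' b' c' κ : ℝ) (he : e = 1 ∨ e = -1) (h1 : 0 ≤ a' - a - κ)
    (h2 : 0 ≤ c' - c - κ) (h3 : (b' - b) ^ 2 ≤ (a' - a - κ) * (c' - c - κ)) :
    mu e a b c + κ ≤ mu e a' b' c' := by
  set δ := a' - a - κ with hδ
  set ε := c' - c - κ with hε
  have hs : ((δ - ε) / 2) ^ 2 + (b' - b) ^ 2 ≤ ((δ + ε) / 2) ^ 2 := by nlinarith
  have hs' : (-((δ - ε) / 2)) ^ 2 + (-(b' - b)) ^ 2 ≤ ((δ + ε) / 2) ^ 2 := by nlinarith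
  have t1 := tri ((a - c) / 2) b ((δ - ε) / 2) (b' - b) ((δ + ε) / 2) (by linarith) hs
  have t2 := tri ((a' - c') / 2) b' (-((δ - ε) / 2)) (-(b' - b)) ((δ + ε) / 2) (by linarith) hs'
  have e1 : (a - c) / 2 + (δ - ε) / 2 = (a' - c') / 2 := by rw [hδ, hε]; ring
  have e2 : b + (b' - b) = b' := by ring
  have e3 : (a' - c') / 2 + -((δ - ε) / 2) = (a - c) / 2 := by rw [hδ, hε]; ring
  have e4 : b' + -(b' - b) = b := by ring
  rw [e1, e2] at t1
  rw [e3, e4] at t2
  unfold mu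
  rcases he with he | he
  · rw [he]
    linarith
  · rw [he]
    linarith

/-- regular points -/
def Rg (s a b c : ℝ) : Prop :=
  0 < a ^ 2 + 2 * b ^ 2 + c ^ 2 - 2 * s ^ 2 ∧
    0 < (a ^ 2 + b ^ 2 - s ^ 2) * (b ^ 2 + c ^ 2 - s ^ 2) - b ^ 2 * (a + c) ^ 2

lemma Rg_of (s a b c : ℝ) (hs : 0 < s) (h1 : s < |mu 1 a b c|) (h2 : s < |mu (-1) a b c|) :
    Rg s a b c := by
  have h := eig a b c 0 s hs (by
    rw [add_zero]
    unfold mu at h1
    rwa [one_mul] at h1) (by
    rw [add_zero]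
    unfold mu at h2
    rwa [neg_one_mul, ← sub_eq_add_neg] at h2)
  unfold Rg
  simpa using h

/-- increasing functions -/
lemma vol_inc (S : Set ℝ) (f : ℝ → ℝ) (κ s : ℝ) (hκ : 0 < κ)
    (hf : ∀ t₁ ∈ S, ∀ t₂ ∈ S, t₁ ≤ t₂ → f t₁ + κ * (t₂ - t₁) ≤ f t₂) :
    volume (S ∩ {t | |f t| ≤ s}) ≤ ENNReal.ofReal (2 * s / κ) := by
  refine (Real.volume_le_diam _).trans ?_
  apply Metric.ediam_le
  have key : ∀ x ∈ S ∩ {t | |f t| ≤ s}, ∀ y ∈ S ∩ {t | |f t| ≤ s}, x ≤ y → y - x ≤ 2 * s / κ := by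
    intro x hx y hy hxy
    have h1 := hf x hx.1 y hy.1 hxy
    have h2 := abs_le.mp (show |f x| ≤ s from hx.2)
    have h3 := abs_le.mp (show |f y| ≤ s from hy.2)
    rw [le_div_iff₀ hκ]
    linarith
  intro x hx y hy
  rw [edist_dist, Real.dist_eq]
  apply ENNReal.ofReal_le_ofReal
  rcases le_total x y with h | h
  · rw [abs_sub_comm, abs_of_nonneg (by linarith)]
    exact key x hx y hy h
  · rw [abs_of_nonneg (by linarith)]
    exact key y hy x hx h

variable {m : ℕ}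

/-- the weight of the squares of the gradients -/
noncomputable def om (c : Fin m → ℝ) (t : ℝ) (j : Fin m) : ℝ := ta c t j / (2 * la (ta c t j))

/-- the good times -/
def good (c : Fin m → ℝ) (t : ℝ) : Prop := ∀ j, 1 ≤ |ta c t j|

/-- `x / (1 + x²)` decreases on both sides -/
lemma om_dec (x y : ℝ) (hxy : x ≤ y) (h : (1 ≤ x ∧ 1 ≤ y) ∨ (x ≤ -1 ∧ y ≤ -1)) :
    y / (2 * la y) ≤ x / (2 * la x) := by
  have hx := la_pos x
  have hy := la_pos y
  rw [div_le_div_iff₀ (by positivity) (by positivity)]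
  have hp : 1 ≤ x * y := by
    rcases h with ⟨h1, h2⟩ | ⟨h1, h2⟩
    · nlinarith
    · nlinarith
  have e : y * (2 * la x) - x * (2 * la y) = 2 * (y - x) * (1 - x * y) := by
    unfold la
    ring
  have : 2 * (y - x) * (1 - x * y) ≤ 0 := by
    apply mul_nonpos_of_nonneg_of_nonpos <;> linarith
  linarith

/-- the entries of the Hessian for fixed `z`, `v` -/
noncomputable def En (A : ℝ) (κ : ℝ) (a b : Fin m → ℝ) (c : Fin m → ℝ) (t : ℝ) : ℝ :=
  A + κ * t - ∑ j, om c t j * (a j * b j)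

/-- **measure of the degenerate times** -/
lemma vol_times (c : Fin m → ℝ) (A B C κ s : ℝ) (a b : Fin m → ℝ) (hκ : 0 < κ) (hs : 0 < s) :
    volume {t : ℝ | good c t ∧ ¬ Rg s (En A κ a a c t) (En B 0 a b c t) (En C κ b b c t)} ≤
      ENNReal.ofReal (2 ^ m * (4 * s / κ)) := by
  set P : (Fin m → Bool) → Set ℝ := fun σ => {t | ∀ j, 1 ≤ |ta c t j| ∧ (σ j = true ↔ 0 < ta c t j)}
    with hP
  set f : ℝ → ℝ → ℝ := fun e t => mu e (En A κ a a c t) (En B 0 a b c t) (En C κ b b c t) with hf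
  have hinc : ∀ e : ℝ, (e = 1 ∨ e = -1) → ∀ σ, ∀ t₁ ∈ P σ, ∀ t₂ ∈ P σ, t₁ ≤ t₂ →
      f e t₁ + κ * (t₂ - t₁) ≤ f e t₂ := by
    intro e he σ t₁ h1 t₂ h2 h12
    have hd : ∀ j, 0 ≤ om c t₁ j - om c t₂ j := by
      intro j
      have hle : ta c t₁ j ≤ ta c t₂ j := by
        unfold ta
        have := Real.pi_pos
        nlinarith
      have h3 := h1 j
      have h4 := h2 j
      have h5 : (1 ≤ ta c t₁ j ∧ 1 ≤ ta c t₂ j) ∨ (ta c t₁ j ≤ -1 ∧ ta c t₂ j ≤ -1) := by
        by_cases hσ : σ j = true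
        · left
          have h6 := h3.2.mp hσ
          have h7 := h4.2.mp hσ
          have h8 := h3.1
          have h9 := h4.1
          rw [abs_of_pos h6] at h8
          rw [abs_of_pos h7] at h9
          exact ⟨h8, h9⟩
        · right
          have h6 : ta c t₁ j ≤ 0 := not_lt.mp fun h => hσ (h3.2.mpr h)
          have h7 : ta c t₂ j ≤ 0 := not_lt.mp fun h => hσ (h4.2.mpr h)
          have h8 := h3.1
          have h9 := h4.1
          rw [abs_of_nonpos h6] at h8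
          rw [abs_of_nonpos h7] at h9
          exact ⟨by linarith, by linarith⟩
      have := om_dec _ _ hle h5
      unfold om
      linarith
    have e1 : En A κ a a c t₂ - En A κ a a c t₁ - κ * (t₂ - t₁) =
        ∑ j, (om c t₁ j - om c t₂ j) * (a j * a j) := by
      unfold En
      have : ∑ j, (om c t₁ j - om c t₂ j) * (a j * a j) =
          ∑ j, om c t₁ j * (a j * a j) - ∑ j, om c t₂ j * (a j * a j) := by
        rw [← Finset.sum_sub_distrib]
        apply Finset.sum_congr rfl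
        intro j _
        ring
      rw [this]
      ring
    have e2 : En C κ b b c t₂ - En C κ b b c t₁ - κ * (t₂ - t₁) =
        ∑ j, (om c t₁ j - om c t₂ j) * (b j * b j) := by
      unfold En
      have : ∑ j, (om c t₁ j - om c t₂ j) * (b j * b j) =
          ∑ j, om c t₁ j * (b j * b j) - ∑ j, om c t₂ j * (b j * b j) := by
        rw [← Finset.sum_sub_distrib]
        apply Finset.sum_congr rfl
        intro j _
        ring
      rw [this]
      ring
    have e3 : En B 0 a b c t₂ - En B 0 a b c t₁ =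
        ∑ j, (om c t₁ j - om c t₂ j) * (a j * b j) := by
      unfold En
      have : ∑ j, (om c t₁ j - om c t₂ j) * (a j * b j) =
          ∑ j, om c t₁ j * (a j * b j) - ∑ j, om c t₂ j * (a j * b j) := by
        rw [← Finset.sum_sub_distrib]
        apply Finset.sum_congr rfl
        intro j _
        ring
      rw [this]
      ring
    apply mu_mono _ _ _ _ _ _ _ _ he
    · rw [e1]
      exact Finset.sum_nonneg fun j _ => mul_nonneg (hd j) (mul_self_nonneg _)
    · rw [e2]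
      exact Finset.sum_nonneg fun j _ => mul_nonneg (hd j) (mul_self_nonneg _)
    · rw [e1, e2, e3]
      apply Finset.sum_sq_le_sum_mul_sum_of_sq_le_mul
      · exact fun j _ => mul_nonneg (hd j) (mul_self_nonneg _)
      · exact fun j _ => mul_nonneg (hd j) (mul_self_nonneg _)
      · intro j _
        apply le_of_eq
        ring
  have hsub : {t : ℝ | good c t ∧ ¬ Rg s (En A κ a a c t) (En B 0 a b c t) (En C κ b b c t)} ⊆
      ⋃ σ : Fin m → Bool, ((P σ ∩ {t | |f 1 t| ≤ s}) ∪ (P σ ∩ {t | |f (-1) t| ≤ s})) := by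
    rintro t ⟨h1, h2⟩
    rw [mem_iUnion]
    classical
    refine ⟨fun j => decide (0 < ta c t j), ?_⟩
    have hm : t ∈ P fun j => decide (0 < ta c t j) := by
      intro j
      exact ⟨h1 j, by simp⟩
    by_cases h3 : |f 1 t| ≤ s
    · exact Or.inl ⟨hm, h3⟩
    · by_cases h4 : |f (-1) t| ≤ s
      · exact Or.inr ⟨hm, h4⟩
      · exact absurd (Rg_of s _ _ _ hs (not_le.mp h3) (not_le.mp h4)) h2
  refine (measure_mono hsub).trans ((measure_iUnion_le _).trans ?_)
  rw [tsum_fintype]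
  have hs4 : (0 : ℝ) ≤ 2 * s / κ := by positivity
  have h3 : ∀ σ : Fin m → Bool, volume ((P σ ∩ {t | |f 1 t| ≤ s}) ∪ (P σ ∩ {t | |f (-1) t| ≤ s})) ≤
      ENNReal.ofReal (4 * s / κ) := by
    intro σ
    refine (measure_union_le _ _).trans ?_
    refine (add_le_add (vol_inc _ _ κ s hκ (hinc 1 (Or.inl rfl) σ))
      (vol_inc _ _ κ s hκ (hinc (-1) (Or.inr rfl) σ))).trans ?_
    rw [← ENNReal.ofReal_add hs4 hs4]
    apply ENNReal.ofReal_le_ofReal
    apply le_of_eq
    ring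
  refine (Finset.sum_le_sum fun σ _ => h3 σ).trans ?_
  rw [Finset.sum_const, Finset.card_univ, Fintype.card_fun, Fintype.card_bool, Fintype.card_fin,
    nsmul_eq_mul, ENNReal.ofReal_mul (by positivity)]
  apply le_of_eq
  congr 1
  rw [ENNReal.ofReal_pow (by norm_num)]
  norm_num

end Pool.Agent.Helper35.MP
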