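import Pool.Agent.Helper35.MP.E
set_option autoImplicit false

/-! The change of variables and the integration over the further variables. -/

namespace Pool.Agent.Helper35.MP

open MeasureTheory Set Filter Topology Complex
open scoped ENNReal NNReal
open Pool.Agent.Y183.PP

variable {m : ℕ}

/-- change of variables -/
lemma subst (κ b : Fin m → ℝ) (hκ : ∀ j, κ j ≠ 0) (F : (Fin m → ℝ) → ℝ≥0∞) (hF : Measurable F) :
    ∫⁻ x, F x = ENNReal.ofReal (∏ j, |κ j|) * ∫⁻ v : Fin m → ℝ, F (fun j => κ j * v j + b j) := by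
  have h1 : ∫⁻ x, F x = ∫⁻ x, F (x + b) := (lintegral_add_right_eq_self F b).symm
  have hdet : Matrix.det (Matrix.diagonal κ) ≠ 0 := by
    rw [Matrix.det_diagonal]
    exact Finset.prod_ne_zero_iff.mpr fun j _ => hκ j
  have h2 := Real.smul_map_diagonal_volume_pi hdet
  have hL : Measurable (Matrix.toLin' (Matrix.diagonal κ)) :=
    (LinearMap.continuous_of_finiteDimensional _).measurable
  have hG : Measurable fun x : Fin m → ℝ => F (x + b) := hF.comp (by fun_prop)
  rw [h1]
  nth_rewrite 1 [← h2]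
  rw [lintegral_smul_measure, lintegral_map hG hL, Matrix.det_diagonal, Finset.abs_prod,
    smul_eq_mul]
  congr 1
  apply lintegral_congr
  intro v
  congr 1
  ext j
  simp [Matrix.toLin'_apply, Matrix.mulVec_diagonal]

/-- the Gaussian mass -/
noncomputable def WW (m : ℕ) : ℝ≥0∞ := ∫⁻ v : Fin m → ℝ, ENNReal.ofReal (Real.exp (-2 * ∑ j, v j ^ 2))

lemma WW_top (m : ℕ) : WW m ≠ ∞ := by
  unfold WW
  have h := GaussianFourier.integrable_cexp_neg_sum_mul_add (ι := Fin m) (b := fun _ => 2)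
    (fun _ => by simp) (fun _ => 0)
  have h1 := h.norm
  have e : ∀ v : Fin m → ℝ, ‖cexp (-∑ i, (2 : ℂ) * (v i : ℂ) ^ 2 + ∑ i, (0 : ℂ) * (v i : ℂ))‖ =
      Real.exp (-2 * ∑ j, v j ^ 2) := by
    intro v
    rw [Complex.norm_exp]
    congr 1
    simp only [zero_mul, Finset.sum_const_zero, add_zero]
    rw [← Finset.mul_sum]
    have : -(2 * ∑ i, (v i : ℂ) ^ 2) = ((-2 * ∑ i, v i ^ 2 : ℝ) : ℂ) := by push_cast; ring
    rw [this, Complex.ofReal_re]
  simp only [e] at h1
  exact (h1.lintegral_lt_top).ne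

lemma WW_pos (m : ℕ) : WW m ≠ 0 := by
  unfold WW
  intro h
  have hm : Measurable fun v : Fin m → ℝ => ENNReal.ofReal (Real.exp (-2 * ∑ j, v j ^ 2)) := by
    fun_prop
  rw [lintegral_eq_zero_iff hm] at h
  have h2 : (volume : Measure (Fin m → ℝ)) univ = 0 := by
    have h3 : ∀ᵐ v : Fin m → ℝ, False := by
      filter_upwards [h] with v hv
      simp only [Pi.zero_apply, ENNReal.ofReal_eq_zero] at hv
      exact absurd hv (not_le.mpr (Real.exp_pos _))
    exact ae_eq_bot.mp (by simpa using h3) ▸ (by simp)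
  exact (isOpen_univ.measure_pos volume univ_nonempty).ne' h2

section

variable (p : Poly) (r : Fin m → Poly) (c : Fin m → ℝ) (α : ℝ)

/-- the space of all variables: time, further variables, planar variables -/
abbrev Sp (m : ℕ) := ℝ × (Fin m → ℝ) × (ℝ × ℝ)

lemma om_cont (j : Fin m) : Continuous fun t => om c t j := by
  unfold om
  apply Continuous.div
  · unfold ta; fun_prop
  · unfold la ta; fun_prop
  · intro t
    have := la_pos (ta c t j)
    positivity

/-- second derivatives of the planar phase, as functions of all variables -/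
lemma hd_cont (i k : Fin 2) : Continuous fun w : Sp m =>
    ev (MvPolynomial.pderiv i (MvPolynomial.pderiv k (Psi p r c w.2.1 w.1))) w.2.2 := by
  have e : (fun w : Sp m => ev (MvPolynomial.pderiv i (MvPolynomial.pderiv k
      (Psi p r c w.2.1 w.1))) w.2.2) = fun w => ev (MvPolynomial.pderiv i (MvPolynomial.pderiv k p)) w.2.2 -
      ∑ j, om c w.1 j * (ev (MvPolynomial.pderiv i (r j)) w.2.2 *
        ev (MvPolynomial.pderiv k (r j)) w.2.2 +
          (ev (r j) w.2.2 + 2 * Real.pi * w.2.1 j) *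
            ev (MvPolynomial.pderiv i (MvPolynomial.pderiv k (r j))) w.2.2) := by
    ext w
    rw [pd_Psi]
    rfl
  rw [e]
  have h1 : ∀ P : Poly, Continuous fun w : Sp m => ev P w.2.2 := fun P =>
    (ev_cont P).comp (continuous_snd.comp continuous_snd)
  have h2 : ∀ j, Continuous fun w : Sp m => om c w.1 j := fun j =>
    (om_cont c j).comp continuous_fst
  have h3 : ∀ j, Continuous fun w : Sp m => w.2.1 j := fun j => by fun_prop
  apply Continuous.sub (h1 _)
  apply continuous_finsetSum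
  intro j _
  exact (h2 j).mul (((h1 _).mul (h1 _)).add (((h1 _).add (continuous_const.mul (h3 j))).mul (h1 _)))

lemma am_contA : Continuous fun w : Sp m => am r c w.2.1 w.1 w.2.2 := by
  unfold am
  simp only [ev_rho]
  have h1 : ∀ P : Poly, Continuous fun w : Sp m => ev P w.2.2 := fun P =>
    (ev_cont P).comp (continuous_snd.comp continuous_snd)
  have h3 : ∀ j, Continuous fun w : Sp m => w.2.1 j := fun j => by fun_prop
  have h4 : ∀ j, Continuous fun w : Sp m => la (ta c w.1 j) := fun j => by unfold la ta; fun_prop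
  apply Real.continuous_exp.comp
  apply Continuous.neg
  apply continuous_finsetSum
  intro j _
  apply Continuous.div
  · exact ((h1 _).add (continuous_const.mul (h3 j))).pow 2
  · exact continuous_const.mul (h4 j)
  · intro w
    have := la_pos (ta c w.1 j)
    positivity

/-- regularity in terms of the second derivatives -/
lemma mem_BB (s t : ℝ) (x : Fin m → ℝ) (z : ℝ × ℝ) : z ∈ BB (Psi p r c x t) s (α * t) ↔
    Rg s (ev (pxx (Psi p r c x t)) z + 4 * Real.pi * (α * t)) (ev (pxy (Psi p r c x t)) z)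
      (ev (pyy (Psi p r c x t)) z + 4 * Real.pi * (α * t)) := by
  simp only [BB, Rg, mem_ofPred_eq, ev_mt, ev_md, pxx_Ph, pyy_Ph, pxy_Ph]

/-- the degenerate set -/
def DD (s : ℝ) : Set (Sp m) := {w | w.2.2 ∉ BB (Psi p r c w.2.1 w.1) s (α * w.1)}

lemma DD_meas (s : ℝ) : MeasurableSet (DD p r c α s) := by
  have hxx := hd_cont p r c 0 0
  have hxy := hd_cont p r c 1 0
  have hyy := hd_cont p r c 1 1
  have hop : IsOpen {w : Sp m | w.2.2 ∈ BB (Psi p r c w.2.1 w.1) s (α * w.1)} := by
    have e : {w : Sp m | w.2.2 ∈ BB (Psi p r c w.2.1 w.1) s (α * w.1)} =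
      {w | 0 < (ev (pxx (Psi p r c w.2.1 w.1)) w.2.2 + 4 * Real.pi * (α * w.1)) ^ 2 +
        2 * (ev (pxy (Psi p r c w.2.1 w.1)) w.2.2) ^ 2 +
        (ev (pyy (Psi p r c w.2.1 w.1)) w.2.2 + 4 * Real.pi * (α * w.1)) ^ 2 - 2 * s ^ 2} ∩
      {w | 0 < ((ev (pxx (Psi p r c w.2.1 w.1)) w.2.2 + 4 * Real.pi * (α * w.1)) ^ 2 +
        (ev (pxy (Psi p r c w.2.1 w.1)) w.2.2) ^ 2 - s ^ 2) *
        ((ev (pxy (Psi p r c w.2.1 w.1)) w.2.2) ^ 2 +
        (ev (pyy (Psi p r c w.2.1 w.1)) w.2.2 + 4 * Real.pi * (α * w.1)) ^ 2 - s ^ 2) -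
        (ev (pxy (Psi p r c w.2.1 w.1)) w.2.2) ^ 2 *
        ((ev (pxx (Psi p r c w.2.1 w.1)) w.2.2 + 4 * Real.pi * (α * w.1)) +
        (ev (pyy (Psi p r c w.2.1 w.1)) w.2.2 + 4 * Real.pi * (α * w.1))) ^ 2} := by
      ext w
      simp only [mem_ofPred_eq, mem_inter_iff]
      rw [mem_BB]
      rfl
    rw [e]
    have hxx' : Continuous fun w : Sp m => ev (pxx (Psi p r c w.2.1 w.1)) w.2.2 := hxx
    have hxy' : Continuous fun w : Sp m => ev (pxy (Psi p r c w.2.1 w.1)) w.2.2 := hxy
    have hyy' : Continuous fun w : Sp m => ev (pyy (Psi p r c w.2.1 w.1)) w.2.2 := hyy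
    exact (isOpen_lt continuous_const (by fun_prop)).inter (isOpen_lt continuous_const (by fun_prop))
  have e : DD p r c α s = {w : Sp m | w.2.2 ∈ BB (Psi p r c w.2.1 w.1) s (α * w.1)}ᶜ := by
    ext w
    simp [DD]
  rw [e]
  exact hop.measurableSet.compl

/-- the weighted indicator -/
noncomputable def UU (s : ℝ) (w : Sp m) : ℝ≥0∞ :=
  (DD p r c α s).indicator (fun w => ENNReal.ofReal (am r c w.2.1 w.1 w.2.2 ^ 2)) w

lemma UU_meas (s : ℝ) : Measurable (UU p r c α s) := by
  unfold UU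
  apply Measurable.indicator _ (DD_meas p r c α s)
  exact ((am_contA r c).pow 2).measurable.ennreal_ofReal

/-- the total weight at time `t` -/
noncomputable def GG (s t : ℝ) : ℝ≥0∞ := ∫⁻ x : Fin m → ℝ, ∫⁻ z in SQ, UU p r c α s (t, x, z)

lemma GG_swap (s t : ℝ) : GG p r c α s t = ∫⁻ z in SQ, ∫⁻ x : Fin m → ℝ, UU p r c α s (t, x, z) := by
  unfold GG
  rw [lintegral_lintegral_swap]
  exact ((UU_meas p r c α s).comp (by fun_prop)).aemeasurable

lemma am_subst (t : ℝ) (z : ℝ × ℝ) (κ : Fin m → ℝ) (v : Fin m → ℝ)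
    (hκ : ∀ j, la (ta c t j) ≤ Real.pi ^ 2 * κ j ^ 2) :
    am r c (fun j => κ j * v j + -(ev (r j) z / (2 * Real.pi))) t z ^ 2 ≤
      Real.exp (-2 * ∑ j, v j ^ 2) := by
  unfold am
  rw [← Real.exp_nat_mul, Real.exp_le_exp, ev_rho]
  push_cast
  rw [mul_neg, neg_mul, neg_le_neg_iff, Finset.mul_sum, Finset.mul_sum]
  apply Finset.sum_le_sum
  intro j _
  have hp := Real.pi_pos
  have e : ev (r j) z + 2 * Real.pi * (κ j * v j + -(ev (r j) z / (2 * Real.pi))) =
      2 * Real.pi * (κ j * v j) := by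
    field_simp
    ring
  rw [e]
  have hl := la_pos (ta c t j)
  have h := hκ j
  have e2 : 2 * ((2 * Real.pi * (κ j * v j)) ^ 2 / (4 * la (ta c t j))) =
      2 * (v j ^ 2 * ((Real.pi ^ 2 * κ j ^ 2) / la (ta c t j))) := by
    field_simp
    ring
  rw [e2]
  have h3 : 1 ≤ (Real.pi ^ 2 * κ j ^ 2) / la (ta c t j) := by
    rw [le_div_iff₀ hl, one_mul]
    exact h
  nlinarith [mul_le_mul_of_nonneg_left h3 (sq_nonneg (v j))]

/-- the product of the square roots -/
noncomputable def Rt (c : Fin m → ℝ) (t : ℝ) : ℝ := ∏ j, Real.sqrt (la (ta c t j))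

lemma SQ_const (a : ℝ≥0∞) : ∫⁻ _z in SQ, a = a * 4 := by
  rw [lintegral_const, Measure.restrict_apply_univ, SQ_vol]

/-- the total weight, all times -/
lemma GG_le (s t : ℝ) : GG p r c α s t ≤ ENNReal.ofReal (Rt c t) * (WW m * 4) := by
  rw [GG_swap]
  have hz : ∀ z, ∫⁻ x : Fin m → ℝ, UU p r c α s (t, x, z) ≤ ENNReal.ofReal (Rt c t) * WW m := by
    intro z
    have hmeas : Measurable fun x : Fin m → ℝ => UU p r c α s (t, x, z) :=
      (UU_meas p r c α s).comp (by fun_prop)
    have hκ : ∀ j, Real.sqrt (la (ta c t j)) ≠ 0 := fun j => (Real.sqrt_pos.mpr (la_pos _)).ne'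
    rw [subst (fun j => Real.sqrt (la (ta c t j))) (fun j => -(ev (r j) z / (2 * Real.pi))) hκ _ hmeas]
    have e1 : ∏ j, |Real.sqrt (la (ta c t j))| = Rt c t := by
      unfold Rt
      apply Finset.prod_congr rfl
      intro j _
      exact abs_of_nonneg (Real.sqrt_nonneg _)
    rw [e1]
    gcongr
    unfold WW
    apply lintegral_mono
    intro v
    unfold UU
    refine (indicator_le_self _ _ _).trans ?_
    apply ENNReal.ofReal_le_ofReal
    apply am_subst
    intro j
    rw [Real.sq_sqrt (la_pos _).le]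
    show la (ta c t j) ≤ Real.pi ^ 2 * la (ta c t j)
    have := la_pos (ta c t j)
    have hp := Real.pi_gt_three
    have h9 : 1 ≤ Real.pi ^ 2 := by nlinarith
    nlinarith
  calc ∫⁻ z in SQ, ∫⁻ x : Fin m → ℝ, UU p r c α s (t, x, z) ≤
      ∫⁻ _z in SQ, ENNReal.ofReal (Rt c t) * WW m := lintegral_mono fun z => hz z
    _ = _ := by rw [SQ_const, mul_assoc]

/-- the degenerate set in the new variables -/
def D2 (s : ℝ) : Set (Sp m) := {w | good c w.1 ∧
  ¬ Rg s (En (ev (pxx p) w.2.2 + ∑ j, w.2.1 j * ev (pxx (r j)) w.2.2) (4 * Real.pi * α)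
      (fun j => ev (px (r j)) w.2.2) (fun j => ev (px (r j)) w.2.2) c w.1)
    (En (ev (pxy p) w.2.2 + ∑ j, w.2.1 j * ev (pxy (r j)) w.2.2) 0
      (fun j => ev (px (r j)) w.2.2) (fun j => ev (py (r j)) w.2.2) c w.1)
    (En (ev (pyy p) w.2.2 + ∑ j, w.2.1 j * ev (pyy (r j)) w.2.2) (4 * Real.pi * α)
      (fun j => ev (py (r j)) w.2.2) (fun j => ev (py (r j)) w.2.2) c w.1)}

lemma good_meas : MeasurableSet {t : ℝ | good c t} := by
  have e : {t : ℝ | good c t} = ⋂ j, {t | 1 ≤ |ta c t j|} := by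
    ext t
    simp [good]
  rw [e]
  apply MeasurableSet.iInter
  intro j
  exact (isClosed_le continuous_const (by unfold ta; fun_prop)).measurableSet

lemma En_cont (A : Poly) (B : Fin m → Poly) (κ : ℝ) (a b : Fin m → Poly) :
    Continuous fun w : Sp m => En (ev A w.2.2 + ∑ j, w.2.1 j * ev (B j) w.2.2) κ
      (fun j => ev (a j) w.2.2) (fun j => ev (b j) w.2.2) c w.1 := by
  have h1 : ∀ P : Poly, Continuous fun w : Sp m => ev P w.2.2 := fun P =>
    (ev_cont P).comp (continuous_snd.comp continuous_snd)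
  have h2 : ∀ j, Continuous fun w : Sp m => om c w.1 j := fun j =>
    (om_cont c j).comp continuous_fst
  have h3 : ∀ j, Continuous fun w : Sp m => w.2.1 j := fun j => by fun_prop
  unfold En
  apply Continuous.sub
  · apply Continuous.add
    · apply Continuous.add (h1 _)
      apply continuous_finsetSum
      intro j _
      exact (h3 j).mul (h1 _)
    · fun_prop
  · apply continuous_finsetSum
    intro j _
    exact (h2 j).mul ((h1 _).mul (h1 _))

lemma Rg_open {X : Type*} [TopologicalSpace X] (s : ℝ) (a b c : X → ℝ) (ha : Continuous a)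
    (hb : Continuous b) (hc : Continuous c) : IsOpen {x | Rg s (a x) (b x) (c x)} := by
  have e : {x | Rg s (a x) (b x) (c x)} =
      {x | 0 < a x ^ 2 + 2 * b x ^ 2 + c x ^ 2 - 2 * s ^ 2} ∩
      {x | 0 < (a x ^ 2 + b x ^ 2 - s ^ 2) * (b x ^ 2 + c x ^ 2 - s ^ 2) -
        b x ^ 2 * (a x + c x) ^ 2} := by
    ext x
    simp [Rg]
  rw [e]
  exact (isOpen_lt continuous_const (by fun_prop)).inter (isOpen_lt continuous_const (by fun_prop))

lemma D2_meas (s : ℝ) : MeasurableSet (D2 p r c α s) := by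
  have h1 : MeasurableSet {w : Sp m | good c w.1} := measurable_fst (good_meas c)
  have h2 := (Rg_open s _ _ _ (En_cont c (pxx p) (fun j => pxx (r j)) (4 * Real.pi * α)
    (fun j => px (r j)) (fun j => px (r j))) (En_cont c (pxy p) (fun j => pxy (r j)) 0
    (fun j => px (r j)) (fun j => py (r j))) (En_cont c (pyy p) (fun j => pyy (r j))
    (4 * Real.pi * α) (fun j => py (r j)) (fun j => py (r j)))).measurableSet.compl
  exact h1.inter h2

/-- the weight in the new variables -/
noncomputable def U2 (s : ℝ) (w : Sp m) : ℝ≥0∞ :=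
  (D2 p r c α s).indicator (fun w => ENNReal.ofReal (Real.exp (-2 * ∑ j, w.2.1 j ^ 2))) w

lemma U2_meas (s : ℝ) : Measurable (U2 p r c α s) := by
  unfold U2
  apply Measurable.indicator _ (D2_meas p r c α s)
  fun_prop

/-- the total weight in the new variables -/
noncomputable def VV (s t : ℝ) : ℝ≥0∞ := ∫⁻ z in SQ, ∫⁻ v : Fin m → ℝ, U2 p r c α s (t, v, z)

lemma VV_meas (s : ℝ) : Measurable (VV p r c α s) := by
  unfold VV
  have h1 : Measurable fun w : (ℝ × (ℝ × ℝ)) × (Fin m → ℝ) => U2 p r c α s (w.1.1, w.2, w.1.2) :=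
    (U2_meas p r c α s).comp (by fun_prop)
  have h2 : Measurable fun w : ℝ × (ℝ × ℝ) => ∫⁻ v : Fin m → ℝ, U2 p r c α s (w.1, v, w.2) :=
    h1.lintegral_prod_right'
  exact h2.lintegral_prod_right' (ν := volume.restrict SQ)

lemma U2_le (s t : ℝ) (v : Fin m → ℝ) (z : ℝ × ℝ) : U2 p r c α s (t, v, z) ≤
    ENNReal.ofReal (Real.exp (-2 * ∑ j, v j ^ 2)) := by
  unfold U2
  exact indicator_le_self (D2 p r c α s)
    (fun w : Sp m => ENNReal.ofReal (Real.exp (-2 * ∑ j, w.2.1 j ^ 2))) (t, v, z)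

lemma VV_le (s t : ℝ) : VV p r c α s t ≤ WW m * 4 := by
  unfold VV
  calc ∫⁻ z in SQ, ∫⁻ v : Fin m → ℝ, U2 p r c α s (t, v, z) ≤ ∫⁻ _z in SQ, WW m := by
        apply lintegral_mono
        intro z
        exact lintegral_mono fun v => U2_le p r c α s t v z
    _ = _ := SQ_const _

/-- **the total over the times** -/
lemma VV_time (s : ℝ) (hs : 0 < s) (hα : 1 ≤ α) :
    ∫⁻ t : ℝ, VV p r c α s t ≤ ENNReal.ofReal (2 ^ m * s) * (WW m * 4) := by
  have hα0 : 0 < α := by linarith
  have hp := Real.pi_gt_three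
  unfold VV
  have h1 : Measurable fun w : (ℝ × (ℝ × ℝ)) × (Fin m → ℝ) => U2 p r c α s (w.1.1, w.2, w.1.2) :=
    (U2_meas p r c α s).comp (by fun_prop)
  have h2 : Measurable fun w : ℝ × (ℝ × ℝ) => ∫⁻ v : Fin m → ℝ, U2 p r c α s (w.1, v, w.2) :=
    h1.lintegral_prod_right'
  rw [lintegral_lintegral_swap (f := fun t z => ∫⁻ v : Fin m → ℝ, U2 p r c α s (t, v, z))
    h2.aemeasurable]
  have hz : ∀ z, ∫⁻ t : ℝ, ∫⁻ v : Fin m → ℝ, U2 p r c α s (t, v, z) ≤
      ENNReal.ofReal (2 ^ m * s) * WW m := by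
    intro z
    rw [lintegral_lintegral_swap]
    swap
    · exact ((U2_meas p r c α s).comp (by fun_prop)).aemeasurable
    unfold WW
    rw [← lintegral_const_mul _ (by fun_prop)]
    apply lintegral_mono
    intro v
    simp only
    have e : ∀ t : ℝ, U2 p r c α s (t, v, z) = {t : ℝ | ((t, v, z) : Sp m) ∈ D2 p r c α s}.indicator
        (fun _ => ENNReal.ofReal (Real.exp (-2 * ∑ j, v j ^ 2))) t := by
      intro t
      unfold U2
      by_cases h : ((t, v, z) : Sp m) ∈ D2 p r c α s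
      · rw [indicator_of_mem h, indicator_of_mem (show t ∈ {t : ℝ | ((t, v, z) : Sp m) ∈
          D2 p r c α s} from h)]
      · rw [indicator_of_notMem h, indicator_of_notMem (show t ∉ {t : ℝ | ((t, v, z) : Sp m) ∈
          D2 p r c α s} from h)]
    simp only [e]
    have hm : MeasurableSet {t : ℝ | ((t, v, z) : Sp m) ∈ D2 p r c α s} :=
      (D2_meas p r c α s).preimage (by fun_prop)
    rw [lintegral_indicator_const hm, mul_comm]
    gcongr
    have hv := vol_times c (ev (pxx p) z + ∑ j, v j * ev (pxx (r j)) z)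
      (ev (pxy p) z + ∑ j, v j * ev (pxy (r j)) z) (ev (pyy p) z + ∑ j, v j * ev (pyy (r j)) z)
      (4 * Real.pi * α) s (fun j => ev (px (r j)) z) (fun j => ev (py (r j)) z) (by positivity) hs
    refine hv.trans ?_
    apply ENNReal.ofReal_le_ofReal
    gcongr
    rw [div_le_iff₀ (by positivity)]
    nlinarith [mul_pos hs hα0]
  calc ∫⁻ z in SQ, ∫⁻ t : ℝ, ∫⁻ v : Fin m → ℝ, U2 p r c α s (t, v, z) ≤
      ∫⁻ _z in SQ, ENNReal.ofReal (2 ^ m * s) * WW m := lintegral_mono fun z => hz z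
    _ = _ := by rw [SQ_const, mul_assoc]

/-- the new variables -/
lemma hess_subst (i k : Fin 2) (t : ℝ) (ht : good c t) (z : ℝ × ℝ) (v : Fin m → ℝ) :
    ev (MvPolynomial.pderiv i (MvPolynomial.pderiv k (Psi p r c
      (fun j => -(la (ta c t j) / (Real.pi * ta c t j)) * v j + -(ev (r j) z / (2 * Real.pi))) t))) z =
    (ev (MvPolynomial.pderiv i (MvPolynomial.pderiv k p)) z +
      ∑ j, v j * ev (MvPolynomial.pderiv i (MvPolynomial.pderiv k (r j))) z) -
      ∑ j, om c t j * (ev (MvPolynomial.pderiv i (r j)) z * ev (MvPolynomial.pderiv k (r j)) z) := by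
  rw [pd_Psi]
  have e : ∀ j, ta c t j / (2 * la (ta c t j)) *
        (ev (MvPolynomial.pderiv i (r j)) z * ev (MvPolynomial.pderiv k (r j)) z +
          (ev (r j) z + 2 * Real.pi * (-(la (ta c t j) / (Real.pi * ta c t j)) * v j +
            -(ev (r j) z / (2 * Real.pi)))) *
            ev (MvPolynomial.pderiv i (MvPolynomial.pderiv k (r j))) z) =
      om c t j * (ev (MvPolynomial.pderiv i (r j)) z * ev (MvPolynomial.pderiv k (r j)) z) -
      v j * ev (MvPolynomial.pderiv i (MvPolynomial.pderiv k (r j))) z := by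
    intro j
    have h1 := (la_pos (ta c t j)).ne'
    have h2 : ta c t j ≠ 0 := by
      intro h
      have := ht j
      rw [h, abs_zero] at this
      linarith
    have h3 := Real.pi_ne_zero
    unfold om
    field_simp
    ring
  simp only [e]
  rw [Finset.sum_sub_distrib]
  ring

/-- the total weight, good times -/
lemma GG_good (s t : ℝ) (ht : good c t) :
    GG p r c α s t ≤ ENNReal.ofReal (Rt c t) * VV p r c α s t := by
  have hp := Real.pi_gt_three
  rw [GG_swap]
  unfold VV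
  rw [← lintegral_const_mul' _ _ ENNReal.ofReal_ne_top]
  apply lintegral_mono
  intro z
  simp only
  have hta : ∀ j, ta c t j ≠ 0 := by
    intro j h
    have := ht j
    rw [h, abs_zero] at this
    linarith
  have hmeas : Measurable fun x : Fin m → ℝ => UU p r c α s (t, x, z) :=
    (UU_meas p r c α s).comp (by fun_prop)
  have hκ : ∀ j, -(la (ta c t j) / (Real.pi * ta c t j)) ≠ 0 := by
    intro j
    rw [neg_ne_zero]
    exact div_ne_zero (la_pos _).ne' (mul_ne_zero Real.pi_ne_zero (hta j))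
  rw [subst (fun j => -(la (ta c t j) / (Real.pi * ta c t j)))
    (fun j => -(ev (r j) z / (2 * Real.pi))) hκ _ hmeas]
  have hsq : ∀ j, ta c t j ^ 2 ≤ la (ta c t j) ∧ la (ta c t j) ≤ 2 * ta c t j ^ 2 := by
    intro j
    have h1 : 1 ≤ ta c t j ^ 2 := by
      rw [← sq_abs]
      exact one_le_pow₀ (ht j)
    unfold la
    constructor <;> linarith
  have hle : ENNReal.ofReal (∏ j, |-(la (ta c t j) / (Real.pi * ta c t j))|) ≤
      ENNReal.ofReal (Rt c t) := by
    apply ENNReal.ofReal_le_ofReal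
    unfold Rt
    apply Finset.prod_le_prod (fun j _ => abs_nonneg _)
    intro j _
    apply Real.le_sqrt_of_sq_le
    rw [sq_abs, neg_sq, div_pow, mul_pow, div_le_iff₀ (by
      have := sq_pos_of_ne_zero (hta j)
      positivity)]
    have h1 := hsq j
    have h2 := la_pos (ta c t j)
    have h3 : 2 ≤ Real.pi ^ 2 := by nlinarith
    have h4 : la (ta c t j) ≤ Real.pi ^ 2 * ta c t j ^ 2 := by nlinarith [sq_nonneg (ta c t j)]
    nlinarith
  refine mul_le_mul' hle (lintegral_mono fun v => ?_)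
  simp only [UU, U2]
  set x : Fin m → ℝ := fun j => -(la (ta c t j) / (Real.pi * ta c t j)) * v j +
    -(ev (r j) z / (2 * Real.pi)) with hx
  have hmem : ((t, x, z) : Sp m) ∈ DD p r c α s → ((t, v, z) : Sp m) ∈ D2 p r c α s := by
    intro h
    refine ⟨ht, ?_⟩
    intro hR
    apply h
    show z ∈ BB (Psi p r c x t) s (α * t)
    rw [mem_BB]
    have e1 := hess_subst p r c 0 0 t ht z v
    have e2 := hess_subst p r c 1 0 t ht z v
    have e3 := hess_subst p r c 1 1 t ht z v
    rw [← hx] at e1 e2 e3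
    have f1 : ev (pxx (Psi p r c x t)) z + 4 * Real.pi * (α * t) =
        En (ev (pxx p) z + ∑ j, v j * ev (pxx (r j)) z) (4 * Real.pi * α)
          (fun j => ev (px (r j)) z) (fun j => ev (px (r j)) z) c t := by
      unfold pxx En px
      rw [e1]
      ring
    have f2 : ev (pxy (Psi p r c x t)) z =
        En (ev (pxy p) z + ∑ j, v j * ev (pxy (r j)) z) 0
          (fun j => ev (px (r j)) z) (fun j => ev (py (r j)) z) c t := by
      unfold pxy En px py
      rw [e2, zero_mul, add_zero]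
      congr 1
      apply Finset.sum_congr rfl
      intro j _
      ring
    have f3 : ev (pyy (Psi p r c x t)) z + 4 * Real.pi * (α * t) =
        En (ev (pyy p) z + ∑ j, v j * ev (pyy (r j)) z) (4 * Real.pi * α)
          (fun j => ev (py (r j)) z) (fun j => ev (py (r j)) z) c t := by
      unfold pyy En py
      rw [e3]
      ring
    rw [f1, f2, f3]
    exact hR
  by_cases h : ((t, x, z) : Sp m) ∈ DD p r c α s
  · rw [indicator_of_mem h, indicator_of_mem (hmem h)]
    apply ENNReal.ofReal_le_ofReal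
    apply am_subst
    intro j
    have h1 := hsq j
    have h2 := la_pos (ta c t j)
    have h5 := sq_pos_of_ne_zero (hta j)
    rw [neg_sq, div_pow, mul_pow]
    have e : Real.pi ^ 2 * (la (ta c t j) ^ 2 / (Real.pi ^ 2 * ta c t j ^ 2)) =
        la (ta c t j) ^ 2 / ta c t j ^ 2 := by
      have h3 := Real.pi_ne_zero
      field_simp
    rw [e, le_div_iff₀ h5]
    nlinarith
  · rw [indicator_of_notMem h]
    exact zero_le

end

end Pool.Agent.Helper35.MP
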