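import Pool.Agent.Helper35.MP.F
set_option autoImplicit false

/-! The `L^q` bound of the building block. -/

namespace Pool.Agent.Helper35.MP

open MeasureTheory Set Filter Topology Complex
open scoped ENNReal NNReal
open Pool.Agent.Y183.PP

variable {m : ℕ}

lemma interp (x y : ℝ≥0∞) (θ : ℝ) (h0 : 0 ≤ θ) (h1 : θ ≤ 1) : x ^ θ * y ^ (1 - θ) ≤ x + y := by
  have hx : x ≤ max x y := le_max_left _ _
  have hy : y ≤ max x y := le_max_right _ _
  calc x ^ θ * y ^ (1 - θ) ≤ max x y ^ θ * max x y ^ (1 - θ) :=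
        mul_le_mul' (ENNReal.rpow_le_rpow hx h0) (ENNReal.rpow_le_rpow hy (by linarith))
    _ = max x y := by
        rw [← ENNReal.rpow_add_of_nonneg _ _ h0 (by linarith)]
        have : θ + (1 - θ) = 1 := by ring
        rw [this, ENNReal.rpow_one]
    _ ≤ _ := max_le (le_add_right le_rfl) (le_add_left le_rfl)

/-- the interpolation of the two bounds -/
lemma interp2 (n : ℝ) (hm : 1 ≤ m) (hn : n = m + 2) (lam : ℝ) (hl : 0 < lam) (γ : ℝ) (V W κ : ℝ≥0∞)
    (hVW : V ≤ W) (hκ0 : κ ≠ 0) (hκ : κ ≠ ∞) :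
    ENNReal.ofReal (lam ^ (-(m * γ))) * V ≤
      κ * ENNReal.ofReal (lam ^ (-(n * γ))) * W + κ ^ (-((m : ℝ) / 2)) * V := by
  have hm' : (1 : ℝ) ≤ m := by exact_mod_cast hm
  have hn0 : 0 < n := by rw [hn]; linarith
  set θ : ℝ := m / n with hθ
  have hθ0 : 0 ≤ θ := by rw [hθ]; positivity
  have h1θ : 1 - θ = 2 / n := by rw [hθ]; field_simp; linarith
  have hθ1 : 0 ≤ 1 - θ := by rw [h1θ]; positivity
  have hle := interp (κ * ENNReal.ofReal (lam ^ (-(n * γ))) * W) (κ ^ (-((m : ℝ) / 2)) * V) θ hθ0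
    (by linarith)
  refine le_trans ?_ hle
  rw [ENNReal.mul_rpow_of_nonneg _ _ hθ0, ENNReal.mul_rpow_of_nonneg _ _ hθ0,
    ENNReal.mul_rpow_of_nonneg _ _ hθ1, ← ENNReal.rpow_mul]
  have e1 : ENNReal.ofReal (lam ^ (-(n * γ))) ^ θ = ENNReal.ofReal (lam ^ (-(m * γ))) := by
    rw [ENNReal.ofReal_rpow_of_nonneg (by positivity) hθ0, ← Real.rpow_mul hl.le]
    congr 2
    rw [hθ]
    field_simp
  have e2 : κ ^ θ * κ ^ (-((m : ℝ) / 2) * (1 - θ)) = 1 := by
    rw [← ENNReal.rpow_add _ _ hκ0 hκ, h1θ, hθ]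
    have : (m : ℝ) / n + -((m : ℝ) / 2) * (2 / n) = 0 := by field_simp; ring
    rw [this, ENNReal.rpow_zero]
  have e3 : V = V ^ θ * V ^ (1 - θ) := by
    rw [← ENNReal.rpow_add_of_nonneg _ _ hθ0 hθ1]
    have : θ + (1 - θ) = 1 := by ring
    rw [this, ENNReal.rpow_one]
  rw [e1]
  calc ENNReal.ofReal (lam ^ (-(m * γ))) * V =
      ENNReal.ofReal (lam ^ (-(m * γ))) * (V ^ θ * V ^ (1 - θ)) := by rw [← e3]
    _ ≤ ENNReal.ofReal (lam ^ (-(m * γ))) * (W ^ θ * V ^ (1 - θ)) := by
        gcongr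
    _ = (κ ^ θ * κ ^ (-((m : ℝ) / 2) * (1 - θ))) *
        (ENNReal.ofReal (lam ^ (-(m * γ))) * (W ^ θ * V ^ (1 - θ))) := by rw [e2, one_mul]
    _ = _ := by ring

/-- products and sums of powers -/
lemma prod_le_sum (hm : 1 ≤ m) (x : Fin m → ℝ) (hx : ∀ j, 0 ≤ x j) :
    ∏ j, x j ≤ ∑ j, x j ^ m := by
  have hne : (Finset.univ : Finset (Fin m)).Nonempty := ⟨⟨0, hm⟩, Finset.mem_univ _⟩
  obtain ⟨j0, _, hj⟩ := Finset.exists_max_image Finset.univ x hne
  calc ∏ j, x j ≤ ∏ _j : Fin m, x j0 := Finset.prod_le_prod (fun j _ => hx j) fun j hj' => hj j hj'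
    _ = x j0 ^ m := by simp
    _ ≤ _ := Finset.single_le_sum (f := fun j => x j ^ m) (fun j _ => pow_nonneg (hx j) m)
        (Finset.mem_univ j0)

/-- the integral of the decay in time -/
noncomputable def TT (β : ℝ) : ℝ≥0∞ := ∫⁻ u : ℝ, ENNReal.ofReal (la u ^ (-β))

lemma TT_top (β : ℝ) (hβ : 1 / 2 < β) : TT β ≠ ∞ := by
  have h := integrable_rpow_neg_one_add_norm_sq (E := ℝ) (μ := volume) (r := 2 * β) (by
    simp
    linarith)
  have e : ∀ u : ℝ, (1 + ‖u‖ ^ 2) ^ (-(2 * β) / 2) = la u ^ (-β) := by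
    intro u
    unfold la
    rw [Real.norm_eq_abs, sq_abs]
    congr 1
    ring
  simp only [e] at h
  exact (h.lintegral_lt_top).ne

lemma TT_shift (β : ℝ) (c : Fin m → ℝ) (j : Fin m) :
    ∫⁻ t : ℝ, ENNReal.ofReal (la (ta c t j) ^ (-β)) ≤ TT β := by
  have hp := Real.pi_gt_three
  have h2 : (2 * Real.pi) ≠ 0 := by positivity
  have hm : Measurable fun u : ℝ => ENNReal.ofReal (la (c j + u) ^ (-β)) := by
    unfold la
    fun_prop
  have h3 := lintegral_map (μ := (volume : Measure ℝ)) hm (show Measurable fun t : ℝ => 2 * Real.pi * t by fun_prop)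
  rw [Real.map_volume_mul_left h2, lintegral_smul_measure] at h3
  unfold ta
  rw [← h3]
  have h4 : ENNReal.ofReal |(2 * Real.pi)⁻¹| ≤ 1 := by
    rw [← ENNReal.ofReal_one]
    apply ENNReal.ofReal_le_ofReal
    rw [abs_of_pos (by positivity)]
    exact inv_le_one_of_one_le₀ (by linarith)
  have h5 : ∫⁻ u : ℝ, ENNReal.ofReal (la (c j + u) ^ (-β)) = TT β :=
    lintegral_add_left_eq_self (fun u => ENNReal.ofReal (la u ^ (-β))) (c j)
  rw [h5, smul_eq_mul]
  calc ENNReal.ofReal |(2 * Real.pi)⁻¹| * TT β ≤ 1 * TT β := by gcongr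
    _ = _ := one_mul _

/-- the measure of the bad times -/
lemma bad_vol (c : Fin m → ℝ) : volume {t : ℝ | ¬ good c t} ≤ m := by
  have hp := Real.pi_gt_three
  have hsub : {t : ℝ | ¬ good c t} ⊆ ⋃ j : Fin m, Icc ((-1 - c j) / (2 * Real.pi)) ((1 - c j) / (2 * Real.pi)) := by
    intro t ht
    simp only [good, mem_ofPred_eq, not_forall, not_le] at ht
    obtain ⟨j, hj⟩ := ht
    rw [mem_iUnion]
    refine ⟨j, ?_⟩
    have h1 := abs_lt.mp hj
    unfold ta at h1
    constructor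
    · rw [div_le_iff₀ (by positivity)]
      linarith [h1.1]
    · rw [le_div_iff₀ (by positivity)]
      linarith [h1.2]
  refine (measure_mono hsub).trans ((measure_iUnion_le _).trans ?_)
  rw [tsum_fintype]
  have h1 : ∀ j : Fin m, volume (Icc ((-1 - c j) / (2 * Real.pi)) ((1 - c j) / (2 * Real.pi))) ≤ 1 := by
    intro j
    rw [Real.volume_Icc, ← ENNReal.ofReal_one]
    apply ENNReal.ofReal_le_ofReal
    rw [← sub_div, div_le_iff₀ (by positivity)]
    linarith
  refine (Finset.sum_le_sum fun j _ => h1 j).trans ?_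
  simp

/-- the factor in front -/
noncomputable def Kt (c : Fin m → ℝ) (t : ℝ) : ℝ := ∏ j, (Real.pi / Real.sqrt (la (ta c t j))) ^ (1 / 2 : ℝ)

lemma Kt_pos (c : Fin m → ℝ) (t : ℝ) : 0 < Kt c t := by
  unfold Kt
  apply Finset.prod_pos
  intro j _
  have := Real.sqrt_pos.mpr (la_pos (ta c t j))
  have := Real.pi_pos
  positivity

lemma Rt_pos (c : Fin m → ℝ) (t : ℝ) : 0 < Rt c t := by
  unfold Rt
  apply Finset.prod_pos
  intro j _
  exact Real.sqrt_pos.mpr (la_pos (ta c t j))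

lemma Kt_cont (c : Fin m → ℝ) : Continuous (Kt c) := by
  unfold Kt
  apply continuous_finsetProd
  intro j _
  apply Continuous.rpow_const
  · apply Continuous.div continuous_const
    · unfold la ta; fun_prop
    · intro t
      exact (Real.sqrt_pos.mpr (la_pos (ta c t j))).ne'
  · intro t
    right
    norm_num

/-- the decay in time -/
noncomputable def Lt (γ : ℝ) (c : Fin m → ℝ) (t : ℝ) : ℝ := ∏ j, la (ta c t j) ^ (-γ)

lemma Kt_Rt (q : ℝ) (c : Fin m → ℝ) (t : ℝ) : Kt c t ^ q * Rt c t =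
    (Real.pi ^ (q / 2)) ^ m * Lt ((q - 2) / 4) c t := by
  unfold Kt Rt Lt
  rw [← Real.finsetProd_rpow _ _ (fun j _ => by
    have := Real.sqrt_pos.mpr (la_pos (ta c t j))
    have := Real.pi_pos
    positivity), ← Finset.prod_mul_distrib]
  have e : (Real.pi ^ (q / 2)) ^ m = ∏ _j : Fin m, Real.pi ^ (q / 2) := by simp
  rw [e, ← Finset.prod_mul_distrib]
  apply Finset.prod_congr rfl
  intro j _
  set l := la (ta c t j) with hl
  have hl0 : 0 < l := la_pos _
  have hp := Real.pi_pos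
  have hs : Real.sqrt l = l ^ (1 / 2 : ℝ) := Real.sqrt_eq_rpow l
  rw [hs, ← Real.rpow_mul (by positivity), Real.div_rpow hp.le (by positivity), ← Real.rpow_mul hl0.le]
  have e1 : (1 / 2 : ℝ) * q = q / 2 := by ring
  rw [e1, div_mul_eq_mul_div, mul_div_assoc, ← Real.rpow_sub hl0]
  congr 2
  ring

lemma Lt_one (γ : ℝ) (hγ : 0 ≤ γ) (c : Fin m → ℝ) (t : ℝ) : Lt γ c t ≤ 1 := by
  unfold Lt
  apply Finset.prod_le_one
  · intro j _
    have := la_pos (ta c t j)
    positivity
  · intro j _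
    exact Real.rpow_le_one_of_one_le_of_nonpos (la_one _) (by linarith)

section

variable (p : Poly) (r : Fin m → Poly) (c : Fin m → ℝ) (α : ℝ)

lemma GG_meas (s : ℝ) : Measurable (GG p r c α s) := by
  unfold GG
  have h1 : Measurable fun w : (ℝ × (Fin m → ℝ)) × (ℝ × ℝ) => UU p r c α s (w.1.1, w.1.2, w.2) :=
    (UU_meas p r c α s).comp (by fun_prop)
  have h2 : Measurable fun w : ℝ × (Fin m → ℝ) => ∫⁻ z in SQ, UU p r c α s (w.1, w.2, z) :=
    h1.lintegral_prod_right' (ν := volume.restrict SQ)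
  exact h2.lintegral_prod_right'

/-- **one scale** -/
lemma scale (hm : 1 ≤ m) (q : ℝ) (hq : 2 ≤ q) (s : ℝ) (hs : 0 < s) (hα : 1 ≤ α) (κ : ℝ≥0∞)
    (hκ0 : κ ≠ 0) (hκ : κ ≠ ∞) :
    ∫⁻ t : ℝ, ENNReal.ofReal (Kt c t ^ q) * GG p r c α s t ≤
      ENNReal.ofReal ((Real.pi ^ (q / 2)) ^ m) * (m * (WW m * 4)) *
        (1 + κ * TT ((m + 2) * ((q - 2) / 4)) + κ ^ (-((m : ℝ) / 2)) * ENNReal.ofReal (2 ^ m * s)) := by
  set γ : ℝ := (q - 2) / 4 with hγ
  have hγ0 : 0 ≤ γ := by rw [hγ]; linarith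
  set P0 : ℝ := (Real.pi ^ (q / 2)) ^ m with hP0
  have hP00 : 0 ≤ P0 := by rw [hP0]; positivity
  set W4 : ℝ≥0∞ := WW m * 4 with hW4
  -- pointwise
  have hpt : ∀ t, ENNReal.ofReal (Kt c t ^ q) * GG p r c α s t ≤ ENNReal.ofReal P0 *
      ({t : ℝ | ¬ good c t}.indicator (fun _ => W4) t +
        ∑ j, (κ * ENNReal.ofReal (la (ta c t j) ^ (-((m + 2) * γ))) * W4 +
          κ ^ (-((m : ℝ) / 2)) * VV p r c α s t)) := by
    intro t
    have hK : 0 ≤ Kt c t ^ q := by
      have := Kt_pos c t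
      positivity
    have hR := (Rt_pos c t).le
    have hL : 0 ≤ Lt γ c t := by
      unfold Lt
      apply Finset.prod_nonneg
      intro j _
      have := la_pos (ta c t j)
      positivity
    by_cases ht : good c t
    · rw [indicator_of_notMem (show t ∉ {t : ℝ | ¬ good c t} from fun h => h ht), zero_add]
      calc ENNReal.ofReal (Kt c t ^ q) * GG p r c α s t ≤
          ENNReal.ofReal (Kt c t ^ q) * (ENNReal.ofReal (Rt c t) * VV p r c α s t) := by
            exact mul_le_mul_right (GG_good p r c α s t ht) _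
        _ = ENNReal.ofReal P0 * (ENNReal.ofReal (Lt γ c t) * VV p r c α s t) := by
            rw [← mul_assoc, ← ENNReal.ofReal_mul hK, Kt_Rt, ENNReal.ofReal_mul hP00, mul_assoc]
        _ ≤ ENNReal.ofReal P0 * ((∑ j, ENNReal.ofReal (la (ta c t j) ^ (-(m * γ)))) *
            VV p r c α s t) := by
            gcongr
            rw [← ENNReal.ofReal_sum_of_nonneg]
            · apply ENNReal.ofReal_le_ofReal
              have h1 := prod_le_sum hm (fun j => la (ta c t j) ^ (-γ)) (fun j => by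
                have := la_pos (ta c t j)
                positivity)
              unfold Lt
              refine h1.trans (le_of_eq ?_)
              apply Finset.sum_congr rfl
              intro j _
              rw [← Real.rpow_natCast, ← Real.rpow_mul (la_pos _).le]
              congr 1
              ring
            · intro j _
              have := la_pos (ta c t j)
              positivity
        _ ≤ _ := by
            rw [Finset.sum_mul]
            gcongr with j _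
            exact interp2 (m + 2) hm rfl _ (la_pos _) γ _ _ κ (VV_le p r c α s t) hκ0 hκ
    · rw [indicator_of_mem (show t ∈ {t : ℝ | ¬ good c t} from ht)]
      calc ENNReal.ofReal (Kt c t ^ q) * GG p r c α s t ≤
          ENNReal.ofReal (Kt c t ^ q) * (ENNReal.ofReal (Rt c t) * W4) := by
            exact mul_le_mul_right (GG_le p r c α s t) _
        _ = ENNReal.ofReal P0 * (ENNReal.ofReal (Lt γ c t) * W4) := by
            rw [← mul_assoc, ← ENNReal.ofReal_mul hK, Kt_Rt, ENNReal.ofReal_mul hP00, mul_assoc]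
        _ ≤ ENNReal.ofReal P0 * (1 * W4) := by
            gcongr
            rw [← ENNReal.ofReal_one]
            exact ENNReal.ofReal_le_ofReal (Lt_one γ hγ0 c t)
        _ ≤ _ := by
            rw [one_mul]
            exact mul_le_mul_right le_self_add _
  refine (lintegral_mono hpt).trans ?_
  rw [lintegral_const_mul' _ _ ENNReal.ofReal_ne_top, mul_assoc (ENNReal.ofReal P0)]
  apply mul_le_mul_right
  have hgm : MeasurableSet {t : ℝ | ¬ good c t} := (good_meas c).compl
  have hVm := VV_meas p r c α s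
  have hlm : ∀ j, Measurable fun t : ℝ => ENNReal.ofReal (la (ta c t j) ^ (-((m + 2) * γ))) := by
    intro j
    unfold la ta
    fun_prop
  have hjm : ∀ j, Measurable fun t : ℝ => κ * ENNReal.ofReal (la (ta c t j) ^ (-((m + 2) * γ))) * W4 +
      κ ^ (-((m : ℝ) / 2)) * VV p r c α s t := fun j =>
    (((hlm j).const_mul _).mul_const _).add (hVm.const_mul _)
  rw [lintegral_add_left (measurable_const.indicator hgm), lintegral_indicator_const hgm,
    lintegral_finsetSum _ (fun j _ => hjm j)]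
  have h1 : ∀ j : Fin m, ∫⁻ t : ℝ, (κ * ENNReal.ofReal (la (ta c t j) ^ (-((m + 2) * γ))) * W4 +
      κ ^ (-((m : ℝ) / 2)) * VV p r c α s t) ≤ κ * TT ((m + 2) * γ) * W4 +
      κ ^ (-((m : ℝ) / 2)) * (ENNReal.ofReal (2 ^ m * s) * W4) := by
    intro j
    rw [lintegral_add_left (((hlm j).const_mul _).mul_const _), lintegral_const_mul _ hVm,
      lintegral_mul_const _ ((hlm j).const_mul _), lintegral_const_mul _ (hlm j)]
    gcongr
    · exact TT_shift _ c j
    · exact VV_time p r c α s hs hα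
  calc W4 * volume {t : ℝ | ¬ good c t} + ∑ j, ∫⁻ t : ℝ,
      (κ * ENNReal.ofReal (la (ta c t j) ^ (-((m + 2) * γ))) * W4 +
      κ ^ (-((m : ℝ) / 2)) * VV p r c α s t) ≤ W4 * m + ∑ _j : Fin m, (κ * TT ((m + 2) * γ) * W4 +
      κ ^ (-((m : ℝ) / 2)) * (ENNReal.ofReal (2 ^ m * s) * W4)) := by
        gcongr with j _
        · exact bad_vol c
        · exact h1 j
    _ = _ := by
        rw [Finset.sum_const, Finset.card_univ, Fintype.card_fin, nsmul_eq_mul]
        ring

end

end Pool.Agent.Helper35.MP
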