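import Pool.Agent.Helper35.MP.G
set_option autoImplicit false

/-! The summation over the scales. -/

namespace Pool.Agent.Helper35.MP

open MeasureTheory Set Filter Topology Complex
open scoped ENNReal NNReal
open Pool.Agent.Y183.PP

variable {m : ℕ}

lemma geo (c : ℝ) (hc : 0 < c) : ∑' k : ℕ, ENNReal.ofReal ((2 : ℝ) ^ (-c * k)) ≠ ∞ := by
  have e1 : ∀ k : ℕ, ENNReal.ofReal ((2 : ℝ) ^ (-c * k)) = ENNReal.ofReal ((2 : ℝ) ^ (-c)) ^ k := by
    intro k
    rw [← ENNReal.ofReal_pow (by positivity), ← Real.rpow_natCast, ← Real.rpow_mul (by norm_num)]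
  simp only [e1]
  rw [ENNReal.tsum_geometric]
  rw [ne_eq, ENNReal.inv_eq_top, tsub_eq_zero_iff_le, not_le]
  rw [← ENNReal.ofReal_one]
  apply (ENNReal.ofReal_lt_ofReal_iff (by norm_num)).mpr
  exact Real.rpow_lt_one_of_one_lt_of_neg (by norm_num) (by linarith)

lemma kf_prod (c : Fin m → ℝ) (t : ℝ) (q : ℝ) (hq : 0 ≤ q) : ‖∏ j, kf (ta c t j)‖ₑ ^ q =
    ENNReal.ofReal (Kt c t ^ q) := by
  rw [← ofReal_norm, norm_prod]
  simp only [kf_norm]
  exact ENNReal.ofReal_rpow_of_nonneg (Kt_pos c t).le hq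

/-- the estimate for fixed time and further variables -/
lemma fixed_tx {D : ℕ} (p : Poly) (r : Fin m → Poly) (c : Fin m → ℝ) (α : ℝ)
    (hp : p.totalDegree ≤ D) (hr : ∀ j, (r j).totalDegree ≤ D) (q : ℝ) (hq2 : 2 ≤ q)
    (a : ℕ → ℝ≥0∞) (ha0 : ∀ k, a k ≠ 0) (hat : ∀ k, a k ≠ ∞) (t : ℝ) (x : Fin m → ℝ) :
    ∫⁻ y : ℝ × ℝ, ‖FB p r c α y x t‖ₑ ^ q ≤ ENNReal.ofReal (Kt c t ^ q) *
      ((∑' k, a k) ^ (q - 1) * ∑' k : ℕ, a k ^ (1 - q) *
        (ENNReal.ofReal (SS (2 * D) (2 * D + 1) k) ^ (q - 2) *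
          ∫⁻ z in SQ, UU p r c α (2 ^ k) (t, x, z))) := by
  have e1 : ∀ y, ‖FB p r c α y x t‖ₑ ^ q = ENNReal.ofReal (Kt c t ^ q) *
      ‖∫ z in SQ, ((am r c x t z : ℝ) : ℂ) * ex (Ph (Psi p r c x t) y (α * t)) z‖ₑ ^ q := by
    intro y
    rw [FB_eq, enorm_mul, ENNReal.mul_rpow_of_nonneg _ _ (by linarith), kf_prod _ _ _ (by linarith)]
  simp only [e1]
  rw [lintegral_const_mul' _ _ ENNReal.ofReal_ne_top]
  apply mul_le_mul_right
  have hV0 : (0 : ℝ) ≤ 2 * D + 1 := by positivity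
  have hB : ∀ z, ‖((am r c x t z : ℝ) : ℂ)‖ ≤ 2 * D + 1 := by
    intro z
    rw [Complex.norm_real, Real.norm_eq_abs, abs_of_pos (am_pos _ _ _ _ _)]
    refine (am_one _ _ _ _ _).trans ?_
    have : (0 : ℝ) ≤ D := Nat.cast_nonneg D
    linarith
  have hfix := fixedA (deg_Psi hp hr c x t) (fun z => ((am r c x t z : ℝ) : ℂ))
    (Complex.continuous_ofReal.comp (am_cont r c x t)).measurable (2 * D + 1) hV0 hB
    (fun y => am_var hr c x t y) (fun y => am_var' hr c x t y) q hq2 a ha0 hat (α * t)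
  refine hfix.trans ?_
  apply mul_le_mul_right
  apply ENNReal.tsum_le_tsum
  intro k
  apply mul_le_mul_right
  apply mul_le_mul_right
  rw [← lintegral_indicator (SQ_meas.inter (AA_meas _ _ _)), ← lintegral_indicator SQ_meas]
  apply lintegral_mono
  intro z
  show (SQ ∩ AA (Psi p r c x t) (α * t) k).indicator (fun z => ‖((am r c x t z : ℝ) : ℂ)‖ₑ ^ 2) z ≤
    SQ.indicator (fun z => UU p r c α (2 ^ k) (t, x, z)) z
  by_cases hz : z ∈ SQ ∩ AA (Psi p r c x t) (α * t) k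
  · rw [indicator_of_mem hz, indicator_of_mem hz.1]
    have hmem : ((t, x, z) : Sp m) ∈ DD p r c α (2 ^ k) := AA_sub _ _ _ hz.2
    have e2 : UU p r c α (2 ^ k) (t, x, z) = ENNReal.ofReal (am r c x t z ^ 2) :=
      indicator_of_mem hmem _
    rw [e2, ← ofReal_norm, Complex.norm_real, Real.norm_eq_abs,
      abs_of_pos (am_pos _ _ _ _ _), ENNReal.ofReal_pow (am_pos _ _ _ _ _).le]
  · rw [indicator_of_notMem hz]
    exact zero_le

lemma inner_meas (p : Poly) (r : Fin m → Poly) (c : Fin m → ℝ) (α : ℝ) (s : ℝ) :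
    Measurable fun w : ℝ × (Fin m → ℝ) => ∫⁻ z in SQ, UU p r c α s (w.1, w.2, z) := by
  have h1 : Measurable fun w : (ℝ × (Fin m → ℝ)) × (ℝ × ℝ) =>
      UU p r c α s (w.1.1, w.1.2, w.2) := (UU_meas p r c α s).comp (by fun_prop)
  exact h1.lintegral_prod_right' (ν := volume.restrict SQ)

lemma inner_meas2 (p : Poly) (r : Fin m → Poly) (c : Fin m → ℝ) (α : ℝ) (s t : ℝ) :
    Measurable fun x : Fin m → ℝ => ∫⁻ z in SQ, UU p r c α s (t, x, z) := by
  have h1 : Measurable fun w : (Fin m → ℝ) × (ℝ × ℝ) =>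
      UU p r c α s (t, w.1, w.2) := (UU_meas p r c α s).comp (by fun_prop)
  exact h1.lintegral_prod_right' (ν := volume.restrict SQ)

/-- integration over the further variables and the time -/
lemma time_sum (p : Poly) (r : Fin m → Poly) (c : Fin m → ℝ) (α : ℝ) (q : ℝ) (A0 : ℝ≥0∞)
    (hA0t : A0 ≠ ∞) (w : ℕ → ℝ≥0∞) (hwt : ∀ k, w k ≠ ∞)
    (F : ℝ → (Fin m → ℝ) → ℝ≥0∞)
    (h1 : ∀ t x, F t x ≤ ENNReal.ofReal (Kt c t ^ q) *
      (A0 * ∑' k, w k * ∫⁻ z in SQ, UU p r c α (2 ^ k) (t, x, z))) :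
    ∫⁻ t : ℝ, ∫⁻ x : Fin m → ℝ, F t x ≤
      A0 * ∑' k, w k * ∫⁻ t : ℝ, ENNReal.ofReal (Kt c t ^ q) * GG p r c α (2 ^ k) t := by
  have hwk : ∀ t x, ENNReal.ofReal (Kt c t ^ q) *
      (A0 * ∑' k, w k * ∫⁻ z in SQ, UU p r c α (2 ^ k) (t, x, z)) =
      A0 * ∑' k, w k * (ENNReal.ofReal (Kt c t ^ q) * ∫⁻ z in SQ, UU p r c α (2 ^ k) (t, x, z)) := by
    intro t x
    rw [mul_left_comm]
    congr 1
    rw [← ENNReal.tsum_mul_left]
    congr 1
    ext k
    ring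
  have h2 : ∀ t, ∫⁻ x : Fin m → ℝ, F t x ≤
      A0 * ∑' k, w k * (ENNReal.ofReal (Kt c t ^ q) * GG p r c α (2 ^ k) t) := by
    intro t
    refine (lintegral_mono fun x => h1 t x).trans ?_
    simp only [hwk]
    rw [lintegral_const_mul' _ _ hA0t, lintegral_tsum]
    · apply mul_le_mul_right
      apply ENNReal.tsum_le_tsum
      intro k
      rw [lintegral_const_mul' _ _ (hwt k), lintegral_const_mul' _ _ ENNReal.ofReal_ne_top]
      exact le_rfl
    · intro k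
      exact (((inner_meas2 p r c α (2 ^ k) t).const_mul _).const_mul _).aemeasurable
  have hKm : Measurable fun t => ENNReal.ofReal (Kt c t ^ q) :=
    ((Kt_cont c).measurable.pow_const q).ennreal_ofReal
  refine (lintegral_mono h2).trans ?_
  rw [lintegral_const_mul' _ _ hA0t, lintegral_tsum]
  swap
  · intro k
    exact ((hKm.mul (GG_meas p r c α _)).const_mul _).aemeasurable
  apply mul_le_mul_right
  apply ENNReal.tsum_le_tsum
  intro k
  rw [lintegral_const_mul' _ _ (hwt k)]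

/-- **the estimate of the building block** -/
theorem FB_bound (hm : 1 ≤ m) (D : ℕ) (q : ℝ) (hq : 2 + 2 / (m + 2 : ℝ) < q) :
    ∃ C : ℝ≥0, ∀ (p : Poly) (r : Fin m → Poly) (c : Fin m → ℝ) (α : ℝ), p.totalDegree ≤ D →
      (∀ j, (r j).totalDegree ≤ D) → 1 ≤ α →
      ∫⁻ t : ℝ, ∫⁻ x : Fin m → ℝ, ∫⁻ y : ℝ × ℝ, ‖FB p r c α y x t‖ₑ ^ q ≤ C := by
  have hm' : (1 : ℝ) ≤ m := by exact_mod_cast hm
  set n : ℝ := m + 2 with hn
  have hn0 : 0 < n := by rw [hn]; linarith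
  have h2n : 0 < 2 / n := by positivity
  have hq2 : 2 < q := by linarith
  -- the exponents
  set θ : ℝ := q - 2 - 2 / n with hθ
  have hθ0 : 0 < θ := by rw [hθ]; linarith
  set W : ℝ := 2 * q - 3 with hW
  have hW0 : 0 < W := by rw [hW]; linarith
  set δ : ℝ := min 1 (θ / (2 * W)) with hδ
  have hδ0 : 0 < δ := by rw [hδ]; positivity
  have hδ1 : δ ≤ 1 := min_le_left _ _
  have hδW : δ * W ≤ θ / 2 := by
    have h1 : δ ≤ θ / (2 * W) := min_le_right _ _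
    calc δ * W ≤ θ / (2 * W) * W := by gcongr
      _ = θ / 2 := by field_simp
  obtain ⟨C6, hC6, hSS⟩ := SS_bound δ hδ0 hδ1
  set a : ℕ → ℝ≥0∞ := fun k => ENNReal.ofReal ((2 : ℝ) ^ (-δ * k)) with ha
  have ha0 : ∀ k, a k ≠ 0 := by
    intro k
    simp only [ha, ne_eq, ENNReal.ofReal_eq_zero, not_le]
    positivity
  have hat : ∀ k, a k ≠ ∞ := fun k => ENNReal.ofReal_ne_top
  have hat2 : ∑' k, a k ≠ ∞ := geo δ hδ0
  set V : ℝ := 2 * D + 1 with hV
  have hV0 : 0 < V := by rw [hV]; positivity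
  set w : ℕ → ℝ≥0∞ := fun k => a k ^ (1 - q) * ENNReal.ofReal (SS (2 * D) V k) ^ (q - 2) with hw
  have hwt : ∀ k, w k ≠ ∞ := by
    intro k
    apply ENNReal.mul_ne_top
    · exact ENNReal.rpow_ne_top_of_ne_zero (ha0 k) (hat k)
    · exact ENNReal.rpow_ne_top_of_nonneg (by linarith) ENNReal.ofReal_ne_top
  set C7 : ℝ := C6 * (1 + (2 * D : ℕ) : ℝ) ^ 5 * V with hC7
  have hC70 : 0 < C7 := by rw [hC7]; positivity
  have hwle : ∀ k : ℕ, w k ≤ ENNReal.ofReal (C7 ^ (q - 2) * (2 : ℝ) ^ (-(2 / n + θ / 2) * k)) := by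
    intro k
    have h1 : ENNReal.ofReal (SS (2 * D) V k) ^ (q - 2) ≤
        ENNReal.ofReal ((C7 * (2 : ℝ) ^ (-(1 - δ) * k)) ^ (q - 2)) := by
      rw [← ENNReal.ofReal_rpow_of_nonneg (by positivity) (by linarith)]
      gcongr
      exact hSS (2 * D) V hV0.le k
    have h2 : a k ^ (1 - q) = ENNReal.ofReal ((2 : ℝ) ^ (-δ * k * (1 - q))) := by
      simp only [ha]
      rw [ENNReal.ofReal_rpow_of_pos (by positivity), ← Real.rpow_mul (by norm_num)]
    simp only [hw]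
    rw [h2]
    refine (mul_le_mul_right h1 _).trans ?_
    rw [← ENNReal.ofReal_mul (by positivity)]
    apply ENNReal.ofReal_le_ofReal
    rw [Real.mul_rpow hC70.le (by positivity), ← Real.rpow_mul (by norm_num)]
    have hk : (0 : ℝ) ≤ k := Nat.cast_nonneg k
    calc (2 : ℝ) ^ (-δ * k * (1 - q)) * (C7 ^ (q - 2) * (2 : ℝ) ^ (-(1 - δ) * k * (q - 2))) =
        C7 ^ (q - 2) * ((2 : ℝ) ^ (-δ * k * (1 - q)) * (2 : ℝ) ^ (-(1 - δ) * k * (q - 2))) := by ring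
      _ = C7 ^ (q - 2) * (2 : ℝ) ^ (-δ * k * (1 - q) + -(1 - δ) * k * (q - 2)) := by
          rw [← Real.rpow_add (by norm_num)]
      _ ≤ _ := by
          gcongr
          · norm_num
          · have e : -δ * k * (1 - q) + -(1 - δ) * k * (q - 2) = -((q - 2) - δ * W) * k := by
              rw [hW]; ring
            rw [e]
            have : 2 / n + θ / 2 ≤ q - 2 - δ * W := by
              have : q - 2 = θ + 2 / n := by rw [hθ]; ring
              linarith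
            nlinarith
  -- the constant
  set T0 : ℝ≥0∞ := TT ((m + 2) * ((q - 2) / 4)) with hT0
  have hT0t : T0 ≠ ∞ := by
    apply TT_top
    rw [← hn]
    have : 2 / n < q - 2 := by linarith
    rw [div_lt_iff₀ hn0] at this
    linarith
  set P1 : ℝ≥0∞ := ENNReal.ofReal ((Real.pi ^ (q / 2)) ^ m) * (m * (WW m * 4)) with hP1
  have hP1t : P1 ≠ ∞ := ENNReal.mul_ne_top ENNReal.ofReal_ne_top
    (ENNReal.mul_ne_top (ENNReal.natCast_ne_top m) (ENNReal.mul_ne_top (WW_top m) (by norm_num)))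
  set κ : ℕ → ℝ≥0∞ := fun k => ENNReal.ofReal ((2 : ℝ) ^ (2 / n * k)) with hκ
  have hκ0 : ∀ k, κ k ≠ 0 := by
    intro k
    simp only [hκ, ne_eq, ENNReal.ofReal_eq_zero, not_le]
    positivity
  have hκt : ∀ k, κ k ≠ ∞ := fun k => ENNReal.ofReal_ne_top
  have hκ1 : ∀ k, 1 ≤ κ k := by
    intro k
    simp only [hκ]
    rw [← ENNReal.ofReal_one]
    apply ENNReal.ofReal_le_ofReal
    exact Real.one_le_rpow (by norm_num) (by positivity)
  set R0 : ℝ≥0∞ := 1 + T0 + ENNReal.ofReal (2 ^ m) with hR0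
  have hR0t : R0 ≠ ∞ := by
    rw [hR0]
    exact ENNReal.add_ne_top.mpr ⟨ENNReal.add_ne_top.mpr ⟨by norm_num, hT0t⟩, ENNReal.ofReal_ne_top⟩
  have hscale : ∀ k : ℕ, 1 + κ k * T0 + κ k ^ (-((m : ℝ) / 2)) * ENNReal.ofReal (2 ^ m * 2 ^ k) ≤
      κ k * R0 := by
    intro k
    have h1 : κ k ^ (-((m : ℝ) / 2)) * ENNReal.ofReal (2 ^ m * 2 ^ k) =
        κ k * ENNReal.ofReal (2 ^ m) := by
      have e1 : κ k ^ (-((m : ℝ) / 2)) = ENNReal.ofReal ((2 : ℝ) ^ (2 / n * k * (-((m : ℝ) / 2)))) := by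
        simp only [hκ]
        rw [ENNReal.ofReal_rpow_of_pos (by positivity), ← Real.rpow_mul (by norm_num)]
      rw [e1, ← ENNReal.ofReal_mul (by positivity), ← ENNReal.ofReal_mul (by positivity)]
      congr 1
      have e2 : (2 : ℝ) ^ (2 / n * k * (-((m : ℝ) / 2))) * (2 ^ m * 2 ^ k) =
          ((2 : ℝ) ^ (2 / n * k * (-((m : ℝ) / 2))) * (2 : ℝ) ^ (k : ℝ)) * 2 ^ m := by
        rw [Real.rpow_natCast]
        ring
      rw [e2, ← Real.rpow_add (by norm_num)]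
      congr 2
      rw [hn]
      field_simp
      ring
    rw [h1, hR0]
    calc 1 + κ k * T0 + κ k * ENNReal.ofReal (2 ^ m) ≤ κ k + κ k * T0 + κ k * ENNReal.ofReal (2 ^ m) := by
          gcongr
          exact hκ1 k
      _ = _ := by ring
  set S0 : ℝ≥0∞ := ∑' k : ℕ, ENNReal.ofReal ((2 : ℝ) ^ (-(θ / 2) * k)) with hS0
  have hS0t : S0 ≠ ∞ := geo _ (by positivity)
  set A0 : ℝ≥0∞ := (∑' k, a k) ^ (q - 1) with hA0
  have hA0t : A0 ≠ ∞ := ENNReal.rpow_ne_top_of_nonneg (by linarith) hat2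
  have hfin : A0 * (P1 * (R0 * (ENNReal.ofReal (C7 ^ (q - 2)) * S0))) ≠ ∞ :=
    ENNReal.mul_ne_top hA0t (ENNReal.mul_ne_top hP1t (ENNReal.mul_ne_top hR0t
      (ENNReal.mul_ne_top ENNReal.ofReal_ne_top hS0t)))
  refine ⟨(A0 * (P1 * (R0 * (ENNReal.ofReal (C7 ^ (q - 2)) * S0)))).toNNReal, ?_⟩
  rw [ENNReal.coe_toNNReal hfin]
  intro p r c α hp hr hα
  have h1 : ∀ t x, ∫⁻ y : ℝ × ℝ, ‖FB p r c α y x t‖ₑ ^ q ≤ ENNReal.ofReal (Kt c t ^ q) *
      (A0 * ∑' k, w k * ∫⁻ z in SQ, UU p r c α (2 ^ k) (t, x, z)) := by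
    intro t x
    refine (fixed_tx p r c α hp hr q hq2.le a ha0 hat t x).trans ?_
    apply mul_le_mul_right
    apply mul_le_mul_right
    apply ENNReal.tsum_le_tsum
    intro k
    rw [← mul_assoc]
  refine (time_sum p r c α q A0 hA0t w hwt (fun t x => ∫⁻ y : ℝ × ℝ, ‖FB p r c α y x t‖ₑ ^ q)
    h1).trans ?_
  apply mul_le_mul_right
  rw [hS0, ← ENNReal.tsum_mul_left, ← ENNReal.tsum_mul_left, ← ENNReal.tsum_mul_left]
  apply ENNReal.tsum_le_tsum
  intro k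
  have h3 := scale p r c α hm q hq2.le (2 ^ k) (by positivity) hα (κ k) (hκ0 k) (hκt k)
  calc w k * ∫⁻ t : ℝ, ENNReal.ofReal (Kt c t ^ q) * GG p r c α (2 ^ k) t ≤
      w k * (P1 * (κ k * R0)) := by
        gcongr
        refine h3.trans ?_
        exact mul_le_mul_right (hscale k) _
    _ ≤ ENNReal.ofReal (C7 ^ (q - 2) * (2 : ℝ) ^ (-(2 / n + θ / 2) * k)) * (P1 * (κ k * R0)) := by
        gcongr
        exact hwle k
    _ = P1 * (R0 * (ENNReal.ofReal (C7 ^ (q - 2) * (2 : ℝ) ^ (-(2 / n + θ / 2) * k)) * κ k)) := by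
        ring
    _ = _ := by
        congr 2
        simp only [hκ]
        rw [← ENNReal.ofReal_mul (by positivity), ← ENNReal.ofReal_mul (by positivity), mul_assoc,
          ← Real.rpow_add (by norm_num)]
        congr 3
        ring

end Pool.Agent.Helper35.MP
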