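import Pool.Graph.R_seed8.Y183.LS.I
set_option autoImplicit false

/-! The theorem of M. Riesz for half spaces. -/

namespace Pool.Agent.Helper35.MP

open MeasureTheory Set Filter Topology Complex Matrix
open scoped ENNReal NNReal
open Pool.Agent.Y183.LS (BA FT ec dt cut Good j1 ec_norm ec_add ec_zero dt_comm FT_meas riesz)

variable {n : ℕ}

lemma dt_dot (x v : Fin n → ℝ) : dt x v = x ⬝ᵥ v := rfl

lemma dt_trans (M : Matrix (Fin n) (Fin n) ℝ) (y w : Fin n → ℝ) :
    dt (Mᵀ *ᵥ y) w = dt y (M *ᵥ w) := by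
  rw [dt_dot, dt_dot, Matrix.dotProduct_mulVec, Matrix.mulVec_transpose]

lemma dt_add' (y v w : Fin n → ℝ) : dt y (v + w) = dt y v + dt y w :=
  Pool.Agent.Y183.LS.dt_add y v w

lemma map_mat (M : Matrix (Fin n) (Fin n) ℝ) (hM : M.det ≠ 0) :
    Measure.map (fun w : Fin n → ℝ => M *ᵥ w) volume = ENNReal.ofReal |M.det⁻¹| • volume := by
  have h := Real.map_matrix_volume_pi_eq_smul_volume_pi hM
  have e : (⇑(Matrix.toLin' M) : (Fin n → ℝ) → Fin n → ℝ) = fun w => M *ᵥ w := by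
    ext w : 1
    exact Matrix.toLin'_apply M w
  rwa [e] at h

lemma mat_meas (M : Matrix (Fin n) (Fin n) ℝ) : Measurable fun w : Fin n → ℝ => M *ᵥ w :=
  (Continuous.matrix_mulVec continuous_const continuous_id).measurable

/-- linear changes of variables, nonnegative functions -/
lemma lint_mat (M : Matrix (Fin n) (Fin n) ℝ) (hM : M.det ≠ 0) (F : (Fin n → ℝ) → ℝ≥0∞)
    (hF : Measurable F) : ∫⁻ w, F (M *ᵥ w) = ENNReal.ofReal |M.det⁻¹| * ∫⁻ v, F v := by
  rw [← lintegral_map hF (mat_meas M), map_mat M hM, lintegral_smul_measure, smul_eq_mul]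

/-- affine changes of variables -/
lemma int_mat (M : Matrix (Fin n) (Fin n) ℝ) (hM : M.det ≠ 0) (a : Fin n → ℝ)
    (G : (Fin n → ℝ) → ℂ) (hG : Measurable G) :
    ∫ w, G (M *ᵥ w + a) = ((|M.det⁻¹| : ℝ) : ℂ) * ∫ v, G v := by
  have h1 : ∫ w, G (M *ᵥ w + a) = ∫ v, G (v + a) ∂(Measure.map (fun w : Fin n → ℝ => M *ᵥ w) volume) := by
    rw [integral_map (mat_meas M).aemeasurable]
    exact (hG.comp (measurable_id.add_const a)).aestronglyMeasurable
  rw [h1, map_mat M hM, integral_smul_measure, integral_add_right_eq_self (fun v => G v) a,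
    ENNReal.toReal_ofReal (abs_nonneg _)]
  rw [Complex.real_smul]

/-- the transform after an affine change of variables -/
lemma FT_aff (M : Matrix (Fin n) (Fin n) ℝ) (hM : M.det ≠ 0) (a : Fin n → ℝ)
    (H : (Fin n → ℝ) → ℂ) (hH : Measurable H) (y : Fin n → ℝ) :
    FT (fun w => H (M *ᵥ w + a)) (Mᵀ *ᵥ y) = ec (-(dt y a)) * (((|M.det⁻¹| : ℝ) : ℂ) * FT H y) := by
  unfold FT
  have hm : Measurable fun v : Fin n → ℝ => ec (dt y v) := by
    unfold ec dt
    fun_prop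
  rw [← int_mat M hM a (fun v => H v * ec (dt y v)) (hH.mul hm), ← integral_const_mul]
  congr 1
  ext w
  rw [dt_trans, dt_add', mul_left_comm, ← ec_add]
  congr 2
  ring

/-- the norm of the transform after an affine change of variables -/
lemma FT_aff_norm (M : Matrix (Fin n) (Fin n) ℝ) (hM : M.det ≠ 0) (a : Fin n → ℝ) (q : ℝ)
    (hq : 0 ≤ q) (H : (Fin n → ℝ) → ℂ) (hH : Measurable H) :
    ENNReal.ofReal |M.det⁻¹| * ∫⁻ y, ‖FT (fun w => H (M *ᵥ w + a)) y‖ₑ ^ q =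
      ENNReal.ofReal |M.det⁻¹| ^ q * ∫⁻ y, ‖FT H y‖ₑ ^ q := by
  have hT : Mᵀ.det ≠ 0 := by rwa [Matrix.det_transpose]
  have hH' : Measurable fun w => H (M *ᵥ w + a) := hH.comp ((mat_meas M).add_const a)
  have h1 := lint_mat Mᵀ hT (fun y => ‖FT (fun w => H (M *ᵥ w + a)) y‖ₑ ^ q)
    ((FT_meas hH').enorm.pow_const q)
  rw [Matrix.det_transpose] at h1
  rw [← h1, ← lintegral_const_mul' _ _ (ENNReal.rpow_ne_top_of_nonneg hq ENNReal.ofReal_ne_top)]
  apply lintegral_congr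
  intro y
  rw [FT_aff M hM a H hH, enorm_mul, enorm_mul, ENNReal.mul_rpow_of_nonneg _ _ hq,
    ENNReal.mul_rpow_of_nonneg _ _ hq]
  have e1 : ‖ec (-(dt y a))‖ₑ = 1 := by rw [← ofReal_norm, ec_norm, ENNReal.ofReal_one]
  have e2 : ‖((|M.det⁻¹| : ℝ) : ℂ)‖ₑ = ENNReal.ofReal |M.det⁻¹| := by
    rw [← ofReal_norm, Complex.norm_real, Real.norm_eq_abs, abs_abs]
  rw [e1, e2, ENNReal.one_rpow, one_mul]

/-- bounded measurable functions vanishing off a bounded set -/
structure Bd (H : (Fin n → ℝ) → ℂ) : Prop where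
  meas : Measurable H
  bdd : ∃ B : ℝ, ∀ v, ‖H v‖ ≤ B
  supp : ∃ ρ : ℝ, ∀ v, v ∉ BA ρ n → H v = 0

/-- the half space -/
def hs (e : Fin n → ℝ) (b : ℝ) : Set (Fin n → ℝ) := {v | ∑ k, e k * v k ≤ b}

lemma hs_meas (e : Fin n → ℝ) (b : ℝ) : MeasurableSet (hs e b) :=
  (isClosed_le (by fun_prop) continuous_const).measurableSet

lemma Bd.ind {H : (Fin n → ℝ) → ℂ} (h : Bd H) {S : Set (Fin n → ℝ)} (hS : MeasurableSet S) :
    Bd (S.indicator H) := by
  obtain ⟨h1, ⟨B, h2⟩, ⟨ρ, h3⟩⟩ := h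
  refine ⟨h1.indicator hS, ⟨B, fun v => ?_⟩, ⟨ρ, fun v hv => ?_⟩⟩
  · by_cases hv : v ∈ S
    · rw [indicator_of_mem hv]
      exact h2 v
    · rw [indicator_of_notMem hv, norm_zero]
      exact (norm_nonneg _).trans (h2 v)
  · by_cases hv' : v ∈ S
    · rw [indicator_of_mem hv', h3 v hv]
    · rw [indicator_of_notMem hv']

lemma Bd.mul {H : (Fin n → ℝ) → ℂ} (h : Bd H) {g : (Fin n → ℝ) → ℂ} (hg : Measurable g)
    (hb : ∃ B : ℝ, ∀ v, ‖g v‖ ≤ B) : Bd (fun v => H v * g v) := by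
  obtain ⟨h1, ⟨B, h2⟩, ⟨ρ, h3⟩⟩ := h
  obtain ⟨B', h4⟩ := hb
  refine ⟨h1.mul hg, ⟨B * B', fun v => ?_⟩, ⟨ρ, fun v hv => ?_⟩⟩
  · rw [norm_mul]
    exact mul_le_mul (h2 v) (h4 v) (norm_nonneg _) ((norm_nonneg _).trans (h2 v))
  · rw [h3 v hv, zero_mul]

lemma det_upd (e : Fin n → ℝ) (i : Fin n) :
    (Matrix.updateRow (1 : Matrix (Fin n) (Fin n) ℝ) i e).det = e i := by
  have h1 : (Matrix.updateRow (1 : Matrix (Fin n) (Fin n) ℝ) i e).det =
      Matrix.cramer (1 : Matrix (Fin n) (Fin n) ℝ) e i := by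
    rw [Matrix.cramer_apply, ← Matrix.det_transpose, ← Matrix.updateCol_transpose,
      Matrix.transpose_one]
  rw [h1, Matrix.cramer_one]
  rfl

lemma upd_mulVec (e : Fin n → ℝ) (i : Fin n) (v : Fin n → ℝ) (k : Fin n) :
    (Matrix.updateRow (1 : Matrix (Fin n) (Fin n) ℝ) i e *ᵥ v) k =
      if k = i then ∑ j, e j * v j else v k := by
  show (Matrix.updateRow (1 : Matrix (Fin n) (Fin n) ℝ) i e k) ⬝ᵥ v = _
  by_cases h : k = i
  · rw [if_pos h, h, Matrix.updateRow_self]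
    rfl
  · rw [if_neg h, Matrix.updateRow_ne h]
    exact congrFun (Matrix.one_mulVec v) k

/-- **the theorem of M. Riesz for half spaces** -/
theorem riesz_half (q : ℝ) (hq : 1 < q) : ∃ C : ℝ≥0, 1 ≤ C ∧ ∀ (n : ℕ) (H : (Fin n → ℝ) → ℂ), Bd H →
    ∀ (e : Fin n → ℝ) (b : ℝ),
      ∫⁻ y, ‖FT ((hs e b).indicator H) y‖ₑ ^ q ≤ C * ∫⁻ y, ‖FT H y‖ₑ ^ q := by
  obtain ⟨C, hC⟩ := riesz q hq
  refine ⟨C + 1, le_add_self, ?_⟩
  intro n H hH e b
  have hq0 : 0 ≤ q := by linarith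
  have h1C : ∫⁻ y, ‖FT H y‖ₑ ^ q ≤ ((C + 1 : ℝ≥0) : ℝ≥0∞) * ∫⁻ y, ‖FT H y‖ₑ ^ q := by
    calc ∫⁻ y, ‖FT H y‖ₑ ^ q = 1 * ∫⁻ y, ‖FT H y‖ₑ ^ q := (one_mul _).symm
      _ ≤ _ := by
        gcongr
        exact_mod_cast (le_add_self : (1 : ℝ≥0) ≤ C + 1)
  by_cases he : e = 0
  · by_cases hb : 0 ≤ b
    · have h2 : (hs e b).indicator H = H := by
        ext v
        rw [indicator_of_mem]
        simp [hs, he, hb]
      rw [h2]
      exact h1C
    · have h2 : (hs e b).indicator H = fun _ => 0 := by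
        ext v
        rw [indicator_of_notMem]
        simpa [hs, he] using hb
      rw [h2]
      have h3 : ∀ y : Fin n → ℝ, FT (fun _ => (0 : ℂ)) y = 0 := by
        intro y
        simp [FT]
      simp only [h3, enorm_zero]
      rw [ENNReal.zero_rpow_of_pos (by linarith)]
      simp
  obtain ⟨i, hi⟩ : ∃ i, e i ≠ 0 := by
    by_contra hc
    push Not at hc
    exact he (funext hc)
  obtain ⟨hm, ⟨B, hB⟩, ⟨ρ', hρ'⟩⟩ := hH
  set ρ : ℝ := max ρ' 0 with hρd
  have hρ0 : 0 ≤ ρ := le_max_right _ _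
  have hρ : ∀ v, H v ≠ 0 → ∀ k, |v k| ≤ ρ := by
    intro v hv k
    have h1 : v ∈ BA ρ' n := by
      by_contra hc
      exact hv (hρ' v hc)
    have h2 := h1.1 k
    have h3 := h1.2 k
    simp only at h2 h3
    exact (abs_le.mpr ⟨h2, h3⟩).trans (le_max_left _ _)
  -- the scale
  set A : ℝ := 1 + ∑ k, |e k| with hA
  have hA0 : 0 ≤ ∑ k, |e k| := Finset.sum_nonneg fun k _ => abs_nonneg _
  set s : ℝ := 1 + 2 * ρ * A + 2 * |b| with hs'
  have hs0 : 0 < s := by
    rw [hs']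
    positivity
  set N : Matrix (Fin n) (Fin n) ℝ := Matrix.updateRow 1 i e with hN
  have hNd : N.det ≠ 0 := by
    rw [hN, det_upd]
    exact hi
  have hNu : IsUnit N.det := isUnit_iff_ne_zero.mpr hNd
  set M : Matrix (Fin n) (Fin n) ℝ := s • N⁻¹ with hM
  have hMd : M.det ≠ 0 := by
    rw [hM, Matrix.det_smul]
    refine mul_ne_zero (pow_ne_zero _ hs0.ne') ?_
    rw [Matrix.det_nonsing_inv, Ring.inverse_eq_inv']
    exact inv_ne_zero hNd
  have hNM : ∀ w, N *ᵥ (M *ᵥ w) = s • w := by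
    intro w
    rw [hM, Matrix.smul_mulVec, Matrix.mulVec_smul, Matrix.mulVec_mulVec,
      Matrix.mul_nonsing_inv _ hNu, Matrix.one_mulVec]
  have he1 : ∀ w, ∑ k, e k * (M *ᵥ w) k = s * w i := by
    intro w
    have h1 := congrFun (hNM w) i
    rw [hN, upd_mulVec, if_pos rfl] at h1
    rw [h1]
    rfl
  have hs1 : ∀ w, H (M *ᵥ w) ≠ 0 → ∀ k, |w k| ≤ 1 / 2 := by
    intro w hw k
    have h1 := congrFun (hNM w) k
    rw [hN, upd_mulVec] at h1
    have h2 : |s * w k| ≤ ρ * A := by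
      have e2 : s * w k = (s • w) k := rfl
      rw [e2, ← h1]
      by_cases hk : k = i
      · rw [if_pos hk]
        calc |∑ j, e j * (M *ᵥ w) j| ≤ ∑ j, |e j * (M *ᵥ w) j| := Finset.abs_sum_le_sum_abs _ _
          _ ≤ ∑ j, |e j| * ρ := by
              apply Finset.sum_le_sum
              intro j _
              rw [abs_mul]
              exact mul_le_mul_of_nonneg_left (hρ _ hw j) (abs_nonneg _)
          _ = ρ * ∑ j, |e j| := by rw [← Finset.sum_mul, mul_comm]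
          _ ≤ ρ * A := by
              rw [hA]
              nlinarith
      · rw [if_neg hk]
        refine (hρ _ hw k).trans ?_
        rw [hA]
        nlinarith
    rw [abs_mul, abs_of_pos hs0] at h2
    have h3 : ρ * A ≤ s / 2 := by
      rw [hs']
      have := abs_nonneg b
      linarith
    have h4 : s * |w k| ≤ s * (1 / 2) := by linarith
    exact le_of_mul_le_mul_left h4 hs0
  set β : ℝ := b / s with hβ
  have hβ1 : |β| ≤ 1 / 2 := by
    rw [hβ, abs_div, abs_of_pos hs0, div_le_iff₀ hs0, hs']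
    have : 0 ≤ ρ * A := by
      rw [hA]
      positivity
    linarith [abs_nonneg b]
  set d : Fin n → ℝ := Pi.single i (β - 1) with hd
  set a : Fin n → ℝ := M *ᵥ d with ha
  set H' : (Fin n → ℝ) → ℂ := fun u => H (M *ᵥ u + a) with hH'
  have hMa : ∀ u, M *ᵥ u + a = M *ᵥ (u + d) := by
    intro u
    rw [ha, Matrix.mulVec_add]
  have hdi : d i = β - 1 := by simp [hd]
  have hdk : ∀ k, k ≠ i → d k = 0 := by
    intro k hk
    simp [hd, hk]
  have hsup : ∀ u, H' u ≠ 0 → (0 ≤ u i ∧ u i ≤ 2) ∧ ∀ k, |u k| ≤ 2 := by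
    intro u hu
    simp only [hH', hMa] at hu
    have h1 := hs1 _ hu
    have h2 := abs_le.mp (h1 i)
    rw [Pi.add_apply, hdi] at h2
    have h3 := abs_le.mp hβ1
    have h4 : 0 ≤ u i ∧ u i ≤ 2 := ⟨by linarith [h2.1, h3.2], by linarith [h2.2, h3.1]⟩
    refine ⟨h4, fun k => ?_⟩
    by_cases hk : k = i
    · rw [hk, abs_of_nonneg h4.1]
      exact h4.2
    · have h5 := h1 k
      rw [Pi.add_apply, hdk k hk, add_zero] at h5
      linarith
  have hH'm : Measurable H' := hm.comp ((mat_meas M).add_const a)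
  have hgood : Good H' := by
    refine ⟨hH'm, ?_, ?_⟩
    · have hz : ∀ u, u ∉ BA 2 n → H' u = 0 := by
        intro u hu
        by_contra hc
        have h5 := (hsup u hc).2
        exact hu ⟨fun k => (abs_le.mp (h5 k)).1, fun k => (abs_le.mp (h5 k)).2⟩
      have h6 : ∫⁻ v, ‖H' v‖ₑ ^ 2 ≤ ∫⁻ v, (BA 2 n).indicator (fun _ => ENNReal.ofReal (B ^ 2)) v := by
        apply lintegral_mono
        intro v
        simp only
        by_cases hv : v ∈ BA 2 n
        · rw [indicator_of_mem hv, ← ofReal_norm, ← ENNReal.ofReal_pow (norm_nonneg _)]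
          apply ENNReal.ofReal_le_ofReal
          exact pow_le_pow_left₀ (norm_nonneg _) (hB _) 2
        · rw [hz v hv]
          simp
      rw [lintegral_indicator_const measurableSet_Icc] at h6
      exact ne_top_of_le_ne_top (ENNReal.mul_ne_top ENNReal.ofReal_ne_top
        (Pool.Agent.Y183.LS.BA_fin 2).ne) h6
    · intro u hu
      by_contra hc
      have h5 := (hsup u hc).2
      exact hu ⟨fun k => (abs_le.mp (h5 k)).1, fun k => (abs_le.mp (h5 k)).2⟩
  have hcut : (fun u => (hs e b).indicator H (M *ᵥ u + a)) = cut i H' := by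
    ext u
    unfold cut
    by_cases hu : H' u = 0
    · rw [hu, zero_mul]
      by_cases h7 : M *ᵥ u + a ∈ hs e b
      · rw [indicator_of_mem h7]
        exact hu
      · rw [indicator_of_notMem h7]
    · have h8 := (hsup u hu).1
      have h9 : M *ᵥ u + a ∈ hs e b ↔ u i ≤ 1 := by
        show ∑ k, e k * (M *ᵥ u + a) k ≤ b ↔ u i ≤ 1
        rw [hMa, he1, Pi.add_apply, hdi]
        have hb' : b = s * β := by
          rw [hβ]
          field_simp
        constructor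
        · intro h10
          have h11 : s * (u i + (β - 1)) ≤ s * β := by rw [← hb']; exact h10
          have := le_of_mul_le_mul_left h11 hs0
          linarith
        · intro h10
          rw [hb']
          apply mul_le_mul_of_nonneg_left _ hs0.le
          linarith
      unfold j1
      by_cases h7 : M *ᵥ u + a ∈ hs e b
      · rw [indicator_of_mem h7, indicator_of_mem (show u i ∈ Icc (-1 : ℝ) 1 from
          ⟨by linarith [h8.1], h9.mp h7⟩), mul_one]
      · rw [indicator_of_notMem h7, indicator_of_notMem (show u i ∉ Icc (-1 : ℝ) 1 from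
          fun h12 => h7 (h9.mpr h12.2)), mul_zero]
  have hr := hC n H' hgood i
  have f1 := FT_aff_norm M hMd a q hq0 H hm
  have f2 := FT_aff_norm M hMd a q hq0 ((hs e b).indicator H) (hm.indicator (hs_meas e b))
  rw [hcut] at f2
  have hc0 : ENNReal.ofReal |M.det⁻¹| ≠ 0 := by
    rw [ne_eq, ENNReal.ofReal_eq_zero, not_le]
    exact abs_pos.mpr (inv_ne_zero hMd)
  have hcq0 : ENNReal.ofReal |M.det⁻¹| ^ q ≠ 0 := by
    rw [ne_eq, ENNReal.rpow_eq_zero_iff]
    rintro (⟨h13, -⟩ | ⟨h13, -⟩)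
    · exact hc0 h13
    · exact ENNReal.ofReal_ne_top h13
  have hcqt : ENNReal.ofReal |M.det⁻¹| ^ q ≠ ∞ :=
    ENNReal.rpow_ne_top_of_nonneg hq0 ENNReal.ofReal_ne_top
  have key : ENNReal.ofReal |M.det⁻¹| ^ q * ∫⁻ y, ‖FT ((hs e b).indicator H) y‖ₑ ^ q ≤
      ENNReal.ofReal |M.det⁻¹| ^ q * (((C + 1 : ℝ≥0) : ℝ≥0∞) * ∫⁻ y, ‖FT H y‖ₑ ^ q) := by
    rw [← f2, mul_left_comm, ← f1, mul_left_comm]
    apply mul_le_mul_right
    refine hr.trans ?_
    gcongr
    exact_mod_cast (le_self_add : C ≤ C + 1)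
  exact (ENNReal.mul_le_mul_iff_right hcq0 hcqt).mp key

end Pool.Agent.Helper35.MP
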