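import Pool.Agent.Helper35.MP.R
set_option autoImplicit false

/-! The extension operator; cutting by half spaces, superpositions, smooth multipliers. -/

namespace Pool.Agent.Helper35.MP

open MeasureTheory Set Filter Topology Complex Matrix
open scoped ENNReal NNReal
open Pool.Agent.Y183.LS (BA FT ec dt cut Good j1 ec_norm ec_add ec_zero dt_comm FT_meas riesz sq2)

variable {n : ℕ}

lemma ec_cont : Continuous ec := by unfold ec; fun_prop

lemma sq2_cont : Continuous (sq2 (m := n)) := by unfold sq2; fun_prop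

lemma ec_enorm (x : ℝ) : ‖ec x‖ₑ = 1 := by rw [← ofReal_norm, ec_norm, ENNReal.ofReal_one]

/-- the extension operator -/
noncomputable def EE (f : (Fin n → ℝ) → ℂ) (x : Fin n → ℝ) (t : ℝ) : ℂ :=
  FT (fun v => f v * ec (t * sq2 v)) x

/-- the norm to the power `q` -/
noncomputable def JJ (q : ℝ) (f : (Fin n → ℝ) → ℂ) : ℝ≥0∞ := ∫⁻ t : ℝ, ∫⁻ x : Fin n → ℝ, ‖EE f x t‖ₑ ^ q

lemma EE_eq (f : (Fin n → ℝ) → ℂ) (x : Fin n → ℝ) (t : ℝ) :
    EE f x t = ∫ v, f v * ec (dt x v + t * sq2 v) := by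
  unfold EE FT
  congr 1
  ext v
  rw [mul_assoc, ← ec_add, add_comm]

lemma phase_meas : Measurable fun w : ((Fin n → ℝ) × ℝ) × (Fin n → ℝ) =>
    ec (dt w.1.1 w.2 + w.1.2 * sq2 w.2) := by
  apply ec_cont.measurable.comp
  unfold dt sq2
  fun_prop

lemma EE_meas {f : (Fin n → ℝ) → ℂ} (hf : Measurable f) :
    Measurable fun w : (Fin n → ℝ) × ℝ => EE f w.1 w.2 := by
  simp only [EE_eq]
  apply StronglyMeasurable.measurable
  apply StronglyMeasurable.integral_prod_right'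
    (f := fun w : ((Fin n → ℝ) × ℝ) × (Fin n → ℝ) => f w.2 * ec (dt w.1.1 w.2 + w.1.2 * sq2 w.2))
  exact ((hf.comp measurable_snd).mul phase_meas).stronglyMeasurable

lemma JJ_prod (q : ℝ) {f : (Fin n → ℝ) → ℂ} (hf : Measurable f) :
    JJ q f = ∫⁻ w : (Fin n → ℝ) × ℝ, ‖EE f w.1 w.2‖ₑ ^ q := by
  unfold JJ
  rw [Measure.volume_eq_prod, lintegral_prod_symm _ ((EE_meas hf).enorm.pow_const q).aemeasurable]

/-- cutting by a half space -/
lemma JJ_half (q : ℝ) (hq : 1 < q) : ∃ C : ℝ≥0, 1 ≤ C ∧ ∀ (n : ℕ) (f : (Fin n → ℝ) → ℂ), Bd f →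
    ∀ (e : Fin n → ℝ) (b : ℝ), JJ q ((hs e b).indicator f) ≤ C * JJ q f := by
  obtain ⟨C, hC1, hC⟩ := riesz_half q hq
  refine ⟨C, hC1, ?_⟩
  intro n f hf e b
  unfold JJ
  rw [← lintegral_const_mul' _ _ ENNReal.coe_ne_top]
  apply lintegral_mono
  intro t
  have hbd : Bd (fun v => f v * ec (t * sq2 v)) := by
    apply hf.mul
    · exact (ec_cont.comp (continuous_const.mul sq2_cont)).measurable
    · exact ⟨1, fun v => (ec_norm _).le⟩
  have h1 := hC n _ hbd e b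
  have e1 : (hs e b).indicator (fun v => f v * ec (t * sq2 v)) =
      fun v => (hs e b).indicator f v * ec (t * sq2 v) := by
    ext v
    by_cases h : v ∈ hs e b
    · rw [indicator_of_mem h, indicator_of_mem h]
    · rw [indicator_of_notMem h, indicator_of_notMem h, zero_mul]
  rw [e1] at h1
  exact h1

/-- a polyhedron -/
def Pg {ι : Type*} (s : Finset ι) (A : ι → Fin n → ℝ) (b : ι → ℝ) : Set (Fin n → ℝ) :=
  {v | ∀ l ∈ s, v ∈ hs (A l) (b l)}

lemma Pg_meas {ι : Type*} (s : Finset ι) (A : ι → Fin n → ℝ) (b : ι → ℝ) :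
    MeasurableSet (Pg s A b) := by
  have e : Pg s A b = ⋂ l ∈ s, hs (A l) (b l) := by
    ext v
    simp [Pg]
  rw [e]
  exact Finset.measurableSet_biInter s fun l _ => hs_meas _ _

/-- cutting by a polyhedron -/
lemma JJ_poly (q : ℝ) (hq : 1 < q) : ∃ C : ℝ≥0, 1 ≤ C ∧ ∀ (n : ℕ) (f : (Fin n → ℝ) → ℂ), Bd f →
    ∀ (ι : Type) (s : Finset ι) (A : ι → Fin n → ℝ) (b : ι → ℝ),
      JJ q ((Pg s A b).indicator f) ≤ C ^ s.card * JJ q f := by
  obtain ⟨C, hC1, hC⟩ := JJ_half q hq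
  refine ⟨C, hC1, ?_⟩
  intro n f hf ι s A b
  classical
  induction s using Finset.induction_on with
  | empty =>
    have e : (Pg (∅ : Finset ι) A b).indicator f = f := by
      ext v
      rw [indicator_of_mem]
      simp [Pg]
    rw [e]
    simp
  | insert l s hl ih =>
    have e : (Pg (insert l s) A b).indicator f =
        (hs (A l) (b l)).indicator ((Pg s A b).indicator f) := by
      rw [indicator_indicator]
      congr 1
      ext v
      simp [Pg]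
    rw [e, Finset.card_insert_of_notMem hl, pow_succ]
    refine (hC n _ (hf.ind (Pg_meas s A b)) (A l) (b l)).trans ?_
    calc (C : ℝ≥0∞) * JJ q ((Pg s A b).indicator f) ≤ C * (C ^ s.card * JJ q f) := by gcongr
      _ = _ := by ring

/-- Hölder's inequality -/
lemma hol {Ω : Type*} [MeasurableSpace Ω] (μ : Measure Ω) (q : ℝ) (hq : 1 < q) (α g : Ω → ℝ≥0∞)
    (hα : Measurable α) (hg : Measurable g) :
    (∫⁻ ω, α ω * g ω ∂μ) ^ q ≤ (∫⁻ ω, α ω ∂μ) ^ (q - 1) * ∫⁻ ω, α ω * g ω ^ q ∂μ := by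
  have hq0 : 0 < q := by linarith
  set p : ℝ := q / (q - 1) with hp
  have hq1 : 0 < q - 1 := by linarith
  have hp0 : 0 < p := by rw [hp]; positivity
  have hpq : p.HolderConjugate q := (Real.HolderConjugate.conjExponent hq).symm
  have h1p : 1 / p = (q - 1) / q := by rw [hp]; field_simp
  have hsum : 1 / p + 1 / q = 1 := by
    rw [h1p]
    field_simp
    ring
  have h := ENNReal.lintegral_mul_le_Lp_mul_Lq μ hpq (f := fun ω => α ω ^ (1 / p))
    (g := fun ω => α ω ^ (1 / q) * g ω) (hα.pow_const _).aemeasurable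
    ((hα.pow_const _).mul hg).aemeasurable
  have e1 : ∀ ω, ((fun ω => α ω ^ (1 / p)) * fun ω => α ω ^ (1 / q) * g ω) ω = α ω * g ω := by
    intro ω
    simp only [Pi.mul_apply]
    rw [← mul_assoc, ← ENNReal.rpow_add_of_nonneg _ _ (by positivity) (by positivity), hsum,
      ENNReal.rpow_one]
  have e2 : ∀ ω, (α ω ^ (1 / p)) ^ p = α ω := by
    intro ω
    rw [← ENNReal.rpow_mul, one_div_mul_cancel hp0.ne', ENNReal.rpow_one]
  have e3 : ∀ ω, (α ω ^ (1 / q) * g ω) ^ q = α ω * g ω ^ q := by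
    intro ω
    rw [ENNReal.mul_rpow_of_nonneg _ _ hq0.le, ← ENNReal.rpow_mul, one_div_mul_cancel hq0.ne',
      ENNReal.rpow_one]
  simp only [e1, e2, e3] at h
  calc (∫⁻ ω, α ω * g ω ∂μ) ^ q ≤
      ((∫⁻ ω, α ω ∂μ) ^ (1 / p) * (∫⁻ ω, α ω * g ω ^ q ∂μ) ^ (1 / q)) ^ q :=
        ENNReal.rpow_le_rpow h hq0.le
    _ = _ := by
        rw [ENNReal.mul_rpow_of_nonneg _ _ hq0.le, ← ENNReal.rpow_mul, ← ENNReal.rpow_mul,
          one_div_mul_cancel hq0.ne', ENNReal.rpow_one, h1p, div_mul_cancel₀ _ hq0.ne']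

/-- superposition of functions of two groups of variables -/
lemma sup_gen {Ω Y : Type*} [MeasurableSpace Ω] [MeasurableSpace Y] (μ : Measure Ω) [SFinite μ]
    (ν : Measure Y) [SFinite ν] (q : ℝ) (hq : 1 < q) (α : Ω → ℝ≥0∞) (hα : Measurable α)
    (hαt : ∫⁻ ω, α ω ∂μ ≠ ∞) (G : Ω × Y → ℝ≥0∞) (hG : Measurable G) (J : ℝ≥0∞)
    (hJ : ∀ ω, ∫⁻ y, G (ω, y) ^ q ∂ν ≤ J) :
    ∫⁻ y, (∫⁻ ω, α ω * G (ω, y) ∂μ) ^ q ∂ν ≤ (∫⁻ ω, α ω ∂μ) ^ q * J := by
  have hq0 : 0 < q := by linarith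
  have hm : Measurable fun w : Y × Ω => α w.2 * G (w.2, w.1) ^ q :=
    (hα.comp measurable_snd).mul ((hG.comp (measurable_snd.prodMk measurable_fst)).pow_const q)
  calc ∫⁻ y, (∫⁻ ω, α ω * G (ω, y) ∂μ) ^ q ∂ν ≤
      ∫⁻ y, (∫⁻ ω, α ω ∂μ) ^ (q - 1) * ∫⁻ ω, α ω * G (ω, y) ^ q ∂μ ∂ν := by
        apply lintegral_mono
        intro y
        exact hol μ q hq α (fun ω => G (ω, y)) hα (hG.comp (measurable_id.prodMk measurable_const))
    _ = (∫⁻ ω, α ω ∂μ) ^ (q - 1) * ∫⁻ y, ∫⁻ ω, α ω * G (ω, y) ^ q ∂μ ∂ν :=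
        lintegral_const_mul' _ _ (ENNReal.rpow_ne_top_of_nonneg (by linarith) hαt)
    _ = (∫⁻ ω, α ω ∂μ) ^ (q - 1) * ∫⁻ ω, ∫⁻ y, α ω * G (ω, y) ^ q ∂ν ∂μ := by
        rw [lintegral_lintegral_swap hm.aemeasurable]
    _ ≤ (∫⁻ ω, α ω ∂μ) ^ (q - 1) * ∫⁻ ω, α ω * J ∂μ := by
        gcongr with ω
        have hGω : Measurable fun y => G (ω, y) := hG.comp (measurable_const.prodMk measurable_id)
        rw [lintegral_const_mul _ (hGω.pow_const q)]
        gcongr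
        exact hJ ω
    _ = (∫⁻ ω, α ω ∂μ) ^ (q - 1) * ((∫⁻ ω, α ω ∂μ) ^ (1 : ℝ) * J) := by
        rw [lintegral_mul_const _ hα, ENNReal.rpow_one]
    _ = _ := by
        rw [← mul_assoc, ← ENNReal.rpow_add_of_nonneg _ _ (by linarith) (by norm_num)]
        congr 2
        ring

end Pool.Agent.Helper35.MP
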