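import Pool.Agent.Helper35.MP.T
set_option autoImplicit false

/-! Superpositions, smooth multipliers, rotations. -/

namespace Pool.Agent.Helper35.MP

open MeasureTheory Set Filter Topology Complex Matrix
open scoped ENNReal NNReal
open Pool.Agent.Y183.LS (BA FT ec dt cut Good j1 ec_norm ec_add ec_zero dt_comm FT_meas riesz sq2)

variable {n : ℕ}

/-- **superpositions** -/
theorem JJ_super {Ω : Type*} [MeasurableSpace Ω] (μ : Measure Ω) [SFinite μ] (q : ℝ) (hq : 1 < q)
    (a : Ω → ℂ) (ha : Measurable a) (hat : ∫⁻ ω, ‖a ω‖ₑ ∂μ ≠ ∞)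
    (F : Ω × (Fin n → ℝ) → ℂ) (hF : Measurable F) (g : (Fin n → ℝ) → ℝ) (hg : Integrable g)
    (hFg : ∀ ω v, ‖F (ω, v)‖ ≤ g v) (J : ℝ≥0∞) (hJ : ∀ ω, JJ q (fun v => F (ω, v)) ≤ J) :
    JJ q (fun v => ∫ ω, a ω * F (ω, v) ∂μ) ≤ (∫⁻ ω, ‖a ω‖ₑ ∂μ) ^ q * J := by
  have hai : Integrable a μ := ⟨ha.aestronglyMeasurable, lt_top_iff_ne_top.mpr hat⟩
  have hm1 : Measurable fun v => ∫ ω, a ω * F (ω, v) ∂μ := by
    apply StronglyMeasurable.measurable
    apply StronglyMeasurable.integral_prod_right'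
      (f := fun w : (Fin n → ℝ) × Ω => a w.2 * F (w.2, w.1))
    exact ((ha.comp measurable_snd).mul (hF.comp (measurable_snd.prodMk measurable_fst))).stronglyMeasurable
  rw [JJ_prod q hm1]
  have hEm : Measurable fun w : Ω × ((Fin n → ℝ) × ℝ) => EE (fun v => F (w.1, v)) w.2.1 w.2.2 := by
    simp only [EE_eq]
    apply StronglyMeasurable.measurable
    apply StronglyMeasurable.integral_prod_right'
      (f := fun w : (Ω × ((Fin n → ℝ) × ℝ)) × (Fin n → ℝ) =>
        F (w.1.1, w.2) * ec (dt w.1.2.1 w.2 + w.1.2.2 * sq2 w.2))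
    apply Measurable.stronglyMeasurable
    apply Measurable.mul
    · exact hF.comp (by fun_prop)
    · exact phase_meas.comp (f := fun w : (Ω × ((Fin n → ℝ) × ℝ)) × (Fin n → ℝ) => (w.1.2, w.2))
        (by fun_prop)
  have hpt : ∀ w : (Fin n → ℝ) × ℝ, ‖EE (fun v => ∫ ω, a ω * F (ω, v) ∂μ) w.1 w.2‖ₑ ≤
      ∫⁻ ω, ‖a ω‖ₑ * ‖EE (fun v => F (ω, v)) w.1 w.2‖ₑ ∂μ := by
    rintro ⟨x, t⟩
    simp only
    have hint : Integrable (Function.uncurry fun (v : Fin n → ℝ) (ω : Ω) =>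
        (a ω * F (ω, v)) * ec (dt x v + t * sq2 v)) ((volume : Measure (Fin n → ℝ)).prod μ) := by
      have h1 : Integrable (fun w : (Fin n → ℝ) × Ω => g w.1 * ‖a w.2‖)
          ((volume : Measure (Fin n → ℝ)).prod μ) := hg.mul_prod hai.norm
      refine h1.mono' ?_ ?_
      · apply Measurable.aestronglyMeasurable
        apply Measurable.mul
        · exact (ha.comp measurable_snd).mul (hF.comp (measurable_snd.prodMk measurable_fst))
        · apply ec_cont.measurable.comp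
          unfold dt sq2
          fun_prop
      · apply ae_of_all
        rintro ⟨v, ω⟩
        simp only [Function.uncurry_apply_pair]
        rw [norm_mul, norm_mul, ec_norm, mul_one, mul_comm]
        exact mul_le_mul_of_nonneg_right (hFg ω v) (norm_nonneg _)
    have e1 : EE (fun v => ∫ ω, a ω * F (ω, v) ∂μ) x t =
        ∫ ω, a ω * EE (fun v => F (ω, v)) x t ∂μ := by
      rw [EE_eq]
      have e2 : ∀ v, (∫ ω, a ω * F (ω, v) ∂μ) * ec (dt x v + t * sq2 v) =
          ∫ ω, (a ω * F (ω, v)) * ec (dt x v + t * sq2 v) ∂μ := by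
        intro v
        rw [integral_mul_const]
      simp only [e2]
      rw [integral_integral_swap hint]
      congr 1
      ext ω
      rw [EE_eq, ← integral_const_mul]
      congr 1
      ext v
      ring
    rw [e1]
    refine (enorm_integral_le_lintegral_enorm _).trans (le_of_eq ?_)
    congr 1
    ext ω
    rw [enorm_mul]
  calc ∫⁻ w : (Fin n → ℝ) × ℝ, ‖EE (fun v => ∫ ω, a ω * F (ω, v) ∂μ) w.1 w.2‖ₑ ^ q ≤
      ∫⁻ w : (Fin n → ℝ) × ℝ, (∫⁻ ω, ‖a ω‖ₑ * ‖EE (fun v => F (ω, v)) w.1 w.2‖ₑ ∂μ) ^ q := by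
        apply lintegral_mono
        intro w
        exact ENNReal.rpow_le_rpow (hpt w) (by linarith)
    _ ≤ _ := by
        apply sup_gen μ (volume : Measure ((Fin n → ℝ) × ℝ)) q hq (fun ω => ‖a ω‖ₑ) ha.enorm hat
          (fun w => ‖EE (fun v => F (w.1, v)) w.2.1 w.2.2‖ₑ) hEm.enorm J
        intro ω
        have hFω : Measurable fun v => F (ω, v) := hF.comp (measurable_const.prodMk measurable_id)
        rw [← JJ_prod q hFω]
        exact hJ ω

/-- modulations -/
lemma JJ_mod (q : ℝ) (f : (Fin n → ℝ) → ℂ) (y : Fin n → ℝ) :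
    JJ q (fun v => ec (dt y v) * f v) = JJ q f := by
  unfold JJ
  apply lintegral_congr
  intro t
  have e : ∀ x, EE (fun v => ec (dt y v) * f v) x t = EE f (x + y) t := by
    intro x
    rw [EE_eq, EE_eq]
    congr 1
    ext v
    have e2 : dt (x + y) v = dt x v + dt y v := by
      rw [dt_comm, dt_add', dt_comm v x, dt_comm v y]
    rw [e2, mul_comm (ec (dt y v)) (f v), mul_assoc, ← ec_add]
    congr 2
    ring
  simp only [e]
  exact lintegral_add_right_eq_self (fun x => ‖EE f x t‖ₑ ^ q) y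

/-- **smooth multipliers** -/
theorem JJ_mult (q : ℝ) (hq : 1 < q) (k : (Fin n → ℝ) → ℂ) (hk : Measurable k)
    (hkt : ∫⁻ y, ‖k y‖ₑ ≠ ∞) (f : (Fin n → ℝ) → ℂ) (hf : Measurable f) (hfi : Integrable f) :
    JJ q (fun v => (∫ y, k y * ec (dt y v)) * f v) ≤ (∫⁻ y, ‖k y‖ₑ) ^ q * JJ q f := by
  have h := JJ_super (n := n) (volume : Measure (Fin n → ℝ)) q hq k hk hkt
    (fun w => ec (dt w.1 w.2) * f w.2)
    ((ec_cont.measurable.comp (by unfold dt; fun_prop)).mul (hf.comp measurable_snd))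
    (fun v => ‖f v‖) hfi.norm (fun y v => by
      simp only
      rw [norm_mul, ec_norm, one_mul]) (JJ q f) (fun y => (JJ_mod q f y).le)
  refine le_trans (le_of_eq ?_) h
  congr 1
  ext v
  rw [← integral_mul_const]
  congr 1
  ext y
  ring

lemma dt_self (v : Fin n → ℝ) : dt v v = sq2 v := by
  unfold dt sq2
  apply Finset.sum_congr rfl
  intro i _
  ring

lemma orth_det (V : Matrix (Fin n) (Fin n) ℝ) (hV : Vᵀ * V = 1) : V.det ≠ 0 ∧ |V.det⁻¹| = 1 := by
  have h1 : V.det * V.det = 1 := by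
    have := congrArg Matrix.det hV
    rwa [Matrix.det_mul, Matrix.det_transpose, Matrix.det_one] at this
  have h2 : V.det ≠ 0 := by
    intro h
    rw [h, mul_zero] at h1
    exact zero_ne_one h1
  refine ⟨h2, ?_⟩
  have h3 : |V.det| = 1 := by
    have h4 : |V.det| * |V.det| = 1 := by rw [abs_mul_abs_self, h1]
    nlinarith [abs_nonneg V.det]
  rw [abs_inv, h3, inv_one]

lemma sq2_orth (V : Matrix (Fin n) (Fin n) ℝ) (hV : Vᵀ * V = 1) (v : Fin n → ℝ) :
    sq2 (V *ᵥ v) = sq2 v := by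
  rw [← dt_self, ← dt_trans, Matrix.mulVec_mulVec, hV, Matrix.one_mulVec, dt_self]

lemma EE_measx {f : (Fin n → ℝ) → ℂ} (hf : Measurable f) (t : ℝ) :
    Measurable fun x : Fin n → ℝ => EE f x t := by
  simp only [EE_eq]
  apply StronglyMeasurable.measurable
  apply StronglyMeasurable.integral_prod_right'
    (f := fun w : (Fin n → ℝ) × (Fin n → ℝ) => f w.2 * ec (dt w.1 w.2 + t * sq2 w.2))
  apply Measurable.stronglyMeasurable
  apply Measurable.mul
  · exact hf.comp measurable_snd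
  · apply ec_cont.measurable.comp
    unfold dt sq2
    fun_prop

/-- **rotations** -/
theorem JJ_rot (q : ℝ) (f : (Fin n → ℝ) → ℂ) (hf : Measurable f) (V : Matrix (Fin n) (Fin n) ℝ)
    (hV : Vᵀ * V = 1) : JJ q (fun v => f (V *ᵥ v)) = JJ q f := by
  obtain ⟨hd, hd1⟩ := orth_det V hV
  have hVt : V * Vᵀ = 1 := mul_eq_one_comm.mp hV
  have hdt : Vᵀ.det ≠ 0 := by rwa [Matrix.det_transpose]
  unfold JJ
  apply lintegral_congr
  intro t
  have hm : Measurable fun x => ‖EE f x t‖ₑ ^ q := (EE_measx hf t).enorm.pow_const q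
  have h1 := lint_mat V hd (fun x => ‖EE f x t‖ₑ ^ q) hm
  rw [hd1, ENNReal.ofReal_one, one_mul] at h1
  rw [← h1]
  apply lintegral_congr
  intro x
  congr 2
  rw [EE_eq, EE_eq]
  have hm2 : Measurable fun v : Fin n → ℝ => f v * ec (dt (V *ᵥ x) v + t * sq2 v) :=
    hf.mul (ec_cont.comp (by unfold dt sq2; fun_prop)).measurable
  have h2 := int_mat V hd 0 (fun v => f v * ec (dt (V *ᵥ x) v + t * sq2 v)) hm2
  rw [hd1, Complex.ofReal_one, one_mul] at h2
  rw [← h2]
  congr 1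
  ext v
  rw [add_zero, sq2_orth V hV, ← dt_trans, Matrix.mulVec_mulVec, hV, Matrix.one_mulVec]

/-- **a smooth function that is equal to `e^{ρ}` on a ball is the transform of an integrable
function** -/
theorem smooth_mult (R : ℝ) (hR : 0 < R) (ρ : (Fin n → ℝ) → ℝ)
    (hρ : ContDiff ℝ (⊤ : ℕ∞) ρ) :
    ∃ k : (Fin n → ℝ) → ℂ, Measurable k ∧ ∫⁻ y, ‖k y‖ₑ ≠ ∞ ∧ ∃ θ : (Fin n → ℝ) → ℂ,
      (∀ v, θ v = ∫ y, k y * ec (dt y v)) ∧ Measurable θ ∧ (∃ B : ℝ, ∀ v, ‖θ v‖ ≤ B) ∧
      (∀ v, sq2 v ≤ R ^ 2 → θ v = (Real.exp (ρ v) : ℂ)) ∧ ∃ ρ' : ℝ, ∀ v, v ∉ BA ρ' n → θ v = 0 := by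
  set E := EuclideanSpace ℝ (Fin n) with hE
  set ψ : ContDiffBump (0 : E) := ⟨R, 2 * R, hR, by linarith⟩ with hψ
  set Θ : E → ℂ := fun v => ((ψ v * Real.exp (ρ (WithLp.ofLp v)) : ℝ) : ℂ) with hΘ
  have hofLp : ContDiff ℝ (⊤ : ℕ∞) (fun v : E => (WithLp.ofLp v : Fin n → ℝ)) :=
    (PiLp.continuousLinearEquiv 2 ℝ (fun _ : Fin n => ℝ)).contDiff
  have hΘs : ContDiff ℝ (⊤ : ℕ∞) Θ := by
    apply Complex.ofRealCLM.contDiff.comp
    exact (ψ.contDiff).mul ((hρ.comp hofLp).exp)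
  have hΘc : HasCompactSupport Θ := by
    have h1 : HasCompactSupport (ψ : E → ℝ) := ψ.hasCompactSupport
    have h2 : HasCompactSupport fun v : E => ψ v * Real.exp (ρ (WithLp.ofLp v)) := h1.mul_right
    exact h2.comp_left (g := fun x : ℝ => (x : ℂ)) Complex.ofReal_zero
  set S : SchwartzMap E ℂ := hΘc.toSchwartzMap hΘs with hS
  have hSΘ : ∀ v, S v = Θ v := fun v => rfl
  set K : SchwartzMap E ℂ := SchwartzMap.fourierTransformCLM ℂ S with hK
  have hKf : ∀ y, K y = FourierTransform.fourier (Θ : E → ℂ) y := by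
    intro y
    rfl
  have hΘi : Integrable Θ := S.integrable
  have hFi : Integrable (FourierTransform.fourier (Θ : E → ℂ)) := by
    have := K.integrable (μ := volume)
    exact this
  have hinv := hΘs.continuous.fourierInv_fourier_eq hΘi hFi
  set k : (Fin n → ℝ) → ℂ := fun y => K (WithLp.toLp 2 y) with hk
  have hmp := EuclideanSpace.volume_preserving_symm_measurableEquiv_toLp (Fin n)
  have hmp' := hmp.symm
  have hkc : Continuous k := K.continuous.comp (PiLp.continuous_toLp 2 _)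
  have hki : Integrable k := by
    have h1 : Integrable (K : E → ℂ) := K.integrable
    exact (hmp'.integrable_comp_emb (MeasurableEquiv.toLp 2 (Fin n → ℝ)).measurableEmbedding).mpr h1
  refine ⟨k, hkc.measurable, (hki.2).ne, fun v => Θ (WithLp.toLp 2 v), ?_, ?_, ?_, ?_, ?_⟩
  · intro v
    have h1 := congrFun hinv (WithLp.toLp 2 v)
    show Θ (WithLp.toLp 2 v) = _
    rw [← h1, Real.fourierInv_eq']
    have h2 := hmp'.integral_comp (MeasurableEquiv.toLp 2 (Fin n → ℝ)).measurableEmbedding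
      (fun y : E => Complex.exp (((2 * Real.pi * inner ℝ y (WithLp.toLp 2 v) : ℝ) : ℂ) * I) •
        FourierTransform.fourier (Θ : E → ℂ) y)
    rw [← h2]
    congr 1
    ext y
    rw [smul_eq_mul, mul_comm]
    congr 1
    unfold ec
    congr 1
    have h3 : inner ℝ ((MeasurableEquiv.toLp 2 (Fin n → ℝ)) y) (WithLp.toLp 2 v : E) = dt y v := by
      unfold dt
      simp [PiLp.inner_apply, mul_comm]
    have h3' : inner ℝ ((MeasurableEquiv.toLp 2 (Fin n → ℝ)).symm.symm y) (WithLp.toLp 2 v : E) =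
        dt y v := h3
    rw [h3']
    push_cast
    ring
  · exact (hΘs.continuous.comp (PiLp.continuous_toLp 2 _)).measurable
  · obtain ⟨B, hB⟩ := hΘc.exists_bound_of_continuous hΘs.continuous
    exact ⟨B, fun v => hB _⟩
  · intro v hv
    simp only [hΘ]
    have h1 : ψ (WithLp.toLp 2 v) = 1 := by
      apply ψ.one_of_mem_closedBall
      rw [mem_closedBall_zero_iff, EuclideanSpace.norm_eq]
      have : Real.sqrt (∑ i, ‖(WithLp.toLp 2 v : E) i‖ ^ 2) ≤ R := by
        apply Real.sqrt_le_iff.mpr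
        refine ⟨hR.le, ?_⟩
        simpa [sq2] using hv
      exact this
    rw [h1, one_mul]
  · refine ⟨2 * R, fun v hv => ?_⟩
    simp only [hΘ]
    have h1 : ψ (WithLp.toLp 2 v) = 0 := by
      apply ψ.zero_of_le_dist
      rw [dist_zero_right]
      by_contra hc
      push Not at hc
      apply hv
      have h2 : ∀ i, |v i| ≤ 2 * R := by
        intro i
        have h3 := EuclideanSpace.norm_eq (WithLp.toLp 2 v : E)
        have h4 : |v i| ^ 2 ≤ ∑ j, ‖(WithLp.toLp 2 v : E) j‖ ^ 2 := by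
          have := Finset.single_le_sum (f := fun j => ‖(WithLp.toLp 2 v : E) j‖ ^ 2)
            (fun j _ => by positivity) (Finset.mem_univ i)
          simpa using this
        have h5 : |v i| ≤ Real.sqrt (∑ j, ‖(WithLp.toLp 2 v : E) j‖ ^ 2) := Real.le_sqrt_of_sq_le h4
        rw [← h3] at h5
        exact h5.trans hc.le
      exact ⟨fun i => (abs_le.mp (h2 i)).1, fun i => (abs_le.mp (h2 i)).2⟩
    rw [h1, zero_mul, Complex.ofReal_zero]

end Pool.Agent.Helper35.MP
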