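import Pool.Agent.Helper35.MP.U
import Pool.Agent.Helper35.MP.H
set_option autoImplicit false

/-! From the building block to functions of all variables. -/

namespace Pool.Agent.Helper35.MP

open MeasureTheory Set Filter Topology Complex Matrix
open scoped ENNReal NNReal
open Pool.Agent.Y183.LS (BA FT ec dt ec_norm ec_add ec_zero dt_comm FT_meas sq2)
open Pool.Agent.Y183.PP (Poly ev ev_cont SQ SQ_meas SQ_vol ex Ph)

variable {m : ℕ}

/-- splitting the variables -/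
noncomputable def spl (m : ℕ) : (Fin (m + 2) → ℝ) ≃ᵐ (ℝ × ℝ) × (Fin m → ℝ) :=
  ((MeasurableEquiv.piFinSuccAbove (fun _ : Fin (m + 2) => ℝ) 0).trans
    (MeasurableEquiv.prodCongr (MeasurableEquiv.refl ℝ)
      (MeasurableEquiv.piFinSuccAbove (fun _ : Fin (m + 1) => ℝ) 0))).trans
    MeasurableEquiv.prodAssoc.symm

lemma spl_apply (v : Fin (m + 2) → ℝ) : spl m v = ((v 0, v 1), fun j => v j.succ.succ) := rfl

lemma spl_mp (m : ℕ) : MeasurePreserving (spl m) volume volume := by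
  have h1 := volume_preserving_piFinSuccAbove (fun _ : Fin (m + 2) => ℝ) 0
  have h2 := volume_preserving_piFinSuccAbove (fun _ : Fin (m + 1) => ℝ) 0
  have h3 := (MeasurePreserving.id (volume : Measure ℝ)).prod h2
  have h4 := (volume_preserving_prodAssoc (α₁ := ℝ) (β₁ := ℝ) (γ₁ := Fin m → ℝ)).symm
  exact h4.comp (h3.comp h1)

/-- scaling of a polynomial -/
lemma scale_poly (R : ℝ) (p : Poly) : ∃ p' : Poly, p'.totalDegree ≤ p.totalDegree ∧
    ∀ z : ℝ × ℝ, ev p' z = ev p (R * z.1, R * z.2) := by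
  refine ⟨∑ d ∈ p.support, MvPolynomial.monomial d (MvPolynomial.coeff d p * ∏ i, R ^ d i), ?_, ?_⟩
  · refine (MvPolynomial.totalDegree_finsetSum _ _).trans (Finset.sup_le fun d hd => ?_)
    exact (MvPolynomial.totalDegree_monomial_le _ _).trans (MvPolynomial.le_totalDegree hd)
  · intro z
    unfold ev
    rw [map_sum, MvPolynomial.eval_eq']
    apply Finset.sum_congr rfl
    intro d _
    rw [MvPolynomial.eval_monomial, Finsupp.prod_fintype _ _ (fun _ => pow_zero _), mul_assoc,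
      ← Finset.prod_mul_distrib]
    congr 1
    apply Finset.prod_congr rfl
    intro i _
    rw [← mul_pow]
    congr 1
    fin_cases i <;> rfl

/-- the phase -/
noncomputable def phs (p : Poly) (r : Fin m → Poly) (c : Fin m → ℝ) (w : (ℝ × ℝ) × (Fin m → ℝ)) : ℝ :=
  ev p w.1 + ∑ j, w.2 j * ev (r j) w.1 + ∑ j, c j * w.2 j ^ 2

lemma phs_cont (p : Poly) (r : Fin m → Poly) (c : Fin m → ℝ) : Continuous (phs p r c) := by
  unfold phs
  have h1 : ∀ P : Poly, Continuous fun w : (ℝ × ℝ) × (Fin m → ℝ) => ev P w.1 := fun P =>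
    (ev_cont P).comp continuous_fst
  apply Continuous.add
  · apply (h1 p).add
    apply continuous_finsetSum
    intro j _
    exact Continuous.mul (by fun_prop) (h1 _)
  · fun_prop

/-- the building block as a function of the split variables -/
noncomputable def F0 (p : Poly) (r : Fin m → Poly) (c : Fin m → ℝ) (w : (ℝ × ℝ) × (Fin m → ℝ)) : ℂ :=
  cexp (((-∑ j, w.2 j ^ 2 : ℝ) : ℂ) + ((phs p r c w : ℝ) : ℂ) * I)

lemma F0_cont (p : Poly) (r : Fin m → Poly) (c : Fin m → ℝ) : Continuous (F0 p r c) := by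
  unfold F0
  have := phs_cont p r c
  fun_prop

lemma F0_norm (p : Poly) (r : Fin m → Poly) (c : Fin m → ℝ) (w : (ℝ × ℝ) × (Fin m → ℝ)) :
    ‖F0 p r c w‖ = Real.exp (-∑ j, w.2 j ^ 2) := by
  unfold F0
  rw [Complex.norm_exp, Complex.add_re, Complex.ofReal_re, Complex.re_ofReal_mul, Complex.I_re,
    mul_zero, add_zero]

lemma gauss_int (m : ℕ) : Integrable fun v : Fin m → ℝ => Real.exp (-∑ j, v j ^ 2) := by
  have h := GaussianFourier.integrable_cexp_neg_sum_mul_add (ι := Fin m) (b := fun _ => 1)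
    (fun _ => by simp) (fun _ => 0)
  have h1 := h.norm
  have e : ∀ v : Fin m → ℝ, ‖cexp (-∑ i, (1 : ℂ) * (v i : ℂ) ^ 2 + ∑ i, (0 : ℂ) * (v i : ℂ))‖ =
      Real.exp (-∑ j, v j ^ 2) := by
    intro v
    rw [Complex.norm_exp]
    congr 1
    simp only [zero_mul, Finset.sum_const_zero, add_zero, one_mul]
    have : -(∑ i, (v i : ℂ) ^ 2) = ((-∑ i, v i ^ 2 : ℝ) : ℂ) := by push_cast; rfl
    rw [this, Complex.ofReal_re]
  simp only [e] at h1
  exact h1

/-- the set of the planar variables -/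
def BR (R : ℝ) : Set (ℝ × ℝ) := {z | |z.1| ≤ R ∧ |z.2| ≤ R}

lemma BR_meas (R : ℝ) : MeasurableSet (BR R) := by
  have h1 : Continuous fun z : ℝ × ℝ => |z.1| := by fun_prop
  have h2 : Continuous fun z : ℝ × ℝ => |z.2| := by fun_prop
  exact ((isClosed_le h1 continuous_const).inter (isClosed_le h2 continuous_const)).measurableSet

lemma BR_SQ (R : ℝ) (hR : 0 < R) (z : ℝ × ℝ) : (R * z.1, R * z.2) ∈ BR R ↔ z ∈ SQ := by
  have h : ∀ x : ℝ, |R * x| ≤ R ↔ x ∈ Icc (-1 : ℝ) 1 := by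
    intro x
    rw [abs_mul, abs_of_pos hR]
    constructor
    · intro h
      have h1 : R * |x| ≤ R * 1 := by linarith
      exact abs_le.mp (le_of_mul_le_mul_left h1 hR)
    · intro h
      have h1 := abs_le.mpr h
      nlinarith
  constructor
  · rintro ⟨h1, h2⟩
    exact ⟨(h _).mp h1, (h _).mp h2⟩
  · rintro ⟨h1, h2⟩
    exact ⟨(h _).mpr h1, (h _).mpr h2⟩

/-- the function `e^{-|ζ''|²} e^{i P(ζ)}` for `|ζ_0|, |ζ_1| ≤ R` -/
noncomputable def f0 (R : ℝ) (p : Poly) (r : Fin m → Poly) (c : Fin m → ℝ) (v : Fin (m + 2) → ℝ) : ℂ :=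
  {w : (ℝ × ℝ) × (Fin m → ℝ) | w.1 ∈ BR R}.indicator (F0 p r c) (spl m v)

lemma ind_meas (R : ℝ) : MeasurableSet {w : (ℝ × ℝ) × (Fin m → ℝ) | w.1 ∈ BR R} :=
  measurable_fst (BR_meas R)

lemma f0_meas (R : ℝ) (p : Poly) (r : Fin m → Poly) (c : Fin m → ℝ) : Measurable (f0 R p r c) :=
  ((F0_cont p r c).measurable.indicator (ind_meas R)).comp (spl m).measurable

lemma F0_int (S : Set (ℝ × ℝ)) (hS : MeasurableSet S) (hfin : volume S ≠ ∞) (p : Poly)
    (r : Fin m → Poly) (c : Fin m → ℝ) :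
    Integrable ({w : (ℝ × ℝ) × (Fin m → ℝ) | w.1 ∈ S}.indicator (F0 p r c)) := by
  have h1 : Integrable (S.indicator fun _ => (1 : ℝ)) :=
    (integrable_indicator_iff hS).mpr (integrableOn_const hfin)
  have h2 := h1.mul_prod (gauss_int m)
  refine h2.mono' ?_ ?_
  · exact ((F0_cont p r c).measurable.indicator (measurable_fst hS)).aestronglyMeasurable
  · apply ae_of_all
    intro w
    by_cases hw : w.1 ∈ S
    · rw [indicator_of_mem (show w ∈ {w : (ℝ × ℝ) × (Fin m → ℝ) | w.1 ∈ S} from hw),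
        indicator_of_mem hw, one_mul, F0_norm]
    · rw [indicator_of_notMem (show w ∉ {w : (ℝ × ℝ) × (Fin m → ℝ) | w.1 ∈ S} from hw),
        indicator_of_notMem hw, zero_mul, norm_zero]

lemma BR_fin (R : ℝ) : volume (BR R) ≠ ∞ := by
  have h : BR R ⊆ Icc (-R) R ×ˢ Icc (-R) R := by
    rintro z ⟨h1, h2⟩
    exact ⟨abs_le.mp h1, abs_le.mp h2⟩
  apply ne_top_of_le_ne_top _ (measure_mono h)
  rw [Measure.volume_eq_prod, Measure.prod_prod, Real.volume_Icc]
  exact ENNReal.mul_ne_top ENNReal.ofReal_ne_top ENNReal.ofReal_ne_top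

lemma f0_int (R : ℝ) (p : Poly) (r : Fin m → Poly) (c : Fin m → ℝ) : Integrable (f0 R p r c) := by
  have h := F0_int (BR R) (BR_meas R) (BR_fin R) p r c
  exact (spl_mp m).integrable_comp_emb (spl m).measurableEmbedding |>.mpr h

/-- the scaling of the planar variables -/
noncomputable def scl (R : ℝ) : Fin (m + 2) → ℝ := Fin.cons R (Fin.cons R fun _ => 1)

lemma scl_det (R : ℝ) : (Matrix.diagonal (scl (m := m) R)).det = R ^ 2 := by
  rw [Matrix.det_diagonal, Fin.prod_univ_succ, Fin.prod_univ_succ]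
  simp [scl]
  ring

/-- **the connection with the building block** -/
lemma block (R : ℝ) (hR : 0 < R) (p p' : Poly) (r r' : Fin m → Poly) (c : Fin m → ℝ)
    (hp : ∀ z : ℝ × ℝ, ev p' z = ev p (R * z.1, R * z.2))
    (hr : ∀ j, ∀ z : ℝ × ℝ, ev (r' j) z = ev (r j) (R * z.1, R * z.2)) (t : ℝ)
    (x : Fin (m + 2) → ℝ) :
    FT (fun v => (fun v => f0 R p r c v * ec (t * sq2 v)) (Matrix.diagonal (scl R) *ᵥ v + 0)) x =
      FB p' r' c (R ^ 2) (spl m x).1 (spl m x).2 t := by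
  set G : (ℝ × ℝ) × (Fin m → ℝ) → ℂ := fun w => {w : (ℝ × ℝ) × (Fin m → ℝ) | w.1 ∈ SQ}.indicator
    (F0 p' r' c) w * (ec (t * (R ^ 2 * (w.1.1 ^ 2 + w.1.2 ^ 2) + ∑ j, w.2 j ^ 2)) *
      ec (x 0 * w.1.1 + x 1 * w.1.2 + ∑ j, x j.succ.succ * w.2 j)) with hG
  have h1 : FT (fun v => (fun v => f0 R p r c v * ec (t * sq2 v)) (Matrix.diagonal (scl R) *ᵥ v + 0)) x =
      ∫ v, G (spl m v) := by
    unfold FT
    congr 1
    ext v
    simp only [hG]
    set u : Fin (m + 2) → ℝ := Matrix.diagonal (scl R) *ᵥ v + 0 with hu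
    have hu0 : u 0 = R * v 0 := by
      simp [hu, Matrix.mulVec_diagonal, scl]
    have hu1 : u 1 = R * v 1 := by
      rw [hu, add_zero, Matrix.mulVec_diagonal]
      rfl
    have hu2 : ∀ j : Fin m, u j.succ.succ = v j.succ.succ := by
      intro j
      rw [hu, add_zero, Matrix.mulVec_diagonal]
      simp [scl]
    have hsq : sq2 u = R ^ 2 * (v 0 ^ 2 + v 1 ^ 2) + ∑ j : Fin m, v j.succ.succ ^ 2 := by
      unfold sq2
      rw [Fin.sum_univ_succ, Fin.sum_univ_succ]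
      have h01 : (Fin.succ (0 : Fin (m + 1))) = 1 := rfl
      rw [h01, hu0, hu1]
      simp only [hu2]
      ring
    have hdt : dt x v = x 0 * v 0 + x 1 * v 1 + ∑ j : Fin m, x j.succ.succ * v j.succ.succ := by
      unfold dt
      rw [Fin.sum_univ_succ, Fin.sum_univ_succ]
      have h01 : (Fin.succ (0 : Fin (m + 1))) = 1 := rfl
      rw [h01]
      ring
    have hf : f0 R p r c u = {w : (ℝ × ℝ) × (Fin m → ℝ) | w.1 ∈ SQ}.indicator (F0 p' r' c)
        (spl m v) := by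
      unfold f0
      rw [spl_apply, spl_apply, hu0, hu1]
      simp only [hu2]
      by_cases h : ((v 0, v 1) : ℝ × ℝ) ∈ SQ
      · have h' := (BR_SQ R hR (v 0, v 1)).mpr h
        rw [indicator_of_mem (show ((((R * v 0, R * v 1) : ℝ × ℝ), fun j : Fin m => v j.succ.succ) :
          (ℝ × ℝ) × (Fin m → ℝ)) ∈ {w : (ℝ × ℝ) × (Fin m → ℝ) | w.1 ∈ BR R} from h'),
          indicator_of_mem (show ((((v 0, v 1) : ℝ × ℝ), fun j : Fin m => v j.succ.succ) :
          (ℝ × ℝ) × (Fin m → ℝ)) ∈ {w : (ℝ × ℝ) × (Fin m → ℝ) | w.1 ∈ SQ} from h)]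
        unfold F0 phs
        simp only [hp, hr]
      · have h' := fun h' => h ((BR_SQ R hR (v 0, v 1)).mp h')
        rw [indicator_of_notMem (show ((((R * v 0, R * v 1) : ℝ × ℝ), fun j : Fin m => v j.succ.succ) :
          (ℝ × ℝ) × (Fin m → ℝ)) ∉ {w : (ℝ × ℝ) × (Fin m → ℝ) | w.1 ∈ BR R} from h'),
          indicator_of_notMem (show ((((v 0, v 1) : ℝ × ℝ), fun j : Fin m => v j.succ.succ) :
          (ℝ × ℝ) × (Fin m → ℝ)) ∉ {w : (ℝ × ℝ) × (Fin m → ℝ) | w.1 ∈ SQ} from h)]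
    rw [hf, hsq, hdt, spl_apply]
    ring
  have h2 : ∫ v, G (spl m v) = ∫ w, G w :=
    (spl_mp m).integral_comp (spl m).measurableEmbedding G
  have hGi : Integrable G := by
    have h3 := F0_int SQ SQ_meas (by rw [SQ_vol]; norm_num) p' r' c
    refine h3.mul_bdd (c := 1) ?_ ?_
    · apply Continuous.aestronglyMeasurable
      exact (ec_cont.comp (by fun_prop)).mul (ec_cont.comp (by fun_prop))
    · apply ae_of_all
      intro w
      rw [norm_mul, ec_norm, ec_norm, mul_one]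
  rw [h1, h2, Measure.volume_eq_prod, integral_prod _ hGi]
  unfold FB
  rw [← integral_indicator SQ_meas]
  congr 1
  ext z
  by_cases hz : z ∈ SQ
  · rw [indicator_of_mem hz]
    congr 1
    ext v
    simp only [hG]
    rw [indicator_of_mem (show ((z, v) : (ℝ × ℝ) × (Fin m → ℝ)) ∈
      {w : (ℝ × ℝ) × (Fin m → ℝ) | w.1 ∈ SQ} from hz)]
    unfold F0 ec phs
    rw [← Complex.exp_add, ← Complex.exp_add, spl_apply]
    congr 1
    simp only
    push_cast
    have e1 : ∑ j : Fin m, (x j.succ.succ : ℂ) * (v j : ℂ) = ∑ j : Fin m, (v j : ℂ) * (x j.succ.succ : ℂ) :=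
      Finset.sum_congr rfl fun j _ => mul_comm _ _
    rw [e1]
    ring
  · rw [indicator_of_notMem hz]
    have : ∀ v : Fin m → ℝ, G (z, v) = 0 := by
      intro v
      simp only [hG]
      rw [indicator_of_notMem (show ((z, v) : (ℝ × ℝ) × (Fin m → ℝ)) ∉
        {w : (ℝ × ℝ) × (Fin m → ℝ) | w.1 ∈ SQ} from hz), zero_mul]
    simp only [this, integral_zero]

/-- **the estimate of the basic function** -/
theorem JJ_f0 (hm : 1 ≤ m) (D : ℕ) (q : ℝ) (hq : 2 + 2 / (m + 2 : ℝ) < q) (R : ℝ) (hR : 1 ≤ R) :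
    ∃ C : ℝ≥0, ∀ (p : Poly) (r : Fin m → Poly) (c : Fin m → ℝ), p.totalDegree ≤ D →
      (∀ j, (r j).totalDegree ≤ D) → JJ q (f0 R p r c) ≤ C := by
  obtain ⟨C, hC⟩ := FB_bound hm D q hq
  have hR0 : 0 < R := by linarith
  have hm0 : (0 : ℝ) < m + 2 := by positivity
  have hq2 : 2 < q := by
    have : 0 < 2 / (m + 2 : ℝ) := by positivity
    linarith
  set M : Matrix (Fin (m + 2)) (Fin (m + 2)) ℝ := Matrix.diagonal (scl R) with hM
  have hMd : M.det ≠ 0 := by
    rw [hM, scl_det]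
    positivity
  set s : ℝ≥0∞ := ENNReal.ofReal |M.det⁻¹| with hs
  have hs0 : s ≠ 0 := by
    rw [hs, ne_eq, ENNReal.ofReal_eq_zero, not_le]
    exact abs_pos.mpr (inv_ne_zero hMd)
  have hst : s ≠ ∞ := ENNReal.ofReal_ne_top
  have hsq0 : s ^ q ≠ 0 := by
    rw [ne_eq, ENNReal.rpow_eq_zero_iff]
    rintro (⟨h13, -⟩ | ⟨h13, -⟩)
    · exact hs0 h13
    · exact hst h13
  have hsqt : s ^ q ≠ ∞ := ENNReal.rpow_ne_top_of_nonneg (by linarith) hst
  have hfin : (s ^ q)⁻¹ * (s * C) ≠ ∞ :=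
    ENNReal.mul_ne_top (ENNReal.inv_ne_top.mpr hsq0) (ENNReal.mul_ne_top hst ENNReal.coe_ne_top)
  refine ⟨((s ^ q)⁻¹ * (s * C)).toNNReal, ?_⟩
  rw [ENNReal.coe_toNNReal hfin]
  intro p r c hp hr
  obtain ⟨p', hp'd, hp'⟩ := scale_poly R p
  choose r' hr'd hr' using fun j => scale_poly R (r j)
  have hb := hC p' r' c (R ^ 2) (hp'd.trans hp) (fun j => (hr'd j).trans (hr j))
    (one_le_pow₀ hR)
  have hfm := f0_meas R p r c
  -- fixed time
  have hfix : ∀ t, ∫⁻ x : Fin (m + 2) → ℝ, ‖EE (f0 R p r c) x t‖ₑ ^ q =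
      (s ^ q)⁻¹ * (s * ∫⁻ x : Fin m → ℝ, ∫⁻ y : ℝ × ℝ, ‖FB p' r' c (R ^ 2) y x t‖ₑ ^ q) := by
    intro t
    have hHm : Measurable fun v : Fin (m + 2) → ℝ => f0 R p r c v * ec (t * sq2 v) :=
      hfm.mul (ec_cont.comp (continuous_const.mul sq2_cont)).measurable
    have h1 := FT_aff_norm M hMd 0 q (by linarith) _ hHm
    rw [← hs] at h1
    have h2 : ∫⁻ x : Fin (m + 2) → ℝ, ‖EE (f0 R p r c) x t‖ₑ ^ q = (s ^ q)⁻¹ *
        (s ^ q * ∫⁻ x : Fin (m + 2) → ℝ, ‖EE (f0 R p r c) x t‖ₑ ^ q) := by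
      rw [← mul_assoc, ENNReal.inv_mul_cancel hsq0 hsqt, one_mul]
    rw [h2]
    congr 1
    unfold EE
    rw [← h1]
    congr 1
    have hbl : ∀ x, FT (fun v => (fun v => f0 R p r c v * ec (t * sq2 v)) (M *ᵥ v + 0)) x =
      FB p' r' c (R ^ 2) (spl m x).1 (spl m x).2 t := fun x => block R hR0 p p' r r' c hp' hr' t x
    have hFBm : Measurable fun w : (ℝ × ℝ) × (Fin m → ℝ) => FB p' r' c (R ^ 2) w.1 w.2 t := by
      have h5 : (fun w : (ℝ × ℝ) × (Fin m → ℝ) => FB p' r' c (R ^ 2) w.1 w.2 t) = fun w =>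
          FT (fun v => (fun v => f0 R p r c v * ec (t * sq2 v)) (M *ᵥ v + 0)) ((spl m).symm w) := by
        ext w
        rw [hbl, MeasurableEquiv.apply_symm_apply]
      rw [h5]
      exact (FT_meas (hHm.comp ((mat_meas M).add_const 0))).comp (spl m).symm.measurable
    have h6 := (spl_mp m).lintegral_comp_emb (spl m).measurableEmbedding
      (fun w : (ℝ × ℝ) × (Fin m → ℝ) => ‖FB p' r' c (R ^ 2) w.1 w.2 t‖ₑ ^ q)
    rw [Measure.volume_eq_prod, lintegral_prod_symm _ (hFBm.enorm.pow_const q).aemeasurable] at h6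
    rw [← h6]
    apply lintegral_congr
    intro x
    rw [← hbl]
  unfold JJ
  simp only [hfix]
  rw [lintegral_const_mul' _ _ (ENNReal.inv_ne_top.mpr hsq0), lintegral_const_mul' _ _ hst]
  gcongr

end Pool.Agent.Helper35.MP
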